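import Mathlib
import Pool.Agent.H853R3.Task469G

/-!
# Two Mellin transforms
-/

set_option autoImplicit false

namespace Pool.Agent.Q284.S

open Filter Topology MeasureTheory Set Complex

/-- Mellin transform of `1 / (1 + y)` -/
lemma mel_inv {s : ℂ} (h0 : 0 < s.re) (h1 : s.re < 1) :
    mellin (fun y : ℝ => ((((1 + y)⁻¹ : ℝ)) : ℂ)) s = Gamma s * Gamma (1 - s) := by
  have hm : Measurable (Function.uncurry fun (y u : ℝ) =>
      ((y : ℂ) ^ (s - 1)) * ((Real.exp (-u) * Real.exp (-(u * y)) : ℝ) : ℂ)) := by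
    refine Measurable.mul ?_ ?_
    · exact (Complex.measurable_ofReal.comp measurable_fst).pow_const _
    · exact Complex.measurable_ofReal.comp ((Real.measurable_exp.comp measurable_snd.neg).mul
        (Real.measurable_exp.comp (measurable_snd.mul measurable_fst).neg))
  have hreal : ∀ u : ℝ, 0 < u → ∫ y in Ioi (0 : ℝ), y ^ (s.re - 1) * Real.exp (-(u * y)) =
      (1 / u) ^ s.re * Real.Gamma s.re := fun u hu => Real.integral_rpow_mul_exp_neg_mul_Ioi h0 hu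
  have hint : ∀ u : ℝ, 0 < u → IntegrableOn (fun y : ℝ => y ^ (s.re - 1) * Real.exp (-(u * y))) (Ioi 0) := by
    intro u hu
    have := integrableOn_rpow_mul_exp_neg_mul_rpow (s := s.re - 1) (p := 1) (b := u) (by linarith) one_pos hu
    refine this.congr_fun (fun y hy => ?_) measurableSet_Ioi
    simp [neg_mul]
  have hnorm : ∀ y : ℝ, 0 < y → ∀ u : ℝ, ‖((y : ℂ) ^ (s - 1)) * ((Real.exp (-u) * Real.exp (-(u * y)) : ℝ) : ℂ)‖ =
      Real.exp (-u) * (y ^ (s.re - 1) * Real.exp (-(u * y))) := by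
    intro y hy u
    rw [norm_mul, norm_cpow_eq_rpow_re_of_pos hy, norm_real, Real.norm_of_nonneg (by positivity), sub_re, one_re]
    ring
  have hI : Integrable (Function.uncurry fun (y u : ℝ) =>
      ((y : ℂ) ^ (s - 1)) * ((Real.exp (-u) * Real.exp (-(u * y)) : ℝ) : ℂ))
      ((volume.restrict (Ioi 0)).prod (volume.restrict (Ioi 0))) := by
    rw [integrable_prod_iff' hm.aestronglyMeasurable]
    constructor
    · rw [ae_restrict_iff' measurableSet_Ioi]
      refine Eventually.of_forall fun u hu => ?_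
      have hu0 : (0 : ℝ) < u := hu
      refine Integrable.mono' ((hint u hu0).const_mul (Real.exp (-u))) ?_ ?_
      · exact (hm.comp (measurable_id.prodMk measurable_const)).aestronglyMeasurable
      · rw [ae_restrict_iff' measurableSet_Ioi]
        exact Eventually.of_forall fun y hy => (hnorm y hy u).le
    · have h2 : IntegrableOn (fun u : ℝ => Real.Gamma s.re * (u ^ ((1 - s.re) - 1) * Real.exp (-(1 * u)))) (Ioi 0) := by
        refine Integrable.const_mul ?_ _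
        have := integrableOn_rpow_mul_exp_neg_mul_rpow (s := (1 - s.re) - 1) (p := 1) (b := 1) (by linarith) one_pos one_pos
        refine this.congr_fun (fun y hy => ?_) measurableSet_Ioi
        simp
      refine h2.congr_fun (fun u hu => ?_) measurableSet_Ioi
      have hu0 : (0 : ℝ) < u := hu
      have e1 : ∫ y in Ioi (0 : ℝ), ‖(Function.uncurry fun (y u : ℝ) =>
          ((y : ℂ) ^ (s - 1)) * ((Real.exp (-u) * Real.exp (-(u * y)) : ℝ) : ℂ)) (y, u)‖ =
          ∫ y in Ioi (0 : ℝ), Real.exp (-u) * (y ^ (s.re - 1) * Real.exp (-(u * y))) :=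
        setIntegral_congr_fun measurableSet_Ioi fun y hy => hnorm y hy u
      simp only
      rw [e1, integral_const_mul, hreal u hu0, one_div, Real.inv_rpow hu0.le, ← Real.rpow_neg hu0.le, one_mul]
      have : 1 - s.re - 1 = -s.re := by ring
      rw [this]
      ring
  have hsw := integral_integral_swap (f := fun (y u : ℝ) =>
      ((y : ℂ) ^ (s - 1)) * ((Real.exp (-u) * Real.exp (-(u * y)) : ℝ) : ℂ)) hI
  have e2 : ∀ y : ℝ, 0 < y → ∫ u in Ioi (0 : ℝ), ((y : ℂ) ^ (s - 1)) *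
      ((Real.exp (-u) * Real.exp (-(u * y)) : ℝ) : ℂ) = ((y : ℂ) ^ (s - 1)) • ((((1 + y)⁻¹ : ℝ)) : ℂ) := by
    intro y hy
    rw [integral_const_mul, smul_eq_mul, integral_complex_ofReal]
    congr 2
    have h3 : (fun u : ℝ => Real.exp (-u) * Real.exp (-(u * y))) = fun u : ℝ => Real.exp (-(1 + y) * u) := by
      funext u
      rw [← Real.exp_add]
      congr 1
      ring
    rw [h3, integral_exp_mul_Ioi (by linarith) 0]
    rw [mul_zero, Real.exp_zero, neg_div_neg_eq, one_div]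
  have e3 : ∀ u : ℝ, 0 < u → ∫ y in Ioi (0 : ℝ), ((y : ℂ) ^ (s - 1)) *
      ((Real.exp (-u) * Real.exp (-(u * y)) : ℝ) : ℂ) = Gamma s * ((u : ℂ) ^ ((1 - s) - 1) * Complex.exp (-(1 * u))) := by
    intro u hu
    have h4 := Complex.integral_cpow_mul_exp_neg_mul_Ioi (a := s) (r := u) h0 (by simpa using hu)
    have h5 : (fun y : ℝ => ((y : ℂ) ^ (s - 1)) * ((Real.exp (-u) * Real.exp (-(u * y)) : ℝ) : ℂ)) =
        fun y : ℝ => Complex.exp (-u) * ((y : ℂ) ^ (s - 1) * Complex.exp (-(u * y))) := by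
      funext y
      push_cast
      ring
    rw [h5, integral_const_mul, h4, one_div, Complex.inv_cpow _ _ (by
      rw [Complex.arg_ofReal_of_nonneg hu.le]; exact Real.pi_pos.ne), ← cpow_neg]
    have : 1 - s - 1 = -s := by ring
    rw [this, one_mul]
    ring
  unfold mellin
  have e4 : ∫ y in Ioi (0 : ℝ), ((y : ℂ) ^ (s - 1)) • ((((1 + y)⁻¹ : ℝ)) : ℂ) =
      ∫ y in Ioi (0 : ℝ), ∫ u in Ioi (0 : ℝ), ((y : ℂ) ^ (s - 1)) *
      ((Real.exp (-u) * Real.exp (-(u * y)) : ℝ) : ℂ) :=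
    setIntegral_congr_fun measurableSet_Ioi fun y hy => (e2 y hy).symm
  rw [e4, hsw]
  have e5 : ∫ u in Ioi (0 : ℝ), ∫ y in Ioi (0 : ℝ), ((y : ℂ) ^ (s - 1)) *
      ((Real.exp (-u) * Real.exp (-(u * y)) : ℝ) : ℂ) =
      ∫ u in Ioi (0 : ℝ), Gamma s * ((u : ℂ) ^ ((1 - s) - 1) * Complex.exp (-(1 * u))) :=
    setIntegral_congr_fun measurableSet_Ioi fun u hu => e3 u hu
  rw [e5, integral_const_mul]
  have h6 := Complex.integral_cpow_mul_exp_neg_mul_Ioi (a := 1 - s) (r := 1) (by simp; linarith) (by simp)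
  rw [Complex.ofReal_one] at h6
  rw [h6]
  simp

/-- `∫ y^a / (1 + y²)` -/
lemma int_pow {a : ℂ} (h0 : -1 < a.re) (h1 : a.re < 1) :
    ∫ y in Ioi (0 : ℝ), (y : ℂ) ^ a * (((1 + y ^ 2)⁻¹ : ℝ) : ℂ) = (Real.pi / 2) / Complex.cos (Real.pi * a / 2) := by
  have hre : ((a + 1) / 2).re = (a.re + 1) / 2 := by simp
  have h2 := mel_inv (s := (a + 1) / 2) (by rw [hre]; linarith) (by rw [hre]; linarith)
  have h3 := mellin_comp_rpow (fun y : ℝ => ((((1 + y)⁻¹ : ℝ)) : ℂ)) (a + 1) (a := 2)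
  have h4 : mellin (fun y : ℝ => ((((1 + y ^ (2 : ℝ))⁻¹ : ℝ)) : ℂ)) (a + 1) =
      ∫ y in Ioi (0 : ℝ), (y : ℂ) ^ a * (((1 + y ^ 2)⁻¹ : ℝ) : ℂ) := by
    unfold mellin
    refine setIntegral_congr_fun measurableSet_Ioi fun y hy => ?_
    simp
  rw [← h4, h3]
  have h5 : (a + 1) / ((2 : ℝ) : ℂ) = (a + 1) / 2 := by push_cast; rfl
  rw [h5, h2, Complex.Gamma_mul_Gamma_one_sub]
  have h6 : Complex.sin (Real.pi * ((a + 1) / 2)) = Complex.cos (Real.pi * a / 2) := by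
    have : (Real.pi : ℂ) * ((a + 1) / 2) = Real.pi * a / 2 + Real.pi / 2 := by ring
    rw [this, Complex.sin_add_pi_div_two]
  rw [h6, abs_of_pos (by norm_num : (0 : ℝ) < 2), Complex.real_smul]
  push_cast
  ring

open Pool.Agent.H853R3.Bol in
lemma K_one (t x : ℝ) (ht : 0 < t) : K 1 t x = (t ^ 2 - x ^ 2) / (t ^ 2 + x ^ 2) ^ 2 := by
  have h : t ^ 2 + x ^ 2 ≠ 0 := by positivity
  unfold K
  rw [one_div, Complex.inv_re, Complex.normSq_eq_norm_sq, norm_pow, norm_sq_lower]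
  congr 1
  rw [pow_two]
  simp [Complex.mul_re, Complex.add_re, Complex.add_im]
  ring

open Pool.Agent.H853R3.Bol in
lemma K_one_le (t x : ℝ) (ht : 0 < t) : |K 1 t x| ≤ 1 / (t ^ 2 + x ^ 2) := by
  have h : 0 < t ^ 2 + x ^ 2 := by positivity
  rw [K_one t x ht, abs_div, abs_of_pos (pow_pos h 2), div_le_div_iff₀ (by positivity) h]
  have : |t ^ 2 - x ^ 2| ≤ t ^ 2 + x ^ 2 := by
    rw [abs_le]
    constructor <;> nlinarith [sq_nonneg t, sq_nonneg x]
  nlinarith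

/-- the function `y^a / (1 + y²)` is integrable -/
lemma int_on {a : ℂ} (h0 : -1 < a.re) (h1 : a.re < 1) :
    IntegrableOn (fun y : ℝ => (y : ℂ) ^ a * (((1 + y ^ 2)⁻¹ : ℝ) : ℂ)) (Ioi 0) := by
  have hmeas : ∀ S : Set ℝ, AEStronglyMeasurable (fun y : ℝ => (y : ℂ) ^ a * (((1 + y ^ 2)⁻¹ : ℝ) : ℂ))
      (volume.restrict S) := by
    intro S
    apply Measurable.aestronglyMeasurable
    exact (Complex.measurable_ofReal.pow_const _).mul (by fun_prop)
  have hn : ∀ y : ℝ, 0 < y → ‖(y : ℂ) ^ a * (((1 + y ^ 2)⁻¹ : ℝ) : ℂ)‖ = y ^ a.re * (1 + y ^ 2)⁻¹ := by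
    intro y hy
    rw [norm_mul, norm_cpow_eq_rpow_re_of_pos hy, norm_real, Real.norm_of_nonneg (by positivity)]
  rw [← Ioc_union_Ioi_eq_Ioi zero_le_one]
  refine IntegrableOn.union ?_ ?_
  · have h2 : IntegrableOn (fun y : ℝ => y ^ a.re) (Ioc 0 1) :=
      (intervalIntegrable_iff_integrableOn_Ioc_of_le zero_le_one).1 (intervalIntegral.intervalIntegrable_rpow' h0)
    refine Integrable.mono' h2 (hmeas _) ?_
    rw [ae_restrict_iff' measurableSet_Ioc]
    refine Eventually.of_forall fun y hy => ?_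
    rw [hn y hy.1]
    have : (1 + y ^ 2)⁻¹ ≤ 1 := inv_le_one_of_one_le₀ (by nlinarith [sq_nonneg y])
    exact mul_le_of_le_one_right (Real.rpow_nonneg hy.1.le _) this
  · have h2 : IntegrableOn (fun y : ℝ => y ^ (a.re - 2)) (Ioi 1) := integrableOn_Ioi_rpow_of_lt (by linarith) one_pos
    refine Integrable.mono' h2 (hmeas _) ?_
    rw [ae_restrict_iff' measurableSet_Ioi]
    refine Eventually.of_forall fun y hy => ?_
    have hy0 : (0 : ℝ) < y := lt_trans one_pos hy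
    rw [hn y hy0, Real.rpow_sub hy0, Real.rpow_two, div_eq_mul_inv]
    have : (1 + y ^ 2)⁻¹ ≤ (y ^ 2)⁻¹ := inv_anti₀ (by positivity) (by linarith)
    exact mul_le_mul_of_nonneg_left this (Real.rpow_nonneg hy0.le _)

open Pool.Agent.H853R3.Bol in
lemma kap_int {a : ℂ} (h0 : -1 < a.re) (h1 : a.re < 1) :
    IntegrableOn (fun y : ℝ => (y : ℂ) ^ a * ((K 1 1 y : ℝ) : ℂ)) (Ioi 0) := by
  have h := int_on h0 h1
  have hm : Measurable (K 1 1) := by
    unfold K
    fun_prop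
  refine Integrable.mono h ?_ ?_
  · apply Measurable.aestronglyMeasurable
    exact (Complex.measurable_ofReal.pow_const _).mul (Complex.measurable_ofReal.comp hm)
  · refine Eventually.of_forall fun y => ?_
    rw [norm_mul, norm_mul, norm_real, norm_real, Real.norm_eq_abs, Real.norm_of_nonneg (by positivity)]
    have := K_one_le 1 y one_pos
    rw [one_pow, one_div] at this
    exact mul_le_mul_of_nonneg_left this (norm_nonneg _)

open Pool.Agent.H853R3.Bol in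
/-- the Mellin transform of the kernel -/
lemma kap_eq {a : ℂ} (h0 : -1 < a.re) (h1 : a.re < 1) :
    ∫ y in Ioi (0 : ℝ), (y : ℂ) ^ a * ((K 1 1 y : ℝ) : ℂ) = -a * ((Real.pi / 2) / Complex.cos (Real.pi * a / 2)) := by
  have hu : ∀ y ∈ Ioi (0 : ℝ), HasDerivAt (fun y : ℝ => (y : ℂ) ^ a) (a * (y : ℂ) ^ (a - 1)) y := by
    intro y hy
    have hy0 : (0 : ℝ) < y := hy
    rcases eq_or_ne a 0 with rfl | ha
    · simp only [cpow_zero, zero_mul]
      exact hasDerivAt_const _ _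
    · exact hasDerivAt_ofReal_cpow_const hy0.ne' ha
  have hv : ∀ y ∈ Ioi (0 : ℝ), HasDerivAt (fun y : ℝ => ((y * (1 + y ^ 2)⁻¹ : ℝ) : ℂ)) ((K 1 1 y : ℝ) : ℂ) y := by
    intro y _
    have h2 : HasDerivAt (fun y : ℝ => y * (1 + y ^ 2)⁻¹) (K 1 1 y) y := by
      have h3 : HasDerivAt (fun y : ℝ => 1 + y ^ 2) (2 * y) y := by
        have := (hasDerivAt_pow 2 y).const_add 1
        simpa using this
      have hne : 1 + y ^ 2 ≠ 0 := by positivity
      have h4 := (hasDerivAt_id y).mul (h3.inv hne)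
      refine HasDerivAt.congr_deriv (f := fun y : ℝ => y * (1 + y ^ 2)⁻¹) h4 ?_
      rw [K_one 1 y one_pos]
      simp only [id, Pi.inv_apply]
      field_simp
      ring
    exact h2.ofReal_comp
  have hv1 : IntegrableOn ((fun y : ℝ => (y : ℂ) ^ a) * fun y : ℝ => ((K 1 1 y : ℝ) : ℂ)) (Ioi 0) := kap_int h0 h1
  have e1 : ∀ y ∈ Ioi (0 : ℝ), (a * (y : ℂ) ^ (a - 1)) * ((y * (1 + y ^ 2)⁻¹ : ℝ) : ℂ) =
      a * ((y : ℂ) ^ a * (((1 + y ^ 2)⁻¹ : ℝ) : ℂ)) := by
    intro y hy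
    have hy0 : (0 : ℝ) < y := hy
    have hyc : (y : ℂ) ≠ 0 := by exact_mod_cast hy0.ne'
    rw [cpow_sub _ _ hyc, cpow_one]
    push_cast
    field_simp
  have hv2 : IntegrableOn ((fun y : ℝ => a * (y : ℂ) ^ (a - 1)) * fun y : ℝ => ((y * (1 + y ^ 2)⁻¹ : ℝ) : ℂ))
      (Ioi 0) :=
    IntegrableOn.congr_fun ((int_on h0 h1).const_mul a) (fun y hy => (e1 y hy).symm) measurableSet_Ioi
  have hn : ∀ y : ℝ, 0 < y → ‖((fun y : ℝ => (y : ℂ) ^ a) * fun y : ℝ => ((y * (1 + y ^ 2)⁻¹ : ℝ) : ℂ)) y‖ =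
      y ^ a.re * (y * (1 + y ^ 2)⁻¹) := by
    intro y hy
    rw [Pi.mul_apply, norm_mul, norm_cpow_eq_rpow_re_of_pos hy, norm_real, Real.norm_of_nonneg (by positivity)]
  have hz : Tendsto ((fun y : ℝ => (y : ℂ) ^ a) * fun y : ℝ => ((y * (1 + y ^ 2)⁻¹ : ℝ) : ℂ)) (𝓝[>] 0) (𝓝 0) := by
    rw [tendsto_zero_iff_norm_tendsto_zero]
    have h3 : Tendsto (fun y : ℝ => y ^ (a.re + 1)) (𝓝[>] 0) (𝓝 0) := by
      have := (Real.continuousAt_rpow_const 0 (a.re + 1) (Or.inr (by linarith))).tendsto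
      rw [Real.zero_rpow (by linarith)] at this
      exact this.mono_left nhdsWithin_le_nhds
    refine squeeze_zero' (Eventually.of_forall fun _ => norm_nonneg _) ?_ h3
    filter_upwards [self_mem_nhdsWithin] with y hy
    have hy0 : (0 : ℝ) < y := hy
    rw [hn y hy0, Real.rpow_add hy0, Real.rpow_one]
    have : (1 + y ^ 2)⁻¹ ≤ 1 := inv_le_one_of_one_le₀ (by nlinarith [sq_nonneg y])
    exact mul_le_mul_of_nonneg_left (mul_le_of_le_one_right hy0.le this) (Real.rpow_nonneg hy0.le _)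
  have hi : Tendsto ((fun y : ℝ => (y : ℂ) ^ a) * fun y : ℝ => ((y * (1 + y ^ 2)⁻¹ : ℝ) : ℂ)) atTop (𝓝 0) := by
    rw [tendsto_zero_iff_norm_tendsto_zero]
    have h3 : Tendsto (fun y : ℝ => y ^ (-(1 - a.re))) atTop (𝓝 0) := tendsto_rpow_neg_atTop (by linarith)
    refine squeeze_zero' (Eventually.of_forall fun _ => norm_nonneg _) ?_ h3
    filter_upwards [eventually_gt_atTop 0] with y hy0
    rw [hn y hy0]
    have h4 : y * (1 + y ^ 2)⁻¹ ≤ y⁻¹ := by
      rw [← div_eq_mul_inv, ← one_div, div_le_div_iff₀ (by positivity) hy0]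
      nlinarith
    calc y ^ a.re * (y * (1 + y ^ 2)⁻¹) ≤ y ^ a.re * y⁻¹ := mul_le_mul_of_nonneg_left h4 (Real.rpow_nonneg hy0.le _)
      _ = y ^ (-(1 - a.re)) := by
        rw [← Real.rpow_neg_one, ← Real.rpow_add hy0]
        congr 1
        ring
  have key := integral_Ioi_mul_deriv_eq_deriv_mul hu hv hv1 hv2 hz hi
  rw [key, sub_zero, zero_sub]
  have e2 : ∫ y in Ioi (0 : ℝ), (a * (y : ℂ) ^ (a - 1)) * ((y * (1 + y ^ 2)⁻¹ : ℝ) : ℂ) =
      ∫ y in Ioi (0 : ℝ), a * ((y : ℂ) ^ a * (((1 + y ^ 2)⁻¹ : ℝ) : ℂ)) :=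
    setIntegral_congr_fun measurableSet_Ioi e1
  rw [e2, integral_const_mul, int_pow h0 h1]
  ring

end Pool.Agent.Q284.S
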