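import Mathlib
import Pool.Agent.Q284.S.Bt
import Pool.Agent.H144R3.Task469F
import Pool.Agent.H13R3.EM.Defs

/-!
# The boundary function and the Dirichlet series

Let `h(x) = ∑ α_n cos(u_n x)` with `h(x) = x^(2m) h(1/x)`.  Its Mellin transform, defined in the strip
`-2m < Re w < 0`, is `Γ(w) cos(π w / 2) ∑ α_n u_n^(-w)` (continued).
-/

set_option autoImplicit false

namespace Pool.Agent.Q284.S

open Filter Topology MeasureTheory Set Complex Asymptotics
open Pool.Agent.H853R3.Bol Pool.Agent.H469R10.HO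
open Pool.Agent.H144R3.T469F (psi psi_cont isBigO_top uu_pos le_uu summable_term)
open Pool.Agent.H13R3.EM (hb)

lemma uu_nonneg {c lam : ℝ} (hc : 0 < c) (n : ℕ) : 0 ≤ uu c lam n := by unfold uu; positivity

lemma hb_le {c lam : ℝ} {α : ℕ → ℝ} (hα : Summable fun n => |α n|) (x : ℝ) : |hb c lam α x| ≤ ∑' n, |α n| := by
  unfold hb
  rw [← Real.norm_eq_abs]
  refine tsum_of_norm_bounded hα.hasSum fun n => ?_
  rw [Real.norm_eq_abs, abs_mul]
  exact mul_le_of_le_one_right (abs_nonneg _) (Real.abs_cos_le_one _)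

lemma hb_cont {c lam : ℝ} {α : ℕ → ℝ} (hα : Summable fun n => |α n|) : Continuous (hb c lam α) := by
  unfold hb
  refine continuous_tsum (fun n => by fun_prop) hα (fun n x => ?_)
  rw [Real.norm_eq_abs, abs_mul]
  exact mul_le_of_le_one_right (abs_nonneg _) (Real.abs_cos_le_one _)

/-- the standing hypotheses -/
structure Bd (c lam : ℝ) (m : ℕ) (α : ℕ → ℝ) : Prop where
  hc : 0 < c
  hlam : 1 ≤ lam
  hm : 1 ≤ m
  hα : Summable fun n => |α n|
  hrel : ∀ x : ℝ, 0 < x → hb c lam α x = x ^ (2 * m) * hb c lam α x⁻¹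

section

variable {c lam : ℝ} {m : ℕ} {α : ℕ → ℝ}

lemma hb_small (h : Bd c lam m α) {x : ℝ} (hx : 0 < x) : |hb c lam α x| ≤ (∑' n, |α n|) * x ^ (2 * m) := by
  rw [h.hrel x hx, abs_mul, abs_of_pos (pow_pos hx _), mul_comm]
  exact mul_le_mul_of_nonneg_right (hb_le h.hα _) (pow_nonneg hx.le _)

lemma S_nonneg (α : ℕ → ℝ) : 0 ≤ ∑' n, |α n| := tsum_nonneg fun _ => abs_nonneg _

lemma hb_loc (h : Bd c lam m α) : LocallyIntegrableOn (fun x : ℝ => (hb c lam α x : ℂ)) (Ioi 0) :=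
  ((Complex.continuous_ofReal.comp (hb_cont h.hα)).continuousOn).locallyIntegrableOn measurableSet_Ioi

lemma hb_top (h : Bd c lam m α) : (fun x : ℝ => (hb c lam α x : ℂ)) =O[atTop] (· ^ (-(0 : ℝ)) : ℝ → ℝ) := by
  refine IsBigO.of_bound (∑' n, |α n|) (Eventually.of_forall fun x => ?_)
  rw [neg_zero, Real.rpow_zero, norm_one, mul_one, norm_real, Real.norm_eq_abs]
  exact hb_le h.hα x

lemma hb_bot (h : Bd c lam m α) :
    (fun x : ℝ => (hb c lam α x : ℂ)) =O[𝓝[>] 0] (· ^ (-(-(2 * m : ℝ))) : ℝ → ℝ) := by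
  refine IsBigO.of_bound (∑' n, |α n|) ?_
  filter_upwards [self_mem_nhdsWithin] with x hx
  have hx0 : (0 : ℝ) < x := hx
  rw [neg_neg, norm_real, Real.norm_eq_abs, Real.norm_of_nonneg (Real.rpow_nonneg hx0.le _)]
  have : x ^ (2 * m : ℝ) = x ^ (2 * m) := by
    rw [← Real.rpow_natCast]
    push_cast
    rfl
  rw [this]
  exact hb_small h hx0

lemma mel_conv (h : Bd c lam m α) {w : ℂ} (h0 : -(2 * m : ℝ) < w.re) (h1 : w.re < 0) :
    MellinConvergent (fun x : ℝ => (hb c lam α x : ℂ)) w :=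
  mellinConvergent_of_isBigO_rpow (hb_loc h) (hb_top h) h1 (hb_bot h) h0

lemma mel_diff (h : Bd c lam m α) {w : ℂ} (h0 : -(2 * m : ℝ) < w.re) (h1 : w.re < 0) :
    DifferentiableAt ℂ (mellin (fun x : ℝ => (hb c lam α x : ℂ))) w :=
  mellin_differentiableAt_of_isBigO_rpow (hb_loc h) (hb_top h) h1 (hb_bot h) h0

/-- the theta function of order one -/
lemma psi_eq (h : Bd c lam m α) {t : ℝ} (ht : 0 < t) : psi c lam (fun n => α n * uu c lam n) t =
    2 / Real.pi * (t⁻¹ * ∫ y in Ioi (0 : ℝ), hb c lam α (t * y) * K 1 1 y) := by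
  have h1 := theta_eq t ht 1 le_rfl α (uu c lam) h.hα (uu_nonneg h.hc)
  unfold psi
  simp only [pow_one] at h1
  rw [h1, Nat.factorial_one, Nat.cast_one, mul_one]
  congr 1
  have h2 := integral_comp_mul_left_Ioi (fun x : ℝ => hb c lam α x * K 1 t x) 0 ht
  rw [mul_zero] at h2
  have h3 : ∫ x in Ioi (0 : ℝ), (∑' j, α j * Real.cos (uu c lam j * x)) * K 1 t x =
      t * ∫ y in Ioi (0 : ℝ), hb c lam α (t * y) * K 1 t (t * y) := by
    rw [h2, smul_eq_mul, mul_inv_cancel_left₀ ht.ne']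
    rfl
  rw [h3, ← integral_const_mul, ← integral_const_mul]
  refine setIntegral_congr_fun measurableSet_Ioi fun y _ => ?_
  rw [K_one t _ ht, K_one 1 y one_pos]
  have : t ^ 2 + (t * y) ^ 2 = t ^ 2 * (1 + y ^ 2) := by ring
  rw [this]
  have : (1 : ℝ) + y ^ 2 ≠ 0 := by positivity
  field_simp

lemma K_meas : Measurable (K 1 1) := by
  unfold K
  fun_prop

/-- the Mellin convolution -/
lemma mel_psi (h : Bd c lam m α) {w : ℂ} (h0 : -1 < w.re) (h1 : w.re < 0) :
    mellin (fun t : ℝ => ((psi c lam (fun n => α n * uu c lam n) t : ℝ) : ℂ)) (w + 1) =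
      2 / Real.pi * ((w * ((Real.pi / 2) / Complex.cos (Real.pi * w / 2))) *
        mellin (fun x : ℝ => (hb c lam α x : ℂ)) w) := by
  have hmR : (1 : ℝ) ≤ m := by exact_mod_cast h.hm
  have hconv := mel_conv h (w := w) (by linarith) h1
  have hk := kap_int (a := -w) (by simp; linarith) (by simp; linarith)
  have hke := kap_eq (a := -w) (by simp; linarith) (by simp; linarith)
  have hmeas : Measurable (Function.uncurry fun (t y : ℝ) =>
      ((t : ℂ) ^ (w - 1) * ((hb c lam α (y * t) : ℝ) : ℂ)) * ((K 1 1 y : ℝ) : ℂ)) := by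
    refine Measurable.mul (Measurable.mul ?_ ?_) ?_
    · exact (Complex.measurable_ofReal.comp measurable_fst).pow_const _
    · exact Complex.measurable_ofReal.comp ((hb_cont h.hα).measurable.comp (measurable_snd.mul measurable_fst))
    · exact Complex.measurable_ofReal.comp (K_meas.comp measurable_snd)
  have hin : ∀ y : ℝ, 0 < y → Integrable (fun t : ℝ => ((t : ℂ) ^ (w - 1) * ((hb c lam α (y * t) : ℝ) : ℂ)) *
      ((K 1 1 y : ℝ) : ℂ)) (volume.restrict (Ioi 0)) := by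
    intro y hy
    have := (MellinConvergent.comp_mul_left (f := fun x : ℝ => (hb c lam α x : ℂ)) (s := w) hy).2 hconv
    unfold MellinConvergent at this
    simp only [smul_eq_mul] at this
    exact Integrable.mul_const this _
  have hN : ∀ y : ℝ, 0 < y → ∫ t in Ioi (0 : ℝ), ‖((t : ℂ) ^ (w - 1) * ((hb c lam α (y * t) : ℝ) : ℂ)) *
      ((K 1 1 y : ℝ) : ℂ)‖ = (∫ t in Ioi (0 : ℝ), t ^ (w.re - 1) * |hb c lam α t|) *
        ‖(y : ℂ) ^ (-w) * ((K 1 1 y : ℝ) : ℂ)‖ := by
    intro y hy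
    have h2 := integral_comp_mul_left_Ioi (fun x : ℝ => x ^ (w.re - 1) * |hb c lam α x|) 0 hy
    rw [mul_zero] at h2
    have h3 : ∫ t in Ioi (0 : ℝ), ‖((t : ℂ) ^ (w - 1) * ((hb c lam α (y * t) : ℝ) : ℂ)) *
        ((K 1 1 y : ℝ) : ℂ)‖ = ∫ t in Ioi (0 : ℝ), (y ^ (1 - w.re) * |K 1 1 y|) *
          ((y * t) ^ (w.re - 1) * |hb c lam α (y * t)|) := by
      refine setIntegral_congr_fun measurableSet_Ioi fun t ht => ?_
      have ht0 : (0 : ℝ) < t := ht
      rw [norm_mul, norm_mul, norm_cpow_eq_rpow_re_of_pos ht0, norm_real, norm_real, Real.norm_eq_abs,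
        Real.norm_eq_abs, sub_re, one_re, Real.mul_rpow hy.le ht0.le]
      have : y ^ (1 - w.re) * y ^ (w.re - 1) = 1 := by
        rw [← Real.rpow_add hy]
        norm_num
      calc t ^ (w.re - 1) * |hb c lam α (y * t)| * |K 1 1 y| =
          (y ^ (1 - w.re) * y ^ (w.re - 1)) * (t ^ (w.re - 1) * |hb c lam α (y * t)| * |K 1 1 y|) := by
            rw [this, one_mul]
        _ = _ := by ring
    rw [h3, integral_const_mul, h2, smul_eq_mul, norm_mul, norm_cpow_eq_rpow_re_of_pos hy, norm_real,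
      Real.norm_eq_abs, neg_re]
    have : y ^ (1 - w.re) * y⁻¹ = y ^ (-w.re) := by
      rw [← Real.rpow_neg_one, ← Real.rpow_add hy]
      congr 1
      ring
    calc y ^ (1 - w.re) * |K 1 1 y| * (y⁻¹ * ∫ x in Ioi (0 : ℝ), x ^ (w.re - 1) * |hb c lam α x|) =
        (y ^ (1 - w.re) * y⁻¹) * |K 1 1 y| * ∫ x in Ioi (0 : ℝ), x ^ (w.re - 1) * |hb c lam α x| := by ring
      _ = _ := by rw [this]; ring
  have hI : Integrable (Function.uncurry fun (t y : ℝ) =>
      ((t : ℂ) ^ (w - 1) * ((hb c lam α (y * t) : ℝ) : ℂ)) * ((K 1 1 y : ℝ) : ℂ))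
      ((volume.restrict (Ioi 0)).prod (volume.restrict (Ioi 0))) := by
    rw [integrable_prod_iff' hmeas.aestronglyMeasurable]
    constructor
    · rw [ae_restrict_iff' measurableSet_Ioi]
      exact Eventually.of_forall fun y hy => hin y hy
    · refine IntegrableOn.congr_fun (hk.norm.const_mul (∫ t in Ioi (0 : ℝ), t ^ (w.re - 1) * |hb c lam α t|))
        (fun y hy => (hN y hy).symm) measurableSet_Ioi
  have hsw := integral_integral_swap (f := fun (t y : ℝ) =>
      ((t : ℂ) ^ (w - 1) * ((hb c lam α (y * t) : ℝ) : ℂ)) * ((K 1 1 y : ℝ) : ℂ)) hI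
  have e1 : mellin (fun t : ℝ => ((psi c lam (fun n => α n * uu c lam n) t : ℝ) : ℂ)) (w + 1) =
      2 / Real.pi * ∫ t in Ioi (0 : ℝ), ∫ y in Ioi (0 : ℝ),
        ((t : ℂ) ^ (w - 1) * ((hb c lam α (y * t) : ℝ) : ℂ)) * ((K 1 1 y : ℝ) : ℂ) := by
    unfold mellin
    rw [← integral_const_mul]
    refine setIntegral_congr_fun measurableSet_Ioi fun t ht => ?_
    have ht0 : (0 : ℝ) < t := ht
    have htc : (t : ℂ) ≠ 0 := by exact_mod_cast ht0.ne'
    simp only
    rw [psi_eq h ht0]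
    have e2 : ∫ y in Ioi (0 : ℝ), ((t : ℂ) ^ (w - 1) * ((hb c lam α (y * t) : ℝ) : ℂ)) * ((K 1 1 y : ℝ) : ℂ) =
        (t : ℂ) ^ (w - 1) * ((∫ y in Ioi (0 : ℝ), hb c lam α (t * y) * K 1 1 y : ℝ) : ℂ) := by
      rw [← integral_complex_ofReal, ← integral_const_mul]
      refine setIntegral_congr_fun measurableSet_Ioi fun y _ => ?_
      rw [mul_comm y t]
      push_cast
      ring
    rw [e2, smul_eq_mul, add_sub_cancel_right]
    have e3 : (t : ℂ) ^ (w - 1) = (t : ℂ) ^ w * ((t⁻¹ : ℝ) : ℂ) := by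
      rw [cpow_sub _ _ htc, cpow_one, div_eq_mul_inv]
      push_cast
      rfl
    rw [e3]
    push_cast
    ring
  rw [e1, hsw]
  congr 1
  have e4 : ∫ y in Ioi (0 : ℝ), ∫ t in Ioi (0 : ℝ),
        ((t : ℂ) ^ (w - 1) * ((hb c lam α (y * t) : ℝ) : ℂ)) * ((K 1 1 y : ℝ) : ℂ) =
      ∫ y in Ioi (0 : ℝ), ((y : ℂ) ^ (-w) * ((K 1 1 y : ℝ) : ℂ)) *
        mellin (fun x : ℝ => (hb c lam α x : ℂ)) w := by
    refine setIntegral_congr_fun measurableSet_Ioi fun y hy => ?_
    have hy0 : (0 : ℝ) < y := hy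
    rw [integral_mul_const]
    have h5 := mellin_comp_mul_left (fun x : ℝ => (hb c lam α x : ℂ)) w hy0
    have h6 : ∫ t in Ioi (0 : ℝ), (t : ℂ) ^ (w - 1) * ((hb c lam α (y * t) : ℝ) : ℂ) =
        mellin (fun t : ℝ => ((hb c lam α (y * t) : ℝ) : ℂ)) w := by
      unfold mellin
      simp only [smul_eq_mul]
    rw [h6, h5, smul_eq_mul]
    ring
  rw [e4, integral_mul_const, hke]
  have h7 : Complex.cos (Real.pi * -w / 2) = Complex.cos (Real.pi * w / 2) := by
    rw [← Complex.cos_neg]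
    congr 1
    ring
  rw [h7]
  ring

/-- the theta function of order one is bounded -/
lemma psi_bdd (h : Bd c lam m α) : ∃ C : ℝ, 0 ≤ C ∧ ∀ t : ℝ, 0 < t →
    |psi c lam (fun n => α n * uu c lam n) t| ≤ C := by
  obtain ⟨S, hS⟩ : ∃ S : ℝ, S = ∑' n, |α n| := ⟨_, rfl⟩
  have hS0 : 0 ≤ S := by rw [hS]; exact S_nonneg α
  have hpi := Real.pi_pos
  refine ⟨2 / Real.pi * (S * 2 * (Real.pi / 2)), by positivity, fun t ht => ?_⟩
  have h1 := theta_eq t ht 1 le_rfl α (uu c lam) h.hα (uu_nonneg h.hc)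
  unfold psi
  simp only [pow_one] at h1
  rw [h1, Nat.factorial_one, Nat.cast_one, mul_one, abs_mul, abs_of_nonneg (by positivity)]
  refine mul_le_mul_of_nonneg_left ?_ (by positivity)
  rw [← Real.norm_eq_abs]
  have hgi : Integrable (fun x : ℝ => S * 2 * (1 + x ^ 2)⁻¹) (volume.restrict (Ioi 0)) :=
    (integrable_inv_one_add_sq.integrableOn).const_mul _
  have hgv : ∫ x in Ioi (0 : ℝ), S * 2 * (1 + x ^ 2)⁻¹ = S * 2 * (Real.pi / 2) := by
    rw [integral_const_mul, integral_Ioi_inv_one_add_sq]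
    simp
  rw [← hgv]
  refine norm_integral_le_of_norm_le hgi ?_
  rw [ae_restrict_iff' measurableSet_Ioi]
  refine Eventually.of_forall fun x hx => ?_
  have hx0 : (0 : ℝ) < x := hx
  change ‖hb c lam α x * K 1 t x‖ ≤ _
  rw [norm_mul, Real.norm_eq_abs, Real.norm_eq_abs]
  have hK2 : |K 1 t x| ≤ 1 / x ^ 2 := by
    refine (K_one_le t x ht).trans ?_
    gcongr
    nlinarith [sq_nonneg t]
  rcases le_total x 1 with h1 | h1
  · have e1 : x ^ (2 * m) ≤ x ^ 2 := pow_le_pow_of_le_one hx0.le h1 (by have := h.hm; omega)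
    have e2 : (1 : ℝ) ≤ 2 * (1 + x ^ 2)⁻¹ := by
      rw [← div_eq_mul_inv, le_div_iff₀ (by positivity)]
      nlinarith
    have e3 := hb_small h hx0
    rw [← hS] at e3
    calc |hb c lam α x| * |K 1 t x| ≤ (S * x ^ (2 * m)) * (1 / x ^ 2) :=
          mul_le_mul e3 hK2 (abs_nonneg _) (by positivity)
      _ ≤ (S * x ^ 2) * (1 / x ^ 2) := by gcongr
      _ = S * 1 := by field_simp
      _ ≤ S * (2 * (1 + x ^ 2)⁻¹) := by gcongr
      _ = _ := by ring
  · have e2 : 1 / x ^ 2 ≤ 2 * (1 + x ^ 2)⁻¹ := by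
      rw [← div_eq_mul_inv, div_le_div_iff₀ (by positivity) (by positivity)]
      nlinarith
    have e3 := hb_le (c := c) (lam := lam) h.hα x
    rw [← hS] at e3
    calc |hb c lam α x| * |K 1 t x| ≤ S * (1 / x ^ 2) := mul_le_mul e3 hK2 (abs_nonneg _) hS0
      _ ≤ S * (2 * (1 + x ^ 2)⁻¹) := by gcongr
      _ = _ := by ring

/-- the theta function of order one and the Dirichlet series -/
lemma psi_G (h : Bd c lam m α) {G : ℂ → ℂ} (hG : Differentiable ℂ G) {R : ℝ}
    (hs : ∀ z : ℂ, R < z.re → HasSum (fun n : ℕ => if n = 0 then 0 else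
      ((α n : ℝ) : ℂ) * ((uu c lam n : ℝ) : ℂ) ^ (-z)) (G z)) {z : ℂ} (hz : 0 < z.re) :
    mellin (fun t : ℝ => ((psi c lam (fun n => α n * uu c lam n) t : ℝ) : ℂ)) z * (Gamma z)⁻¹ = G (z - 1) := by
  have hc := h.hc
  have hlam := h.hlam
  have hu0 : uu c lam 0 = 0 := by
    unfold uu
    rw [Nat.cast_zero, Real.zero_rpow (by positivity), mul_zero]
  obtain ⟨A, hAd⟩ : ∃ A : ℕ → ℝ, A = fun n => α n * uu c lam n := ⟨_, rfl⟩
  have hA0 : A 0 = 0 := by
    rw [hAd]
    simp only [hu0, mul_zero]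
  have hS : Summable (fun n => |A n| * (uu c lam n) ^ (-((2 : ℝ) - 1))) := by
    refine Summable.of_nonneg_of_le (fun n => mul_nonneg (abs_nonneg _) (Real.rpow_nonneg (uu_nonneg hc n) _))
      (fun n => ?_) h.hα
    rcases eq_or_ne n 0 with rfl | hn
    · rw [hA0]; simp
    · have hu := uu_pos (lam := lam) hc hn
      rw [hAd]
      simp only
      rw [abs_mul, abs_of_pos hu, mul_assoc]
      nth_rw 1 [← Real.rpow_one (uu c lam n)]
      rw [← Real.rpow_add hu]
      have : (1 : ℝ) + -((2 : ℝ) - 1) = 0 := by ring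
      rw [this, Real.rpow_zero, mul_one]
  have hκ : (1 : ℝ) < 2 := by norm_num
  obtain ⟨C, hC0, hC⟩ := psi_bdd h
  rw [← hAd] at hC
  have hbot : (fun t : ℝ => (psi c lam A t : ℂ)) =O[𝓝[>] 0] (· ^ (-(0 : ℝ)) : ℝ → ℝ) := by
    refine IsBigO.of_bound C ?_
    filter_upwards [self_mem_nhdsWithin] with t ht
    have ht0 : (0 : ℝ) < t := ht
    rw [norm_real, Real.norm_eq_abs, neg_zero, Real.rpow_zero, norm_one, mul_one]
    exact hC t ht0
  have htop : ∀ r : ℝ, (fun t : ℝ => (psi c lam A t : ℂ)) =O[atTop] (· ^ r : ℝ → ℝ) := by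
    intro r
    have := isBigO_top hc hlam hκ hA0 hS r
    simpa using this
  have hint : LocallyIntegrableOn (fun t : ℝ => (psi c lam A t : ℂ)) (Ioi 0) := by
    refine ContinuousOn.locallyIntegrableOn ?_ measurableSet_Ioi
    exact Complex.continuous_ofReal.comp_continuousOn (psi_cont hc hlam (by linarith) hA0 hS)
  obtain ⟨H, hH⟩ : ∃ H : ℂ → ℂ, H = fun z => mellin (fun t : ℝ => (psi c lam A t : ℂ)) z * (Gamma z)⁻¹ := ⟨_, rfl⟩
  have hHd : ∀ z : ℂ, 0 < z.re → DifferentiableAt ℂ H z := by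
    intro z hz
    rw [hH]
    refine DifferentiableAt.mul ?_ ?_
    · exact mellin_differentiableAt_of_isBigO_rpow (a := z.re + 1) hint (htop _) (by linarith) hbot hz
    · have := Complex.differentiable_one_div_Gamma z
      simpa [one_div] using this
  have hHs : ∀ z : ℂ, 2 < z.re → HasSum (fun n : ℕ => if n = 0 then 0 else
      ((A n : ℝ) : ℂ) * ((uu c lam n : ℝ) : ℂ) ^ (-z)) (H z) := by
    intro z hz
    have hz0 : 0 < z.re := by linarith
    have h1 : HasSum (fun n : ℕ => Gamma z * (A n : ℂ) / ((uu c lam n : ℝ) : ℂ) ^ z)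
        (mellin (fun t : ℝ => (psi c lam A t : ℂ)) z) := by
      refine hasSum_mellin (a := fun n => (A n : ℂ)) (p := fun n => uu c lam n) ?_ hz0 ?_ ?_
      · intro n
        rcases eq_or_ne n 0 with rfl | hn
        · left; simp [hA0]
        · right; exact uu_pos hc hn
      · intro t ht
        have h2 := (summable_term hc hlam (by linarith : (0 : ℝ) < 2 - 1) hA0 hS ht).hasSum
        have h3 := Complex.hasSum_ofReal.2 h2
        have h4 : (fun n : ℕ => (A n : ℂ) * ((Real.exp (-(uu c lam n) * t) : ℝ) : ℂ)) =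
            (fun n : ℕ => ((A n * Real.exp (-(uu c lam n * t)) : ℝ) : ℂ)) := by
          funext n
          rw [Complex.ofReal_mul, neg_mul]
        rw [h4]
        exact h3
      · have h5 : ∀ n : ℕ, ‖(A n : ℂ)‖ / (uu c lam n) ^ z.re ≤
            c ^ (-(z.re - ((2 : ℝ) - 1))) * (|A n| * (uu c lam n) ^ (-((2 : ℝ) - 1))) := by
          intro n
          rcases eq_or_ne n 0 with rfl | hn
          · simp [hA0]
          · have hu := uu_pos (lam := lam) hc hn
            have hcu := le_uu hc hlam hn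
            rw [Complex.norm_real, Real.norm_eq_abs, div_eq_mul_inv, ← Real.rpow_neg hu.le]
            have e1 : (uu c lam n) ^ (-z.re) = (uu c lam n) ^ (-(z.re - ((2 : ℝ) - 1))) *
                (uu c lam n) ^ (-((2 : ℝ) - 1)) := by
              rw [← Real.rpow_add hu]; congr 1; ring
            have e2 : (uu c lam n) ^ (-(z.re - ((2 : ℝ) - 1))) ≤ c ^ (-(z.re - ((2 : ℝ) - 1))) :=
              Real.rpow_le_rpow_of_nonpos hc hcu (by linarith)
            rw [e1]
            have e3 : 0 ≤ (uu c lam n) ^ (-((2 : ℝ) - 1)) := Real.rpow_nonneg hu.le _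
            calc |A n| * ((uu c lam n) ^ (-(z.re - ((2 : ℝ) - 1))) * (uu c lam n) ^ (-((2 : ℝ) - 1)))
                = (uu c lam n) ^ (-(z.re - ((2 : ℝ) - 1))) *
                  (|A n| * (uu c lam n) ^ (-((2 : ℝ) - 1))) := by ring
              _ ≤ _ := mul_le_mul_of_nonneg_right e2 (by positivity)
        refine Summable.of_nonneg_of_le (fun n => ?_) h5 (hS.mul_left _)
        exact div_nonneg (norm_nonneg _) (Real.rpow_nonneg (uu_nonneg hc n) _)
    have hG : Gamma z ≠ 0 := Gamma_ne_zero_of_re_pos hz0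
    have h2 := h1.mul_right (Gamma z)⁻¹
    rw [hH]
    refine h2.congr_fun fun n => ?_
    rcases eq_or_ne n 0 with rfl | hn
    · rw [if_pos rfl, hA0]; simp
    · rw [if_neg hn, cpow_neg]
      field_simp
  -- comparison
  obtain ⟨G1, hG1⟩ : ∃ G1 : ℂ → ℂ, G1 = fun z => G (z - 1) := ⟨_, rfl⟩
  have hGd : Differentiable ℂ G1 := by
    rw [hG1]
    exact hG.comp (by fun_prop)
  have hEq : ∀ z : ℂ, max (R + 1) 2 < z.re → G1 z = H z := by
    intro z hz
    have h1 : R < (z - 1).re := by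
      rw [sub_re, one_re]
      have := (le_max_left _ _).trans_lt hz
      linarith
    have h2 := hs _ h1
    have h3 := hHs z ((le_max_right _ _).trans_lt hz)
    rw [hG1]
    refine h2.unique (h3.congr_fun fun n => ?_)
    rcases eq_or_ne n 0 with rfl | hn
    · simp
    · rw [if_neg hn, if_neg hn]
      have hu := uu_pos (lam := lam) hc hn
      have huc : ((uu c lam n : ℝ) : ℂ) ≠ 0 := by exact_mod_cast hu.ne'
      rw [hAd]
      push_cast
      rw [mul_assoc]
      congr 1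
      nth_rw 2 [← cpow_one ((uu c lam n : ℝ) : ℂ)]
      rw [← cpow_add _ _ huc]
      congr 1
      ring
  have hU : IsPreconnected {z : ℂ | 0 < z.re} := (convex_halfSpace_re_gt 0).isPreconnected
  have ho : IsOpen {z : ℂ | 0 < z.re} := isOpen_lt continuous_const Complex.continuous_re
  have a1 : AnalyticOnNhd ℂ G1 {z : ℂ | 0 < z.re} := fun z _ => hGd.analyticAt z
  have a2 : AnalyticOnNhd ℂ H {z : ℂ | 0 < z.re} :=
    (DifferentiableOn.analyticOnNhd (fun z hz => (hHd z hz).differentiableWithinAt) ho)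
  obtain ⟨T, hT⟩ : ∃ T : ℝ, T = max (R + 1) 2 := ⟨_, rfl⟩
  have hT0 : 0 < T := by
    rw [hT]
    exact lt_of_lt_of_le (by positivity) (le_max_right _ _)
  have h3 : G1 =ᶠ[𝓝 ((T + 1 : ℝ) : ℂ)] H := by
    have ho2 : IsOpen {z : ℂ | T < z.re} := isOpen_lt continuous_const Complex.continuous_re
    have hm2 : ((T + 1 : ℝ) : ℂ) ∈ {z : ℂ | T < z.re} := by
      change T < ((T + 1 : ℝ) : ℂ).re
      rw [ofReal_re]
      linarith
    filter_upwards [ho2.mem_nhds hm2] with z hz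
    exact hEq z (by rw [← hT]; exact hz)
  have h4 := a1.eqOn_of_preconnected_of_eventuallyEq a2 hU (z₀ := ((T + 1 : ℝ) : ℂ)) (by
    change (0 : ℝ) < ((T + 1 : ℝ) : ℂ).re
    rw [ofReal_re]
    linarith) h3
  have h5 : G1 z = H z := h4 hz
  rw [hG1, hH] at h5
  rw [← hAd]
  exact h5.symm

/-- **the connecting formula** -/
theorem connect (h : Bd c lam m α) {G : ℂ → ℂ} (hG : Differentiable ℂ G) {R : ℝ}
    (hs : ∀ z : ℂ, R < z.re → HasSum (fun n : ℕ => if n = 0 then 0 else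
      ((α n : ℝ) : ℂ) * ((uu c lam n : ℝ) : ℂ) ^ (-z)) (G z)) {w : ℂ} (h0 : -(2 * m : ℝ) < w.re) (h1 : w.re < 0) :
    mellin (fun x : ℝ => (hb c lam α x : ℂ)) w * (Gamma w)⁻¹ = Complex.cos (Real.pi * w / 2) * G w := by
  have hmR : (1 : ℝ) ≤ m := by exact_mod_cast h.hm
  -- the narrow strip
  have hnar : ∀ z : ℂ, -1 < z.re → z.re < 0 →
      mellin (fun x : ℝ => (hb c lam α x : ℂ)) z * (Gamma z)⁻¹ = Complex.cos (Real.pi * z / 2) * G z := by
    intro z hz0 hz1
    have hzne : z ≠ 0 := by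
      rintro rfl
      simp at hz1
    have e1 := psi_G h hG hs (z := z + 1) (by simp; linarith)
    rw [mel_psi h hz0 hz1, add_sub_cancel_right, Complex.Gamma_add_one z hzne] at e1
    have hcos : Complex.cos (Real.pi * z / 2) ≠ 0 := by
      intro h2
      rw [Complex.cos_eq_zero_iff] at h2
      obtain ⟨k, hk⟩ := h2
      have hpi : (Real.pi : ℂ) ≠ 0 := by exact_mod_cast Real.pi_ne_zero
      have h3 : z = 2 * k + 1 := by
        have h5 : (Real.pi : ℂ) * z = Real.pi * (2 * k + 1) := by linear_combination 2 * hk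
        exact mul_left_cancel₀ hpi h5
      rw [h3] at hz0 hz1
      have e2 : (2 * (k : ℂ) + 1).re = 2 * (k : ℝ) + 1 := by simp
      rw [e2] at hz0 hz1
      have h6 : ((2 * k + 1 : ℤ) : ℝ) < 0 := by push_cast; exact hz1
      have h7 : ((-1 : ℤ) : ℝ) < ((2 * k + 1 : ℤ) : ℝ) := by push_cast; exact hz0
      have h8 : (2 * k + 1 : ℤ) < 0 := by exact_mod_cast h6
      have h9 : (-1 : ℤ) < (2 * k + 1 : ℤ) := by exact_mod_cast h7
      omega
    have hΓ : Gamma z ≠ 0 := by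
      apply Complex.Gamma_ne_zero
      intro k hk
      rw [hk] at hz0 hz1
      have e2 : (-(k : ℂ)).re = -(k : ℝ) := by simp
      rw [e2] at hz0 hz1
      have h6 : (k : ℝ) < 1 := by linarith
      have h7 : (0 : ℝ) < k := by linarith
      have h8 : k < 1 := by exact_mod_cast h6
      have h9 : 0 < k := by exact_mod_cast h7
      omega
    rw [← e1]
    have hpi : (Real.pi : ℂ) ≠ 0 := by exact_mod_cast Real.pi_ne_zero
    field_simp
  -- identity theorem
  obtain ⟨U, hUd⟩ : ∃ U : Set ℂ, U = {z : ℂ | -(2 * m : ℝ) < z.re} ∩ {z : ℂ | z.re < 0} := ⟨_, rfl⟩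
  have hUo : IsOpen U := by
    rw [hUd]
    exact (isOpen_lt continuous_const Complex.continuous_re).inter (isOpen_lt Complex.continuous_re continuous_const)
  have hUp : IsPreconnected U := by
    rw [hUd]
    exact ((convex_halfSpace_re_gt _).inter (convex_halfSpace_re_lt _)).isPreconnected
  have hm1 : ((-(1 / 2) : ℝ) : ℂ) ∈ U := by
    rw [hUd]
    constructor
    · change -(2 * m : ℝ) < ((-(1 / 2) : ℝ) : ℂ).re
      rw [ofReal_re]
      linarith
    · change ((-(1 / 2) : ℝ) : ℂ).re < 0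
      rw [ofReal_re]
      norm_num
  have a1 : AnalyticOnNhd ℂ (fun z => mellin (fun x : ℝ => (hb c lam α x : ℂ)) z * (Gamma z)⁻¹) U := by
    refine DifferentiableOn.analyticOnNhd (fun z hz => ?_) hUo
    rw [hUd] at hz
    refine DifferentiableAt.differentiableWithinAt (DifferentiableAt.mul (mel_diff h hz.1 hz.2) ?_)
    have := Complex.differentiable_one_div_Gamma z
    simpa [one_div] using this
  have a2 : AnalyticOnNhd ℂ (fun z => Complex.cos (Real.pi * z / 2) * G z) U := by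
    intro z _
    refine Differentiable.analyticAt (Differentiable.mul ?_ hG) z
    fun_prop
  have h3 : (fun z => mellin (fun x : ℝ => (hb c lam α x : ℂ)) z * (Gamma z)⁻¹) =ᶠ[𝓝 ((-(1 / 2) : ℝ) : ℂ)]
      (fun z => Complex.cos (Real.pi * z / 2) * G z) := by
    have ho2 : IsOpen ({z : ℂ | -1 < z.re} ∩ {z : ℂ | z.re < 0}) :=
      (isOpen_lt continuous_const Complex.continuous_re).inter (isOpen_lt Complex.continuous_re continuous_const)
    have hm2 : ((-(1 / 2) : ℝ) : ℂ) ∈ ({z : ℂ | -1 < z.re} ∩ {z : ℂ | z.re < 0}) := by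
      constructor
      · change -1 < ((-(1 / 2) : ℝ) : ℂ).re
        rw [ofReal_re]
        norm_num
      · change ((-(1 / 2) : ℝ) : ℂ).re < 0
        rw [ofReal_re]
        norm_num
    filter_upwards [ho2.mem_nhds hm2] with z hz
    exact hnar z hz.1 hz.2
  have h4 := a1.eqOn_of_preconnected_of_eventuallyEq a2 hUp hm1 h3
  exact h4 (by rw [hUd]; exact ⟨h0, h1⟩)

end

end Pool.Agent.Q284.S
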