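import Mathlib

/-!
# The Fourier transform of `|v|^(3/2)` against a Gaussian
-/

set_option autoImplicit false

namespace Pool.Agent.Q284.S

open Filter Topology MeasureTheory Set

/-- Gaussian cosine integral -/
lemma gcos {b : ℝ} (hb : 0 < b) (Y : ℝ) : ∫ v : ℝ, Real.exp (-(b * v ^ 2)) * Real.cos (Y * v) =
    Real.sqrt (Real.pi / b) * Real.exp (-(Y ^ 2 / (4 * b))) := by
  have h1 := fourierIntegral_gaussian (b := (b : ℂ)) (by simpa using hb) (Y : ℂ)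
  have h2 : (fun x : ℝ => Complex.exp (Complex.I * Y * x) * Complex.exp (-b * x ^ 2)) =
      fun x : ℝ => ((Real.exp (-(b * x ^ 2)) : ℝ) : ℂ) * Complex.exp ((Y * x : ℝ) * Complex.I) := by
    funext x
    push_cast
    rw [mul_comm]
    congr 2 <;> ring
  rw [h2] at h1
  have hint : Integrable fun x : ℝ => ((Real.exp (-(b * x ^ 2)) : ℝ) : ℂ) * Complex.exp ((Y * x : ℝ) * Complex.I) := by
    have h3 : Integrable fun x : ℝ => ((Real.exp (-b * x ^ 2) : ℝ) : ℂ) := (integrable_exp_neg_mul_sq hb).ofReal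
    have h4 := h3.bdd_mul (c := 1) (f := fun x : ℝ => Complex.exp ((Y * x : ℝ) * Complex.I))
      (by apply Continuous.aestronglyMeasurable; fun_prop)
      (Eventually.of_forall fun x => by rw [Complex.norm_exp_ofReal_mul_I])
    refine h4.congr (Eventually.of_forall fun x => ?_)
    simp only
    rw [mul_comm, neg_mul]
  have h5 := congrArg Complex.re h1
  rw [← RCLike.re_eq_complex_re, ← integral_re hint] at h5
  simp only [RCLike.re_eq_complex_re, Complex.re_ofReal_mul, Complex.exp_ofReal_mul_I_re] at h5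
  rw [h5]
  have h6 : ((Real.pi : ℂ) / b) ^ (1 / 2 : ℂ) = ((Real.sqrt (Real.pi / b) : ℝ) : ℂ) := by
    rw [Real.sqrt_eq_rpow, Complex.ofReal_cpow (by positivity)]
    push_cast
    rfl
  have h7 : Complex.exp (-(Y : ℂ) ^ 2 / (4 * b)) = ((Real.exp (-(Y ^ 2 / (4 * b))) : ℝ) : ℂ) := by
    push_cast
    congr 1
    ring
  rw [h6, h7, ← Complex.ofReal_mul, Complex.ofReal_re]

/-- the weight -/
noncomputable def w0 (s : ℝ) : ℝ := (1 - Real.exp (-s)) * s ^ (-(7 / 4) : ℝ)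

lemma w0_nonneg {s : ℝ} (hs : 0 < s) : 0 ≤ w0 s := by
  unfold w0
  have : Real.exp (-s) ≤ 1 := Real.exp_le_one_iff.2 (by linarith)
  exact mul_nonneg (by linarith) (Real.rpow_nonneg hs.le _)

lemma w0_meas : Measurable w0 := by
  unfold w0
  fun_prop

lemma w0_int : IntegrableOn w0 (Ioi 0) := by
  rw [← Ioc_union_Ioi_eq_Ioi zero_le_one]
  refine IntegrableOn.union ?_ ?_
  · have h2 : IntegrableOn (fun y : ℝ => y ^ (-(3 / 4) : ℝ)) (Ioc 0 1) :=
      (intervalIntegrable_iff_integrableOn_Ioc_of_le zero_le_one).1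
        (intervalIntegral.intervalIntegrable_rpow' (by norm_num))
    refine Integrable.mono' h2 w0_meas.aestronglyMeasurable ?_
    rw [ae_restrict_iff' measurableSet_Ioc]
    refine Eventually.of_forall fun s hs => ?_
    rw [Real.norm_of_nonneg (w0_nonneg hs.1)]
    unfold w0
    have h3 : 1 - Real.exp (-s) ≤ s := by linarith [Real.add_one_le_exp (-s)]
    calc (1 - Real.exp (-s)) * s ^ (-(7 / 4) : ℝ) ≤ s * s ^ (-(7 / 4) : ℝ) :=
          mul_le_mul_of_nonneg_right h3 (Real.rpow_nonneg hs.1.le _)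
      _ = s ^ (-(3 / 4) : ℝ) := by
          nth_rw 1 [← Real.rpow_one s]
          rw [← Real.rpow_add hs.1]
          norm_num
  · have h2 : IntegrableOn (fun y : ℝ => y ^ (-(7 / 4) : ℝ)) (Ioi 1) :=
      integrableOn_Ioi_rpow_of_lt (by norm_num) one_pos
    refine Integrable.mono' h2 w0_meas.aestronglyMeasurable ?_
    rw [ae_restrict_iff' measurableSet_Ioi]
    refine Eventually.of_forall fun s hs => ?_
    have hs0 : (0 : ℝ) < s := lt_trans one_pos hs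
    rw [Real.norm_of_nonneg (w0_nonneg hs0)]
    unfold w0
    exact mul_le_of_le_one_left (Real.rpow_nonneg hs0.le _) (by linarith [Real.exp_pos (-s)])

noncomputable def C1 : ℝ := ∫ s in Ioi (0 : ℝ), w0 s

lemma C1_pos : 0 < C1 := by
  unfold C1
  rw [setIntegral_pos_iff_support_of_nonneg_ae]
  · have : Ioi (0 : ℝ) ⊆ Function.support w0 ∩ Ioi 0 := by
      intro s hs
      refine ⟨?_, hs⟩
      have hs0 : (0 : ℝ) < s := hs
      rw [Function.mem_support]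
      unfold w0
      have : Real.exp (-s) < 1 := by rw [Real.exp_lt_one_iff]; linarith
      exact (mul_pos (by linarith) (Real.rpow_pos_of_pos hs0 _)).ne'
    refine lt_of_lt_of_le ?_ (measure_mono this)
    simp
  · rw [EventuallyLE, ae_restrict_iff' measurableSet_Ioi]
    exact Eventually.of_forall fun s hs => w0_nonneg hs
  · exact w0_int

lemma scale {v : ℝ} (hv : v ≠ 0) (s : ℝ) (hs : 0 < s) : (1 - Real.exp (-(s * v ^ 2))) * s ^ (-(7 / 4) : ℝ) =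
    (v ^ 2) ^ (7 / 4 : ℝ) * w0 (v ^ 2 * s) := by
  have hv2 : 0 < v ^ 2 := by positivity
  unfold w0
  rw [Real.mul_rpow hv2.le hs.le, Real.rpow_neg hv2.le]
  have : (v ^ 2) ^ (7 / 4 : ℝ) ≠ 0 := (Real.rpow_pos_of_pos hv2 _).ne'
  rw [mul_comm s (v ^ 2)]
  field_simp

lemma rep_int (v : ℝ) : IntegrableOn (fun s : ℝ => (1 - Real.exp (-(s * v ^ 2))) * s ^ (-(7 / 4) : ℝ)) (Ioi 0) := by
  rcases eq_or_ne v 0 with rfl | hv
  · simp
  have hv2 : 0 < v ^ 2 := by positivity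
  have h1 : IntegrableOn (fun s : ℝ => w0 (v ^ 2 * s)) (Ioi 0) := by
    rw [integrableOn_Ioi_comp_mul_left_iff w0 0 hv2, mul_zero]
    exact w0_int
  exact IntegrableOn.congr_fun (h1.const_mul ((v ^ 2) ^ (7 / 4 : ℝ))) (fun s hs => (scale hv s hs).symm)
    measurableSet_Ioi

/-- `|v|^(3/2)` as a mixture of Gaussians -/
lemma rep (v : ℝ) : ∫ s in Ioi (0 : ℝ), (1 - Real.exp (-(s * v ^ 2))) * s ^ (-(7 / 4) : ℝ) =
    |v| ^ (3 / 2 : ℝ) * C1 := by
  rcases eq_or_ne v 0 with rfl | hv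
  · simp [Real.zero_rpow (by norm_num : (3 / 2 : ℝ) ≠ 0)]
  have hv2 : 0 < v ^ 2 := by positivity
  have h1 : ∫ s in Ioi (0 : ℝ), (1 - Real.exp (-(s * v ^ 2))) * s ^ (-(7 / 4) : ℝ) =
      ∫ s in Ioi (0 : ℝ), (v ^ 2) ^ (7 / 4 : ℝ) * w0 (v ^ 2 * s) :=
    setIntegral_congr_fun measurableSet_Ioi fun s hs => scale hv s hs
  have h2 := integral_comp_mul_left_Ioi w0 0 hv2
  rw [mul_zero] at h2
  rw [h1, integral_const_mul, h2, smul_eq_mul]
  unfold C1
  rw [← mul_assoc]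
  congr 1
  have h3 : v ^ 2 = |v| ^ (2 : ℝ) := by rw [Real.rpow_two, sq_abs]
  have hv0 : 0 < |v| := abs_pos.2 hv
  rw [h3, ← Real.rpow_mul hv0.le, ← Real.rpow_neg_one, ← Real.rpow_mul hv0.le, ← Real.rpow_add hv0]
  norm_num

/-- the comparison function -/
noncomputable def fg (L Y s : ℝ) : ℝ := Real.sqrt (Real.pi / (L + s)) * Real.exp (-(Y ^ 2 / (4 * (L + s))))

lemma fg_nonneg (L Y s : ℝ) : 0 ≤ fg L Y s := by unfold fg; positivity

lemma abs_pow_le (v : ℝ) : |v| ^ (3 / 2 : ℝ) ≤ 1 + v ^ 2 := by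
  rcases le_total |v| 1 with h | h
  · have := Real.rpow_le_one (abs_nonneg v) h (by norm_num : (0 : ℝ) ≤ 3 / 2)
    nlinarith [sq_nonneg v]
  · have h1 : |v| ^ (3 / 2 : ℝ) ≤ |v| ^ (2 : ℝ) := Real.rpow_le_rpow_of_exponent_le h (by norm_num)
    rw [Real.rpow_two, sq_abs] at h1
    linarith

lemma gi {L : ℝ} (hL : 0 < L) : Integrable (fun v : ℝ => |v| ^ (3 / 2 : ℝ) * Real.exp (-(L * v ^ 2))) := by
  have h1 := integrable_exp_neg_mul_sq hL
  have h2 := integrable_rpow_mul_exp_neg_mul_sq hL (s := 2) (by norm_num)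
  refine (h1.add h2).mono' (by fun_prop) (Eventually.of_forall fun v => ?_)
  rw [Real.norm_of_nonneg (by positivity)]
  simp only [Pi.add_apply, Real.rpow_two]
  have h3 := abs_pow_le v
  rw [neg_mul]
  nlinarith [Real.exp_pos (-(L * v ^ 2))]

/-- Fubini -/
lemma gauss_eq {L : ℝ} (hL : 0 < L) (Y : ℝ) :
    IntegrableOn (fun s : ℝ => s ^ (-(7 / 4) : ℝ) * (fg L Y 0 - fg L Y s)) (Ioi 0) ∧
    C1 * ∫ v : ℝ, |v| ^ (3 / 2 : ℝ) * Real.exp (-(L * v ^ 2)) * Real.cos (Y * v) =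
      ∫ s in Ioi (0 : ℝ), s ^ (-(7 / 4) : ℝ) * (fg L Y 0 - fg L Y s) := by
  obtain ⟨F, hF⟩ : ∃ F : ℝ → ℝ → ℝ, F = fun v s => ((1 - Real.exp (-(s * v ^ 2))) * s ^ (-(7 / 4) : ℝ)) *
      (Real.exp (-(L * v ^ 2)) * Real.cos (Y * v)) := ⟨_, rfl⟩
  have hmeas : Measurable (Function.uncurry F) := by
    rw [hF]
    refine Measurable.mul (Measurable.mul ?_ ?_) ?_
    · fun_prop
    · exact measurable_snd.pow_const _
    · fun_prop
  have hnn : ∀ v s : ℝ, 0 < s → 0 ≤ (1 - Real.exp (-(s * v ^ 2))) * s ^ (-(7 / 4) : ℝ) := by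
    intro v s hs
    have : Real.exp (-(s * v ^ 2)) ≤ 1 := Real.exp_le_one_iff.2 (by nlinarith [sq_nonneg v])
    exact mul_nonneg (by linarith) (Real.rpow_nonneg hs.le _)
  have hN : ∀ v : ℝ, ∫ s in Ioi (0 : ℝ), ‖F v s‖ = |v| ^ (3 / 2 : ℝ) * Real.exp (-(L * v ^ 2)) *
      (C1 * |Real.cos (Y * v)|) := by
    intro v
    have h1 : ∫ s in Ioi (0 : ℝ), ‖F v s‖ = ∫ s in Ioi (0 : ℝ), ((1 - Real.exp (-(s * v ^ 2))) * s ^ (-(7 / 4) : ℝ)) *
        (Real.exp (-(L * v ^ 2)) * |Real.cos (Y * v)|) := by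
      refine setIntegral_congr_fun measurableSet_Ioi fun s hs => ?_
      simp only [hF]
      rw [norm_mul, Real.norm_of_nonneg (hnn v s hs), norm_mul, Real.norm_of_nonneg (Real.exp_pos _).le,
        Real.norm_eq_abs]
    rw [h1, integral_mul_const, rep]
    ring
  have hI : Integrable (Function.uncurry F) (volume.prod (volume.restrict (Ioi 0))) := by
    rw [integrable_prod_iff hmeas.aestronglyMeasurable]
    constructor
    · refine Eventually.of_forall fun v => ?_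
      rw [hF]
      exact Integrable.mul_const (rep_int v) (Real.exp (-(L * v ^ 2)) * Real.cos (Y * v))
    · have h2 : (fun v : ℝ => ∫ s in Ioi (0 : ℝ), ‖Function.uncurry F (v, s)‖) =
          fun v : ℝ => |v| ^ (3 / 2 : ℝ) * Real.exp (-(L * v ^ 2)) * (C1 * |Real.cos (Y * v)|) := by
        funext v
        exact hN v
      rw [h2]
      refine ((gi hL).mul_const C1).mono' (by fun_prop) (Eventually.of_forall fun v => ?_)
      have hC := C1_pos
      rw [Real.norm_of_nonneg (by positivity), ← mul_assoc]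
      exact mul_le_of_le_one_right (by positivity) (Real.abs_cos_le_one _)
  have hin : ∀ s : ℝ, 0 < s → ∫ v : ℝ, F v s = s ^ (-(7 / 4) : ℝ) * (fg L Y 0 - fg L Y s) := by
    intro s hs
    have h1 := gcos hL Y
    have h2 := gcos (b := L + s) (by linarith) Y
    have i1 : ∀ b : ℝ, 0 < b → Integrable fun v : ℝ => Real.exp (-(b * v ^ 2)) * Real.cos (Y * v) := by
      intro b hb
      have h3 := integrable_exp_neg_mul_sq hb
      refine h3.mono' (by fun_prop) (Eventually.of_forall fun v => ?_)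
      rw [norm_mul, Real.norm_of_nonneg (Real.exp_pos _).le, Real.norm_eq_abs, neg_mul]
      exact mul_le_of_le_one_right (Real.exp_pos _).le (Real.abs_cos_le_one _)
    have h4 : (fun v : ℝ => F v s) = fun v : ℝ => s ^ (-(7 / 4) : ℝ) * (Real.exp (-(L * v ^ 2)) * Real.cos (Y * v) -
        Real.exp (-((L + s) * v ^ 2)) * Real.cos (Y * v)) := by
      funext v
      simp only [hF]
      have : Real.exp (-((L + s) * v ^ 2)) = Real.exp (-(s * v ^ 2)) * Real.exp (-(L * v ^ 2)) := by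
        rw [← Real.exp_add]
        congr 1
        ring
      rw [this]
      ring
    rw [h4, integral_const_mul, integral_sub (i1 L hL) (i1 (L + s) (by linarith)), h1, h2]
    unfold fg
    rw [add_zero]
  constructor
  · have h3 := hI.integral_prod_right
    exact IntegrableOn.congr_fun h3 (fun s hs => hin s hs) measurableSet_Ioi
  · have hsw := integral_integral_swap hI
    rw [← integral_const_mul]
    have h4 : (fun v : ℝ => C1 * (|v| ^ (3 / 2 : ℝ) * Real.exp (-(L * v ^ 2)) * Real.cos (Y * v))) =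
        fun v : ℝ => ∫ s in Ioi (0 : ℝ), F v s := by
      funext v
      simp only [hF]
      rw [integral_mul_const, rep]
      ring
    rw [h4, hsw]
    exact setIntegral_congr_fun measurableSet_Ioi fun s hs => hin s hs

/-- the comparison function increases up to `Y²/4` -/
lemma fg_mono {L Y s : ℝ} (hL : 0 < L) (hs : 0 ≤ s) (hY : 4 * L ≤ Y ^ 2) (hsY : s ≤ Y ^ 2 / 4) :
    fg L Y 0 ≤ fg L Y s := by
  have hLs : 0 < L + s := by linarith
  have hsq : ∀ r : ℝ, 0 < L + r → fg L Y r ^ 2 = Real.pi / (L + r) * Real.exp (-(Y ^ 2 / (2 * (L + r)))) := by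
    intro r hr
    unfold fg
    have hpi := Real.pi_pos
    rw [mul_pow, Real.sq_sqrt (by positivity), ← Real.exp_nat_mul]
    congr 2
    push_cast
    field_simp
    ring
  refine le_of_sq_le_sq ?_ (fg_nonneg L Y s)
  rw [hsq 0 (by linarith), hsq s hLs, add_zero]
  have h1 : Real.exp (-(Y ^ 2 / (2 * (L + s)))) = Real.exp (-(Y ^ 2 / (2 * L))) *
      Real.exp (Y ^ 2 * s / (2 * L * (L + s))) := by
    rw [← Real.exp_add]
    congr 1
    field_simp
    ring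
  rw [h1]
  have h2 : (L + s) / L ≤ Real.exp (Y ^ 2 * s / (2 * L * (L + s))) := by
    refine le_trans ?_ (Real.add_one_le_exp _)
    have h3 : s / L ≤ Y ^ 2 * s / (2 * L * (L + s)) := by
      rw [div_le_div_iff₀ hL (by positivity)]
      nlinarith [mul_nonneg (mul_nonneg hs hL.le) (by linarith : 0 ≤ Y ^ 2 - 2 * (L + s))]
    have h4 : (L + s) / L = 1 + s / L := by field_simp
    rw [h4]
    linarith
  have hpi := Real.pi_pos
  have he := Real.exp_pos (-(Y ^ 2 / (2 * L)))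
  calc Real.pi / L * Real.exp (-(Y ^ 2 / (2 * L))) =
      (Real.pi / (L + s) * Real.exp (-(Y ^ 2 / (2 * L)))) * ((L + s) / L) := by field_simp
    _ ≤ (Real.pi / (L + s) * Real.exp (-(Y ^ 2 / (2 * L)))) * Real.exp (Y ^ 2 * s / (2 * L * (L + s))) :=
        mul_le_mul_of_nonneg_left h2 (by positivity)
    _ = _ := by ring

/-- size of the comparison function near `Y²` -/
lemma fg_low {L Y s : ℝ} (hL : 0 < L) (hY0 : 0 < Y) (hY : 4 * L ≤ Y ^ 2) (hs1 : Y ^ 2 / 8 ≤ s) (hs2 : s ≤ Y ^ 2 / 4) :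
    Real.exp (-2) * Y⁻¹ ≤ fg L Y s := by
  unfold fg
  have hLs : 0 < L + s := by nlinarith
  have hpi := Real.pi_gt_three
  have h1 : Y⁻¹ ≤ Real.sqrt (Real.pi / (L + s)) := by
    apply Real.le_sqrt_of_sq_le
    rw [inv_pow, ← one_div, div_le_div_iff₀ (by positivity) hLs]
    nlinarith
  have h2 : Real.exp (-2) ≤ Real.exp (-(Y ^ 2 / (4 * (L + s)))) := by
    apply Real.exp_le_exp.2
    have : Y ^ 2 / (4 * (L + s)) ≤ 2 := by
      rw [div_le_iff₀ (by positivity)]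
      nlinarith
    linarith
  rw [mul_comm]
  exact mul_le_mul h1 h2 (Real.exp_pos _).le (Real.sqrt_nonneg _)

/-- **the Gaussian transform of `|v|^(3/2)` is of size `Y^(-5/2)`** -/
theorem gauss_low : ∃ c C : ℝ, 0 < c ∧ 0 < C ∧ ∀ L Y : ℝ, 1 ≤ L → 1 ≤ Y → 4 * L ≤ Y ^ 2 →
    ∫ v : ℝ, |v| ^ (3 / 2 : ℝ) * Real.exp (-(L * v ^ 2)) * Real.cos (Y * v) ≤
      -(c * Y ^ (-(5 / 2) : ℝ)) + C * Real.exp (-(Y ^ 2 / (4 * L))) := by
  have hC1 := C1_pos
  refine ⟨(1 / 4 : ℝ) ^ (-(7 / 4) : ℝ) * (1 / 8) * Real.exp (-2) / C1, (4 / 3 * (1 / 8 : ℝ) ^ (-(3 / 4) : ℝ)) * 2 / C1,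
    by positivity, by positivity, fun L Y hL hY1 hY => ?_⟩
  have hL0 : 0 < L := by linarith
  have hY0 : 0 < Y := by linarith
  obtain ⟨hint, heq⟩ := gauss_eq hL0 Y
  have hT : 0 < Y ^ 2 / 8 := by positivity
  obtain ⟨f0, hf0⟩ : ∃ f0 : ℝ, f0 = fg L Y 0 := ⟨_, rfl⟩
  have hf00 : 0 ≤ f0 := by rw [hf0]; exact fg_nonneg _ _ _
  obtain ⟨b, hb⟩ : ∃ b : ℝ, b = Real.exp (-2) * Y⁻¹ := ⟨_, rfl⟩
  have hb0 : 0 ≤ b := by rw [hb]; positivity
  -- the majorant
  have i1 : IntegrableOn (fun s : ℝ => (Ioi (Y ^ 2 / 8)).indicator (fun s => s ^ (-(7 / 4) : ℝ) * f0) s) (Ioi 0) := by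
    rw [IntegrableOn, integrable_indicator_iff measurableSet_Ioi, IntegrableOn,
      Measure.restrict_restrict measurableSet_Ioi, Ioi_inter_Ioi, max_eq_left hT.le]
    exact (integrableOn_Ioi_rpow_of_lt (by norm_num) hT).mul_const _
  have i2 : IntegrableOn (fun s : ℝ => (Ioc (Y ^ 2 / 8) (Y ^ 2 / 4)).indicator
      (fun _ => (Y ^ 2 / 4) ^ (-(7 / 4) : ℝ) * b) s) (Ioi 0) := by
    rw [IntegrableOn, integrable_indicator_iff measurableSet_Ioc, IntegrableOn,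
      Measure.restrict_restrict measurableSet_Ioc]
    refine integrableOn_const ?_ ?_
    · refine ne_of_lt (lt_of_le_of_lt (measure_mono inter_subset_left) ?_)
      rw [Real.volume_Ioc]
      exact ENNReal.ofReal_lt_top
    · exact enorm_ne_top
  have hle : ∫ s in Ioi (0 : ℝ), s ^ (-(7 / 4) : ℝ) * (fg L Y 0 - fg L Y s) ≤
      ∫ s in Ioi (0 : ℝ), ((Ioi (Y ^ 2 / 8)).indicator (fun s => s ^ (-(7 / 4) : ℝ) * f0) s -
        (Ioc (Y ^ 2 / 8) (Y ^ 2 / 4)).indicator (fun _ => (Y ^ 2 / 4) ^ (-(7 / 4) : ℝ) * b) s) := by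
    refine setIntegral_mono_on hint (i1.sub i2) measurableSet_Ioi fun s hs => ?_
    have hs0 : (0 : ℝ) < s := hs
    have hsp : 0 ≤ s ^ (-(7 / 4) : ℝ) := Real.rpow_nonneg hs0.le _
    rw [← hf0]
    rcases le_or_gt s (Y ^ 2 / 8) with h1 | h1
    · rw [indicator_of_notMem (by simpa using h1), indicator_of_notMem (by
        rw [mem_Ioc, not_and_or]; left; linarith), sub_zero]
      have h2 := fg_mono hL0 hs0.le hY (by linarith : s ≤ Y ^ 2 / 4)
      rw [← hf0] at h2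
      exact mul_nonpos_of_nonneg_of_nonpos hsp (by linarith)
    · rw [indicator_of_mem (show s ∈ Ioi (Y ^ 2 / 8) from h1)]
      rcases le_or_gt s (Y ^ 2 / 4) with h3 | h3
      · rw [indicator_of_mem (show s ∈ Ioc (Y ^ 2 / 8) (Y ^ 2 / 4) from ⟨h1, h3⟩)]
        have h4 := fg_low hL0 hY0 hY h1.le h3
        rw [← hb] at h4
        have h5 : (Y ^ 2 / 4) ^ (-(7 / 4) : ℝ) ≤ s ^ (-(7 / 4) : ℝ) :=
          Real.rpow_le_rpow_of_nonpos hs0 h3 (by norm_num)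
        have h6 : (Y ^ 2 / 4) ^ (-(7 / 4) : ℝ) * b ≤ s ^ (-(7 / 4) : ℝ) * fg L Y s :=
          mul_le_mul h5 h4 hb0 hsp
        rw [mul_sub]
        linarith
      · rw [indicator_of_notMem (by rw [mem_Ioc, not_and_or]; right; linarith), sub_zero]
        exact mul_le_mul_of_nonneg_left (by linarith [fg_nonneg L Y s]) hsp
  have hv1 : ∫ s in Ioi (0 : ℝ), (Ioi (Y ^ 2 / 8)).indicator (fun s => s ^ (-(7 / 4) : ℝ) * f0) s =
      4 / 3 * (Y ^ 2 / 8) ^ (-(3 / 4) : ℝ) * f0 := by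
    rw [integral_indicator measurableSet_Ioi, Measure.restrict_restrict measurableSet_Ioi, Ioi_inter_Ioi,
      max_eq_left hT.le, integral_mul_const, integral_Ioi_rpow_of_lt (by norm_num) hT]
    have : (-(7 / 4) + 1 : ℝ) = -(3 / 4) := by norm_num
    rw [this]
    ring
  have hv2 : ∫ s in Ioi (0 : ℝ), (Ioc (Y ^ 2 / 8) (Y ^ 2 / 4)).indicator
      (fun _ => (Y ^ 2 / 4) ^ (-(7 / 4) : ℝ) * b) s = (Y ^ 2 / 8) * ((Y ^ 2 / 4) ^ (-(7 / 4) : ℝ) * b) := by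
    rw [integral_indicator measurableSet_Ioc, Measure.restrict_restrict measurableSet_Ioc, integral_const,
      measureReal_restrict_apply_univ]
    have h1 : Ioc (Y ^ 2 / 8) (Y ^ 2 / 4) ∩ Ioi 0 = Ioc (Y ^ 2 / 8) (Y ^ 2 / 4) :=
      inter_eq_left.2 fun s hs => lt_trans hT hs.1
    rw [h1, Real.volume_real_Ioc_of_le (by linarith), smul_eq_mul]
    ring
  rw [integral_sub i1 i2, hv1, hv2] at hle
  rw [← heq] at hle
  -- powers
  have p1 : (Y ^ 2 / 8) ^ (-(3 / 4) : ℝ) = (1 / 8 : ℝ) ^ (-(3 / 4) : ℝ) * Y ^ (-(3 / 2) : ℝ) := by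
    rw [show Y ^ 2 / 8 = 1 / 8 * Y ^ (2 : ℝ) by rw [Real.rpow_two]; ring,
      Real.mul_rpow (by norm_num) (by positivity), ← Real.rpow_mul hY0.le]
    norm_num
  have p2 : (Y ^ 2 / 8) * ((Y ^ 2 / 4) ^ (-(7 / 4) : ℝ) * b) =
      ((1 / 4 : ℝ) ^ (-(7 / 4) : ℝ) * (1 / 8) * Real.exp (-2)) * Y ^ (-(5 / 2) : ℝ) := by
    rw [show Y ^ 2 / 4 = 1 / 4 * Y ^ (2 : ℝ) by rw [Real.rpow_two]; ring,
      Real.mul_rpow (by norm_num) (by positivity), ← Real.rpow_mul hY0.le, hb]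
    have h1 : Y ^ (-(5 / 2) : ℝ) = Y ^ 2 * Y ^ (2 * -(7 / 4) : ℝ) * Y⁻¹ := by
      rw [← Real.rpow_two, ← Real.rpow_neg_one, ← Real.rpow_add hY0, ← Real.rpow_add hY0]
      norm_num
    rw [h1]
    ring
  have p3 : f0 ≤ 2 * Real.exp (-(Y ^ 2 / (4 * L))) := by
    rw [hf0]
    unfold fg
    rw [add_zero]
    refine mul_le_mul_of_nonneg_right ?_ (Real.exp_pos _).le
    rw [Real.sqrt_le_left (by norm_num)]
    rw [div_le_iff₀ hL0]
    nlinarith [Real.pi_le_four]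
  have p4 : Y ^ (-(3 / 2) : ℝ) ≤ 1 := Real.rpow_le_one_of_one_le_of_nonpos hY1 (by norm_num)
  rw [p1, p2] at hle
  have p5 : 4 / 3 * ((1 / 8 : ℝ) ^ (-(3 / 4) : ℝ) * Y ^ (-(3 / 2) : ℝ)) * f0 ≤
      (4 / 3 * (1 / 8 : ℝ) ^ (-(3 / 4) : ℝ)) * 2 * Real.exp (-(Y ^ 2 / (4 * L))) := by
    have h8 : (0 : ℝ) ≤ (1 / 8 : ℝ) ^ (-(3 / 4) : ℝ) := by positivity
    have h9 : 0 ≤ Y ^ (-(3 / 2) : ℝ) := by positivity
    calc 4 / 3 * ((1 / 8 : ℝ) ^ (-(3 / 4) : ℝ) * Y ^ (-(3 / 2) : ℝ)) * f0 =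
        (4 / 3 * (1 / 8 : ℝ) ^ (-(3 / 4) : ℝ)) * (Y ^ (-(3 / 2) : ℝ) * f0) := by ring
      _ ≤ (4 / 3 * (1 / 8 : ℝ) ^ (-(3 / 4) : ℝ)) * (1 * (2 * Real.exp (-(Y ^ 2 / (4 * L))))) := by gcongr
      _ = _ := by ring
  have h9 : C1 * ∫ v : ℝ, |v| ^ (3 / 2 : ℝ) * Real.exp (-(L * v ^ 2)) * Real.cos (Y * v) ≤
      C1 * (-((1 / 4 : ℝ) ^ (-(7 / 4) : ℝ) * (1 / 8) * Real.exp (-2) / C1 * Y ^ (-(5 / 2) : ℝ)) +
        (4 / 3 * (1 / 8 : ℝ) ^ (-(3 / 4) : ℝ)) * 2 / C1 * Real.exp (-(Y ^ 2 / (4 * L)))) := by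
    have e1 : C1 * (-((1 / 4 : ℝ) ^ (-(7 / 4) : ℝ) * (1 / 8) * Real.exp (-2) / C1 * Y ^ (-(5 / 2) : ℝ)) +
        (4 / 3 * (1 / 8 : ℝ) ^ (-(3 / 4) : ℝ)) * 2 / C1 * Real.exp (-(Y ^ 2 / (4 * L)))) =
        -(((1 / 4 : ℝ) ^ (-(7 / 4) : ℝ) * (1 / 8) * Real.exp (-2)) * Y ^ (-(5 / 2) : ℝ)) +
        (4 / 3 * (1 / 8 : ℝ) ^ (-(3 / 4) : ℝ)) * 2 * Real.exp (-(Y ^ 2 / (4 * L))) := by
      field_simp
    rw [e1]
    linarith
  exact le_of_mul_le_mul_left h9 hC1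

end Pool.Agent.Q284.S
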