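import Mathlib
import Pool.Agent.Q284.S.Cnx
import Pool.Agent.Q284.S.Gs
import Pool.Agent.H13R3.EM.Wrap

/-!
# Local mass of the Mellin transform
-/

set_option autoImplicit false

namespace Pool.Agent.Q284.S

open Filter Topology MeasureTheory Set Complex
open Pool.Agent.H469R10.HO
open Pool.Agent.H13R3.EM (hb rs gs gs_neg psi_one)

section

variable {c lam A : ℝ} {m : ℕ} {α : ℕ → ℝ}

/-- the boundary function in logarithmic coordinates -/
noncomputable def gg (c lam : ℝ) (m : ℕ) (α : ℕ → ℝ) (u : ℝ) : ℝ := Real.exp (m * u) * hb c lam α (Real.exp (-u))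

lemma gg_cont (h : Bd c lam m α) : Continuous (gg c lam m α) := by
  unfold gg
  exact (by fun_prop : Continuous fun u : ℝ => Real.exp (m * u)).mul ((hb_cont h.hα).comp (by fun_prop))

lemma gg_le (h : Bd c lam m α) (u : ℝ) : |gg c lam m α u| ≤ (∑' n, |α n|) * Real.exp (-(m * |u|)) := by
  unfold gg
  rw [abs_mul, abs_of_pos (Real.exp_pos _)]
  have hm : (0 : ℝ) ≤ m := Nat.cast_nonneg m
  rcases le_total 0 u with hu | hu
  · have h1 := hb_small h (Real.exp_pos (-u))
    rw [abs_of_nonneg hu]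
    calc Real.exp (m * u) * |hb c lam α (Real.exp (-u))| ≤
        Real.exp (m * u) * ((∑' n, |α n|) * Real.exp (-u) ^ (2 * m)) :=
          mul_le_mul_of_nonneg_left h1 (Real.exp_pos _).le
      _ = (∑' n, |α n|) * (Real.exp (m * u) * Real.exp (-u) ^ (2 * m)) := by ring
      _ = _ := by
          rw [← Real.exp_nat_mul, ← Real.exp_add]
          congr 2
          push_cast
          ring
  · have h1 := hb_le (c := c) (lam := lam) h.hα (Real.exp (-u))
    rw [abs_of_nonpos hu]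
    calc Real.exp (m * u) * |hb c lam α (Real.exp (-u))| ≤ Real.exp (m * u) * (∑' n, |α n|) :=
          mul_le_mul_of_nonneg_left h1 (Real.exp_pos _).le
      _ = _ := by
          rw [mul_comm]
          congr 2
          ring

lemma gg_le' (h : Bd c lam m α) (u : ℝ) : |gg c lam m α u| ≤ ∑' n, |α n| := by
  refine (gg_le h u).trans (mul_le_of_le_one_right (S_nonneg α) (Real.exp_le_one_iff.2 ?_))
  have hm : (0 : ℝ) ≤ m := Nat.cast_nonneg m
  have := mul_nonneg hm (abs_nonneg u)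
  linarith

lemma gg_eq (hr : ∀ x : ℝ, 3 / 4 ≤ x → x ≤ 4 / 3 → hb c lam α x = rs m A x) {u : ℝ} (hu : |u| ≤ 1 / 10) :
    gg c lam m α u = A * |u| ^ (3 / 2 : ℝ) := by
  rw [abs_le] at hu
  have h1 : (3 : ℝ) / 4 ≤ Real.exp (-u) := by
    have := Real.add_one_le_exp (-u)
    linarith
  have h2 : Real.exp (-u) ≤ 4 / 3 := by
    have h3 := Real.add_one_le_exp u
    rw [Real.exp_neg]
    have h4 : (3 : ℝ) / 4 ≤ Real.exp u := by linarith
    calc (Real.exp u)⁻¹ ≤ ((3 : ℝ) / 4)⁻¹ := inv_anti₀ (by norm_num) h4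
      _ = 4 / 3 := by norm_num
  unfold gg
  rw [hr _ h1 h2]
  unfold rs
  rw [Real.log_exp, gs_neg]
  unfold gs
  rw [psi_one (abs_le.2 hu), one_mul, Real.norm_eq_abs]
  have h5 : Real.exp (m * u) * Real.exp (-u) ^ m = 1 := by
    rw [← Real.exp_nat_mul, ← Real.exp_add]
    have : (m : ℝ) * u + m * -u = 0 := by ring
    rw [this, Real.exp_zero]
  calc Real.exp (m * u) * (A * (Real.exp (-u) ^ m * |u| ^ (3 / 2 : ℝ))) =
      (Real.exp (m * u) * Real.exp (-u) ^ m) * (A * |u| ^ (3 / 2 : ℝ)) := by ring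
    _ = _ := by rw [h5, one_mul]

lemma int_exp_abs {a : ℝ} (ha : 0 < a) : Integrable (fun y : ℝ => Real.exp (-(a * |y|))) := by
  have hpos : IntegrableOn (fun y : ℝ => Real.exp (-(a * |y|))) (Ioi 0) := by
    refine (exp_neg_integrableOn_Ioi 0 ha).congr_fun ?_ measurableSet_Ioi
    intro y hy
    simp only
    rw [abs_of_pos hy]
    congr 1
    ring
  have hneg : IntegrableOn (fun y : ℝ => Real.exp (-(a * |y|))) (Iic 0) := by
    rw [← Measure.map_neg_eq_self (volume : Measure ℝ)]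
    let m : MeasurableEmbedding fun x : ℝ => -x := (Homeomorph.neg ℝ).measurableEmbedding
    rw [m.integrableOn_map_iff]
    simp_rw [Function.comp_def, abs_neg, neg_preimage, neg_Iic, neg_zero]
    exact Iff.mpr integrableOn_Ici_iff_integrableOn_Ioi hpos
  rw [← integrableOn_univ, ← Iic_union_Ioi]
  exact hneg.union hpos

/-- the shifted function is integrable -/
lemma gg_int (h : Bd c lam m α) {η : ℝ} (hη : |η| < m) :
    Integrable (fun u : ℝ => gg c lam m α u * Real.exp (-(η * u))) := by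
  have h1 := int_exp_abs (a := m - |η|) (by linarith)
  refine (h1.const_mul (∑' n, |α n|)).mono' ?_ (Eventually.of_forall fun u => ?_)
  · exact ((gg_cont h).mul (by fun_prop)).aestronglyMeasurable
  · rw [norm_mul, Real.norm_eq_abs, Real.norm_of_nonneg (Real.exp_pos _).le]
    have h2 := gg_le h u
    have h3 : -(η * u) ≤ |η| * |u| := by rw [← abs_mul]; exact neg_le_abs _
    calc |gg c lam m α u| * Real.exp (-(η * u)) ≤
        ((∑' n, |α n|) * Real.exp (-(m * |u|))) * Real.exp (|η| * |u|) :=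
          mul_le_mul h2 (Real.exp_le_exp.2 h3) (Real.exp_pos _).le
            (mul_nonneg (S_nonneg α) (Real.exp_pos _).le)
      _ = _ := by
          rw [mul_assoc, ← Real.exp_add]
          congr 2
          ring

/-- the Mellin transform on the line of abscissa `-(m - η)` -/
noncomputable def Mm (c lam : ℝ) (m : ℕ) (α : ℕ → ℝ) (η y : ℝ) : ℂ :=
  mellin (fun x : ℝ => (hb c lam α x : ℂ)) (((-(m - η) : ℝ) : ℂ) + y * I)

lemma mel_line (η y : ℝ) : Mm c lam m α η y =
    ∫ u : ℝ, ((gg c lam m α u * Real.exp (-(η * u)) : ℝ) : ℂ) * Complex.exp (-(y * u) * I) := by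
  unfold Mm
  rw [mellin_eq_fourier, Real.fourier_real_eq_integral_exp_smul]
  congr 1
  funext u
  have h1 : (((-(m - η) : ℝ) : ℂ) + y * I).re = -(m - η) := by simp
  have h2 : (((-(m - η) : ℝ) : ℂ) + y * I).im = y := by simp
  rw [h1, h2, smul_eq_mul, Complex.real_smul]
  have h3 : Complex.exp (((-2 * Real.pi * u * (y / (2 * Real.pi)) : ℝ) : ℂ) * I) = Complex.exp (-(y * u) * I) := by
    congr 2
    have : (-2 * Real.pi * u * (y / (2 * Real.pi)) : ℝ) = -(y * u) := by
      have := Real.pi_ne_zero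
      field_simp
    rw [this]
    push_cast
    ring
  rw [h3]
  unfold gg
  have h4 : Real.exp (-(-(m - η)) * u) = Real.exp (m * u) * Real.exp (-(η * u)) := by
    rw [← Real.exp_add]
    congr 1
    ring
  rw [h4]
  push_cast
  ring

lemma Mm_cont (h : Bd c lam m α) {η : ℝ} (hη : |η| < m) : Continuous (Mm c lam m α η) := by
  rw [continuous_iff_continuousAt]
  intro y
  rw [abs_lt] at hη
  have h1 : (((-(m - η) : ℝ) : ℂ) + y * I).re = -(m - η) := by simp
  have h2 := (mel_diff h (w := ((-(m - η) : ℝ) : ℂ) + y * I) (by rw [h1]; linarith) (by rw [h1]; linarith)).continuousAt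
  unfold Mm
  exact ContinuousAt.comp (f := fun y : ℝ => ((-(m - η) : ℝ) : ℂ) + y * I) h2 (by fun_prop)

lemma Mm_le (η : ℝ) : ∃ B : ℝ, 0 < B ∧ ∀ y : ℝ, ‖Mm c lam m α η y‖ ≤ B := by
  refine ⟨(∫ u : ℝ, |gg c lam m α u * Real.exp (-(η * u))|) + 1, ?_, fun y => ?_⟩
  · have : 0 ≤ ∫ u : ℝ, |gg c lam m α u * Real.exp (-(η * u))| := integral_nonneg fun u => abs_nonneg _
    linarith
  · rw [mel_line]
    refine (norm_integral_le_integral_norm _).trans ?_
    have : ∀ u : ℝ, ‖((gg c lam m α u * Real.exp (-(η * u)) : ℝ) : ℂ) * Complex.exp (-(y * u) * I)‖ =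
        |gg c lam m α u * Real.exp (-(η * u))| := by
      intro u
      have e1 : Complex.exp (-(y * u) * I) = Complex.exp (((-(y * u) : ℝ) : ℂ) * I) := by push_cast; rfl
      rw [norm_mul, norm_real, e1, Complex.norm_exp_ofReal_mul_I, mul_one, Real.norm_eq_abs]
    simp_rw [this]
    linarith

/-- the Gaussian test of the Mellin transform -/
lemma mel_gauss (h : Bd c lam m α) {η : ℝ} (hη : |η| < m) {L : ℝ} (hL : 0 < L) (Y : ℝ) :
    ∫ y : ℝ, Mm c lam m α η y * Complex.exp (-(1 / (4 * L) : ℝ) * ((y - Y) - η * I) ^ 2) =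
      ((Real.sqrt (4 * Real.pi * L) : ℝ) : ℂ) *
        ∫ u : ℝ, ((gg c lam m α u * Real.exp (-(L * u ^ 2)) : ℝ) : ℂ) * Complex.exp (-(Y * u) * I) := by
  obtain ⟨b, hb'⟩ : ∃ b : ℝ, b = 1 / (4 * L) := ⟨_, rfl⟩
  have hb0 : 0 < b := by rw [hb']; positivity
  have hbL : b * (4 * L) = 1 := by rw [hb']; field_simp
  rw [← hb']
  obtain ⟨κ, hκ⟩ : ∃ κ : ℝ → ℂ, κ = fun y : ℝ => Complex.exp (-(b : ℂ) * ((y - Y) - η * I) ^ 2) := ⟨_, rfl⟩
  have hκf : κ = fun y : ℝ => Complex.exp (-(b : ℂ) * y ^ 2 + (2 * b * (Y + η * I)) * y + (-(b : ℂ) * (Y + η * I) ^ 2)) := by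
    rw [hκ]
    funext y
    congr 1
    ring
  have hκi : Integrable κ := by
    rw [hκf]
    exact integrable_cexp_quadratic (by simpa using hb0) _ _
  have hgi : Integrable (fun u : ℝ => ((gg c lam m α u * Real.exp (-(η * u)) : ℝ) : ℂ)) := (gg_int h hη).ofReal
  obtain ⟨F, hF⟩ : ∃ F : ℝ → ℝ → ℂ, F = fun (y u : ℝ) => (((gg c lam m α u * Real.exp (-(η * u)) : ℝ) : ℂ) *
      Complex.exp (-((y : ℝ) * u) * I)) * κ y := ⟨_, rfl⟩
  have hI : Integrable (Function.uncurry F) (volume.prod volume) := by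
    have h1 := hκi.mul_prod hgi
    have h2 := h1.bdd_mul (c := 1) (f := fun p : ℝ × ℝ => Complex.exp (((-(p.1 * p.2) : ℝ) : ℂ) * I))
      (by apply Continuous.aestronglyMeasurable; fun_prop)
      (Eventually.of_forall fun p => by rw [Complex.norm_exp_ofReal_mul_I])
    refine h2.congr (Eventually.of_forall fun p => ?_)
    have h3 : Complex.exp (-((p.1 : ℝ) * p.2) * I) = Complex.exp (((-(p.1 * p.2) : ℝ) : ℂ) * I) := by
      push_cast
      rfl
    rw [hF]
    simp only [Function.uncurry]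
    rw [h3]
    ring
  have hsw := integral_integral_swap hI
  have e1 : (fun y : ℝ => Mm c lam m α η y * κ y) = fun y : ℝ => ∫ u : ℝ, F y u := by
    funext y
    rw [mel_line, hF]
    simp only
    rw [integral_mul_const]
  have e2 : ∀ u : ℝ, ∫ y : ℝ, F y u = ((Real.sqrt (4 * Real.pi * L) : ℝ) : ℂ) *
      (((gg c lam m α u * Real.exp (-(L * u ^ 2)) : ℝ) : ℂ) * Complex.exp (-(Y * u) * I)) := by
    intro u
    have h3 : (fun y : ℝ => F y u) = fun y : ℝ => ((gg c lam m α u * Real.exp (-(η * u)) : ℝ) : ℂ) *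
        Complex.exp (-(b : ℂ) * y ^ 2 + (2 * b * (Y + η * I) - u * I) * y + (-(b : ℂ) * (Y + η * I) ^ 2)) := by
      funext y
      rw [hF, hκf]
      simp only
      rw [mul_assoc, ← Complex.exp_add]
      congr 2
      ring
    rw [h3, integral_const_mul]
    have h4 := integral_cexp_quadratic (b := -(b : ℂ)) (by simpa using hb0) (2 * b * (Y + η * I) - u * I)
      (-(b : ℂ) * (Y + η * I) ^ 2)
    rw [h4]
    have hbc : (b : ℂ) ≠ 0 := by exact_mod_cast hb0.ne'
    have hbLc : (b : ℂ) * (4 * L) = 1 := by exact_mod_cast hbL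
    have h5 : -(b : ℂ) * (Y + η * I) ^ 2 - (2 * b * (Y + η * I) - u * I) ^ 2 / (4 * -(b : ℂ)) =
        η * u + -(L * u ^ 2) + (-(Y * u) * I) := by
      have h6 : (L : ℂ) = 1 / (4 * b) := by
        field_simp
        linear_combination hbLc
      rw [h6]
      field_simp
      ring_nf
      simp only [I_sq]
      ring
    have h7 : (Real.pi / -(-(b : ℂ))) ^ (1 / 2 : ℂ) = ((Real.sqrt (4 * Real.pi * L) : ℝ) : ℂ) := by
      rw [neg_neg, Real.sqrt_eq_rpow, Complex.ofReal_cpow (by positivity)]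
      congr 1
      · have h6 : (L : ℂ) = 1 / (4 * b) := by
          field_simp
          linear_combination hbLc
        push_cast
        rw [h6]
        field_simp
      · push_cast
        rfl
    rw [h5, h7, Complex.exp_add, Complex.exp_add]
    have h8 : Complex.exp (η * u) = ((Real.exp (η * u) : ℝ) : ℂ) := by push_cast; rfl
    have h9 : Complex.exp (-(L * u ^ 2)) = ((Real.exp (-(L * u ^ 2)) : ℝ) : ℂ) := by push_cast; rfl
    rw [h8, h9]
    have h10 : Real.exp (-(η * u)) * Real.exp (η * u) = 1 := by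
      rw [← Real.exp_add]
      simp
    have h11 : ((Real.exp (-(η * u)) : ℝ) : ℂ) * ((Real.exp (η * u) : ℝ) : ℂ) = 1 := by exact_mod_cast h10
    rw [Complex.ofReal_mul, Complex.ofReal_mul]
    linear_combination ((gg c lam m α u : ℝ) : ℂ) * ((Real.sqrt (4 * Real.pi * L) : ℝ) : ℂ) *
      ((Real.exp (-(L * u ^ 2)) : ℝ) : ℂ) * Complex.exp (-(Y * u) * I) * h11
  change ∫ y : ℝ, Mm c lam m α η y * (fun y : ℝ => Complex.exp (-(b : ℂ) * ((y - Y) - η * I) ^ 2)) y = _
  rw [← hκ, e1, hsw]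
  simp_rw [e2]
  rw [integral_const_mul]

end

end Pool.Agent.Q284.S
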