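import Mathlib
import Pool.Agent.Helper242.RK.Int5

/-!
# The gamma factor of the connecting formula
-/

set_option autoImplicit false

namespace Pool.Agent.Q284.S

open Complex

/-- Stirling upper bound on any vertical line -/
lemma Gamma_le (N : ℕ) : ∀ σ : ℝ, 1 / 2 ≤ σ + N → ∃ C : ℝ, 0 < C ∧ ∀ y : ℝ, 1 ≤ |y| →
    ‖Gamma ((σ : ℂ) + y * I)‖ ≤ C * |y| ^ (σ - 1 / 2) * Real.exp (-(Real.pi / 2 * |y|)) := by
  induction N with
  | zero =>
    intro σ hσ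
    rw [Nat.cast_zero, add_zero] at hσ
    obtain ⟨C, hC, h⟩ := Pool.Agent.Helper242.RK.Gamma_upper hσ
    refine ⟨C * 2 ^ (σ - 1 / 2), by positivity, fun y hy => (h y).trans ?_⟩
    have h1 : (1 + |y|) ^ (σ - 1 / 2) ≤ 2 ^ (σ - 1 / 2) * |y| ^ (σ - 1 / 2) := by
      rw [← Real.mul_rpow (by norm_num) (abs_nonneg _)]
      exact Real.rpow_le_rpow (by positivity) (by linarith) (by linarith)
    calc C * (1 + |y|) ^ (σ - 1 / 2) * Real.exp (-(Real.pi / 2 * |y|)) ≤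
        C * (2 ^ (σ - 1 / 2) * |y| ^ (σ - 1 / 2)) * Real.exp (-(Real.pi / 2 * |y|)) := by gcongr
      _ = _ := by ring
  | succ N ih =>
    intro σ hσ
    push_cast at hσ
    obtain ⟨C, hC, h⟩ := ih (σ + 1) (by linarith)
    refine ⟨C, hC, fun y hy => ?_⟩
    have hy0 : 0 < |y| := by linarith
    obtain ⟨s, hs⟩ : ∃ s : ℂ, s = (σ : ℂ) + y * I := ⟨_, rfl⟩
    have him : s.im = y := by rw [hs]; simp
    have hs0 : s ≠ 0 := by
      intro h0
      rw [h0, zero_im] at him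
      rw [← him, abs_zero] at hy0
      exact lt_irrefl _ hy0
    have h1 := Complex.Gamma_add_one s hs0
    have h2 := h y hy
    have h3 : (((σ + 1 : ℝ) : ℂ) + y * I) = s + 1 := by rw [hs]; push_cast; ring
    rw [h3, h1, norm_mul] at h2
    rw [← hs]
    have h4 : |y| ≤ ‖s‖ := by rw [← him]; exact Complex.abs_im_le_norm s
    have h5 : |y| * ‖Gamma s‖ ≤ C * |y| ^ (σ + 1 - 1 / 2) * Real.exp (-(Real.pi / 2 * |y|)) :=
      (mul_le_mul_of_nonneg_right h4 (norm_nonneg _)).trans h2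
    have h6 : |y| ^ (σ + 1 - 1 / 2) = |y| * |y| ^ (σ - 1 / 2) := by
      rw [show σ + 1 - 1 / 2 = 1 + (σ - 1 / 2) by ring, Real.rpow_add hy0, Real.rpow_one]
    rw [h6] at h5
    have h7 : |y| * ‖Gamma s‖ ≤ |y| * (C * |y| ^ (σ - 1 / 2) * Real.exp (-(Real.pi / 2 * |y|))) := by
      calc |y| * ‖Gamma s‖ ≤ C * (|y| * |y| ^ (σ - 1 / 2)) * Real.exp (-(Real.pi / 2 * |y|)) := h5
        _ = _ := by ring
    exact le_of_mul_le_mul_left h7 hy0

lemma norm_cos_le (z : ℂ) : ‖Complex.cos z‖ ≤ Real.exp |z.im| := by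
  rw [Complex.cos, norm_div]
  have h1 : ‖Complex.exp (z * I)‖ ≤ Real.exp |z.im| := by
    rw [Complex.norm_exp]
    apply Real.exp_le_exp.2
    rw [mul_I_re]
    exact neg_le_abs _
  have h2 : ‖Complex.exp (-z * I)‖ ≤ Real.exp |z.im| := by
    rw [Complex.norm_exp]
    apply Real.exp_le_exp.2
    rw [mul_I_re, neg_im, neg_neg]
    exact le_abs_self _
  have h3 := norm_add_le (Complex.exp (z * I)) (Complex.exp (-z * I))
  have h4 : ‖(2 : ℂ)‖ = 2 := by simp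
  rw [h4, div_le_iff₀ (by norm_num)]
  linarith

/-- the gamma factor `Γ(w) cos(π w / 2)` has size `|y|^(σ - 1/2)` -/
theorem gam_cos (σ : ℝ) : ∃ C : ℝ, 0 < C ∧ ∀ y : ℝ, 1 ≤ |y| →
    ‖Gamma ((σ : ℂ) + y * I) * Complex.cos (Real.pi * ((σ : ℂ) + y * I) / 2)‖ ≤ C * |y| ^ (σ - 1 / 2) := by
  obtain ⟨C, hC, h⟩ := Gamma_le ⌈1 / 2 - σ⌉₊ σ (by have := Nat.le_ceil (1 / 2 - σ); linarith)
  refine ⟨C, hC, fun y hy => ?_⟩
  have h1 := h y hy
  have h2 := norm_cos_le (Real.pi * ((σ : ℂ) + y * I) / 2)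
  have h3 : (Real.pi * ((σ : ℂ) + y * I) / 2).im = Real.pi / 2 * y := by
    have : (Real.pi * ((σ : ℂ) + y * I) / 2) = ((Real.pi / 2 * σ : ℝ) : ℂ) + ((Real.pi / 2 * y : ℝ) : ℂ) * I := by
      push_cast
      ring
    rw [this]
    simp
  rw [h3, abs_mul, abs_of_pos (by positivity : 0 < Real.pi / 2)] at h2
  rw [norm_mul]
  calc ‖Gamma ((σ : ℂ) + y * I)‖ * ‖Complex.cos (Real.pi * ((σ : ℂ) + y * I) / 2)‖ ≤
      (C * |y| ^ (σ - 1 / 2) * Real.exp (-(Real.pi / 2 * |y|))) * Real.exp (Real.pi / 2 * |y|) :=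
        mul_le_mul h1 h2 (norm_nonneg _) (by positivity)
    _ = C * |y| ^ (σ - 1 / 2) * (Real.exp (-(Real.pi / 2 * |y|)) * Real.exp (Real.pi / 2 * |y|)) := by ring
    _ = _ := by rw [← Real.exp_add, neg_add_cancel, Real.exp_zero, mul_one]

end Pool.Agent.Q284.S
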