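import Mathlib
import Pool.Agent.Q284.S.Wn

/-!
# Lower bound for the local mass
-/

set_option autoImplicit false

namespace Pool.Agent.Q284.S

open Filter Topology MeasureTheory Set Complex
open Pool.Agent.H469R10.HO
open Pool.Agent.H13R3.EM (hb rs gs gs_neg psi_one)

section

variable {c lam A : ℝ} {m : ℕ} {α : ℕ → ℝ}

/-- the test integral is large -/
lemma test_low (h : Bd c lam m α) (hA : 0 < A)
    (hr : ∀ x : ℝ, 3 / 4 ≤ x → x ≤ 4 / 3 → hb c lam α x = rs m A x) :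
    ∃ a C : ℝ, 0 < a ∧ 0 < C ∧ ∀ L Y : ℝ, 1 ≤ L → 1 ≤ Y → 4 * L ≤ Y ^ 2 →
      a * Y ^ (-(5 / 2) : ℝ) - C * Real.exp (-(Y ^ 2 / (4 * L))) - C * Real.exp (-(L / 200)) ≤
        ‖∫ u : ℝ, ((gg c lam m α u * Real.exp (-(L * u ^ 2)) : ℝ) : ℂ) * Complex.exp (-(Y * u) * I)‖ := by
  obtain ⟨a, C, ha, hC, hlow⟩ := gauss_low
  obtain ⟨S, hS⟩ : ∃ S : ℝ, S = ∑' n, |α n| := ⟨_, rfl⟩
  have hS0 : 0 ≤ S := by rw [hS]; exact S_nonneg α
  obtain ⟨E, hE⟩ : ∃ E : ℝ → ℝ, E = fun u => (S + A * (1 + u ^ 2)) * Real.exp (-(u ^ 2 / 2)) := ⟨_, rfl⟩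
  have hEi : Integrable E := by
    have h1 := integrable_exp_neg_mul_sq (b := 1 / 2) (by norm_num)
    have h2 := integrable_rpow_mul_exp_neg_mul_sq (b := 1 / 2) (by norm_num) (s := 2) (by norm_num)
    refine ((h1.const_mul (S + A)).add (h2.const_mul A)).congr (Eventually.of_forall fun u => ?_)
    rw [hE]
    simp only [Pi.add_apply, Real.rpow_two]
    have : -(1 / 2) * u ^ 2 = -(u ^ 2 / 2) := by ring
    rw [this]
    ring
  have hE0 : 0 ≤ ∫ u, E u := integral_nonneg fun u => by rw [hE]; positivity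
  refine ⟨A * a, A * C + (∫ u, E u) + 1, by positivity, by positivity, fun L Y hL hY1 hY => ?_⟩
  have hL0 : 0 < L := by linarith
  have hg := hlow L Y hL hY1 hY
  -- integrability
  have hgint : Integrable fun u : ℝ => gg c lam m α u * Real.exp (-(L * u ^ 2)) := by
    have h1 := (integrable_exp_neg_mul_sq hL0).const_mul S
    refine h1.mono' ((gg_cont h).mul (by fun_prop)).aestronglyMeasurable (Eventually.of_forall fun u => ?_)
    rw [norm_mul, Real.norm_eq_abs, Real.norm_of_nonneg (Real.exp_pos _).le, neg_mul]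
    have h2 := gg_le' h u
    rw [← hS] at h2
    exact mul_le_mul_of_nonneg_right h2 (Real.exp_pos _).le
  have hcos : ∀ f : ℝ → ℝ, Integrable f → Integrable fun u : ℝ => f u * Real.cos (Y * u) := by
    intro f hf
    refine (hf.bdd_mul (c := 1) (f := fun u : ℝ => Real.cos (Y * u))
      (by apply Continuous.aestronglyMeasurable; fun_prop)
      (Eventually.of_forall fun u => by rw [Real.norm_eq_abs]; exact Real.abs_cos_le_one _)).congr
      (Eventually.of_forall fun u => ?_)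
    simp only
    ring
  -- the real part
  have hcint : Integrable fun u : ℝ => ((gg c lam m α u * Real.exp (-(L * u ^ 2)) : ℝ) : ℂ) *
      Complex.exp (-(Y * u) * I) := by
    have h1 : Integrable (fun u : ℝ => ((gg c lam m α u * Real.exp (-(L * u ^ 2)) : ℝ) : ℂ)) := hgint.ofReal
    have h2 := h1.bdd_mul (c := 1) (f := fun u : ℝ => Complex.exp (((-(Y * u) : ℝ) : ℂ) * I))
      (by apply Continuous.aestronglyMeasurable; fun_prop)
      (Eventually.of_forall fun u => by rw [Complex.norm_exp_ofReal_mul_I])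
    refine h2.congr (Eventually.of_forall fun u => ?_)
    have h3 : Complex.exp (-(Y * u) * I) = Complex.exp (((-(Y * u) : ℝ) : ℂ) * I) := by push_cast; rfl
    simp only
    rw [h3]
    ring
  have hre : (∫ u : ℝ, ((gg c lam m α u * Real.exp (-(L * u ^ 2)) : ℝ) : ℂ) * Complex.exp (-(Y * u) * I)).re =
      ∫ u : ℝ, gg c lam m α u * Real.exp (-(L * u ^ 2)) * Real.cos (Y * u) := by
    rw [← RCLike.re_eq_complex_re, ← integral_re hcint]
    congr 1
    funext u
    rw [RCLike.re_eq_complex_re, Complex.re_ofReal_mul]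
    have h3 : Complex.exp (-(Y * u) * I) = Complex.exp (((-(Y * u) : ℝ) : ℂ) * I) := by push_cast; rfl
    rw [h3, Complex.exp_ofReal_mul_I_re, Real.cos_neg]
  -- decomposition
  have hdec : ∫ u : ℝ, gg c lam m α u * Real.exp (-(L * u ^ 2)) * Real.cos (Y * u) =
      A * (∫ u : ℝ, |u| ^ (3 / 2 : ℝ) * Real.exp (-(L * u ^ 2)) * Real.cos (Y * u)) +
      ∫ u : ℝ, (gg c lam m α u - A * |u| ^ (3 / 2 : ℝ)) * Real.exp (-(L * u ^ 2)) * Real.cos (Y * u) := by
    have i1 := hcos _ (gi hL0)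
    have i2 := hcos _ hgint
    rw [← integral_const_mul, ← integral_add (i1.const_mul A)]
    · congr 1
      funext u
      ring
    · refine (i2.sub (i1.const_mul A)).congr (Eventually.of_forall fun u => ?_)
      simp only [Pi.sub_apply]
      ring
  have hD : ‖∫ u : ℝ, (gg c lam m α u - A * |u| ^ (3 / 2 : ℝ)) * Real.exp (-(L * u ^ 2)) * Real.cos (Y * u)‖ ≤
      Real.exp (-(L / 200)) * ∫ u, E u := by
    rw [← integral_const_mul]
    refine norm_integral_le_of_norm_le (hEi.const_mul _) (Eventually.of_forall fun u => ?_)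
    rcases le_or_gt |u| (1 / 10) with hu | hu
    · rw [gg_eq hr hu, sub_self, zero_mul, zero_mul, norm_zero]
      rw [hE]
      positivity
    · rw [norm_mul, norm_mul, Real.norm_eq_abs, Real.norm_eq_abs, Real.norm_eq_abs, abs_of_pos (Real.exp_pos _)]
      have h1 : |gg c lam m α u - A * |u| ^ (3 / 2 : ℝ)| ≤ S + A * (1 + u ^ 2) := by
        have h2 := gg_le' h u
        rw [← hS] at h2
        have h3 := abs_pow_le u
        have h4 : |A * |u| ^ (3 / 2 : ℝ)| ≤ A * (1 + u ^ 2) := by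
          rw [abs_of_nonneg (by positivity)]
          exact mul_le_mul_of_nonneg_left h3 hA.le
        exact (abs_sub _ _).trans (add_le_add h2 h4)
      have h2 : Real.exp (-(L * u ^ 2)) ≤ Real.exp (-(L / 200)) * Real.exp (-(u ^ 2 / 2)) := by
        rw [← Real.exp_add]
        apply Real.exp_le_exp.2
        have h3 : (1 / 10 : ℝ) ^ 2 ≤ |u| ^ 2 := pow_le_pow_left₀ (by norm_num) hu.le 2
        rw [sq_abs] at h3
        nlinarith
      have h0 : 0 ≤ S + A * (1 + u ^ 2) := by positivity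
      calc |gg c lam m α u - A * |u| ^ (3 / 2 : ℝ)| * Real.exp (-(L * u ^ 2)) * |Real.cos (Y * u)| ≤
          (S + A * (1 + u ^ 2)) * (Real.exp (-(L / 200)) * Real.exp (-(u ^ 2 / 2))) * 1 := by
            refine mul_le_mul (mul_le_mul h1 h2 (Real.exp_pos _).le h0) (Real.abs_cos_le_one _) (abs_nonneg _)
              (by positivity)
        _ = Real.exp (-(L / 200)) * E u := by rw [hE]; ring
  have h5 := (Complex.abs_re_le_norm (∫ u : ℝ, ((gg c lam m α u * Real.exp (-(L * u ^ 2)) : ℝ) : ℂ) *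
    Complex.exp (-(Y * u) * I)))
  have h6 := neg_le_abs (∫ u : ℝ, ((gg c lam m α u * Real.exp (-(L * u ^ 2)) : ℝ) : ℂ) *
    Complex.exp (-(Y * u) * I)).re
  rw [hre, hdec] at h6
  rw [Real.norm_eq_abs] at hD
  have h7 := le_abs_self (∫ u : ℝ, (gg c lam m α u - A * |u| ^ (3 / 2 : ℝ)) * Real.exp (-(L * u ^ 2)) *
    Real.cos (Y * u))
  have h8 := mul_le_mul_of_nonneg_left hg hA.le
  rw [hre, hdec] at h5
  have e1 := Real.exp_pos (-(Y ^ 2 / (4 * L)))
  have e2 := Real.exp_pos (-(L / 200))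
  have h9 : A * (∫ u : ℝ, |u| ^ (3 / 2 : ℝ) * Real.exp (-(L * u ^ 2)) * Real.cos (Y * u)) +
      (∫ u : ℝ, (gg c lam m α u - A * |u| ^ (3 / 2 : ℝ)) * Real.exp (-(L * u ^ 2)) * Real.cos (Y * u)) ≤
      A * (-(a * Y ^ (-(5 / 2) : ℝ)) + C * Real.exp (-(Y ^ 2 / (4 * L)))) + Real.exp (-(L / 200)) * ∫ u, E u := by
    linarith
  have h10 : 0 ≤ (∫ u, E u) * Real.exp (-(Y ^ 2 / (4 * L))) := mul_nonneg hE0 e1.le
  have h11 : 0 ≤ A * C * Real.exp (-(L / 200)) := by positivity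
  nlinarith

/-- the Gaussian average is large -/
lemma avg_low (h : Bd c lam m α) (hA : 0 < A)
    (hr : ∀ x : ℝ, 3 / 4 ≤ x → x ≤ 4 / 3 → hb c lam α x = rs m A x) {η : ℝ} (hη : |η| < m) :
    ∃ a C : ℝ, 0 < a ∧ 0 < C ∧ ∀ L Y : ℝ, 1 ≤ L → 1 ≤ Y → 4 * L ≤ Y ^ 2 →
      a * Y ^ (-(5 / 2) : ℝ) - C * Real.exp (-(Y ^ 2 / (4 * L))) - C * Real.exp (-(L / 200)) ≤
        ∫ y : ℝ, ‖Mm c lam m α η y‖ * Real.exp (-((y - Y) ^ 2 / (4 * L))) := by
  obtain ⟨a, C, ha, hC, hlow⟩ := test_low h hA hr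
  obtain ⟨B, hB0, hB⟩ := Mm_le (c := c) (lam := lam) (m := m) (α := α) η
  refine ⟨a * Real.exp (-(η ^ 2 / 4)), C * Real.exp (-(η ^ 2 / 4)), by positivity, by positivity,
    fun L Y hL hY1 hY => ?_⟩
  have hL0 : 0 < L := by linarith
  have h1 := hlow L Y hL hY1 hY
  have h2 := mel_gauss h hη hL0 Y
  have hn : ∀ y : ℝ, ‖Mm c lam m α η y * Complex.exp (-(1 / (4 * L) : ℝ) * ((y - Y) - η * I) ^ 2)‖ ≤
      Real.exp (η ^ 2 / 4) * (‖Mm c lam m α η y‖ * Real.exp (-((y - Y) ^ 2 / (4 * L)))) := by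
    intro y
    rw [norm_mul, Complex.norm_exp]
    have h3 : (-(1 / (4 * L) : ℝ) * (((y : ℂ) - Y) - η * I) ^ 2).re = η ^ 2 / (4 * L) + -((y - Y) ^ 2 / (4 * L)) := by
      have h4 : (-((1 / (4 * L) : ℝ) : ℂ) * (((y : ℂ) - Y) - η * I) ^ 2) =
          ((-(1 / (4 * L)) * ((y - Y) ^ 2 - η ^ 2) : ℝ) : ℂ) + ((1 / (4 * L) * (2 * (y - Y) * η) : ℝ) : ℂ) * I := by
        push_cast
        linear_combination (-(1 / (4 * (L : ℂ))) * η ^ 2) * I_sq
      rw [h4, add_re, ofReal_re, mul_re, ofReal_re, ofReal_im, I_re, I_im]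
      field_simp
      ring
    rw [h3, Real.exp_add]
    have h5 : Real.exp (η ^ 2 / (4 * L)) ≤ Real.exp (η ^ 2 / 4) := by
      apply Real.exp_le_exp.2
      have : (4 : ℝ) ≤ 4 * L := by linarith
      gcongr
    calc ‖Mm c lam m α η y‖ * (Real.exp (η ^ 2 / (4 * L)) * Real.exp (-((y - Y) ^ 2 / (4 * L)))) =
        Real.exp (η ^ 2 / (4 * L)) * (‖Mm c lam m α η y‖ * Real.exp (-((y - Y) ^ 2 / (4 * L)))) := by ring
      _ ≤ _ := mul_le_mul_of_nonneg_right h5 (by positivity)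
  have hGi : Integrable fun y : ℝ => Real.exp (-((y - Y) ^ 2 / (4 * L))) := by
    have h3 := (integrable_exp_neg_mul_sq (b := 1 / (4 * L)) (by positivity)).comp_sub_right Y
    refine h3.congr (Eventually.of_forall fun y => ?_)
    simp only
    congr 1
    ring
  have hPi : Integrable fun y : ℝ => ‖Mm c lam m α η y‖ * Real.exp (-((y - Y) ^ 2 / (4 * L))) := by
    refine (hGi.const_mul B).mono' (((Mm_cont h hη).norm.mul (by fun_prop)).aestronglyMeasurable)
      (Eventually.of_forall fun y => ?_)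
    rw [Real.norm_of_nonneg (by positivity)]
    exact mul_le_mul_of_nonneg_right (hB y) (Real.exp_pos _).le
  have h3 : ‖∫ y : ℝ, Mm c lam m α η y * Complex.exp (-(1 / (4 * L) : ℝ) * ((y - Y) - η * I) ^ 2)‖ ≤
      Real.exp (η ^ 2 / 4) * ∫ y : ℝ, ‖Mm c lam m α η y‖ * Real.exp (-((y - Y) ^ 2 / (4 * L))) := by
    rw [← integral_const_mul]
    exact norm_integral_le_of_norm_le (hPi.const_mul _) (Eventually.of_forall hn)
  rw [h2, norm_mul, norm_real, Real.norm_of_nonneg (Real.sqrt_nonneg _)] at h3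
  have h4 : 1 ≤ Real.sqrt (4 * Real.pi * L) := by
    rw [Real.one_le_sqrt]
    nlinarith [Real.pi_gt_three]
  have h5 : ‖∫ u : ℝ, ((gg c lam m α u * Real.exp (-(L * u ^ 2)) : ℝ) : ℂ) * Complex.exp (-(Y * u) * I)‖ ≤
      Real.sqrt (4 * Real.pi * L) *
        ‖∫ u : ℝ, ((gg c lam m α u * Real.exp (-(L * u ^ 2)) : ℝ) : ℂ) * Complex.exp (-(Y * u) * I)‖ :=
    le_mul_of_one_le_left (norm_nonneg _) h4
  have h6 := (h1.trans h5).trans h3
  have h7 := mul_le_mul_of_nonneg_left h6 (Real.exp_pos (-(η ^ 2 / 4))).le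
  have h8 : Real.exp (-(η ^ 2 / 4)) * Real.exp (η ^ 2 / 4) = 1 := by
    rw [← Real.exp_add]
    simp
  rw [← mul_assoc, h8, one_mul] at h7
  linarith

end

end Pool.Agent.Q284.S
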