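import Mathlib
import Pool.Agent.Q284.S.Wo

/-!
# Lower bound for the mass in logarithmic windows
-/

set_option autoImplicit false

namespace Pool.Agent.Q284.S

open Filter Topology MeasureTheory Set Complex
open Pool.Agent.H469R10.HO
open Pool.Agent.H13R3.EM (hb rs gs gs_neg psi_one)

lemma err_small (C D a : ℝ) (ha : 0 < a) :
    ∀ᶠ Y : ℝ in atTop, (C + D * Real.log Y) * Y ^ (-3 : ℝ) ≤ a * Y ^ (-(5 / 2) : ℝ) := by
  have h1 : Tendsto (fun Y : ℝ => Y ^ (-(1 / 2) : ℝ)) atTop (𝓝 0) := tendsto_rpow_neg_atTop (by norm_num)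
  have h2 : Tendsto (fun Y : ℝ => Real.log Y * Y ^ (-(1 / 2) : ℝ)) atTop (𝓝 0) := by
    have h3 := (isLittleO_log_rpow_atTop (r := 1 / 2) (by norm_num)).tendsto_div_nhds_zero
    refine h3.congr' ?_
    filter_upwards [eventually_gt_atTop 0] with Y hY
    rw [Real.rpow_neg hY.le, div_eq_mul_inv]
  have h4 : Tendsto (fun Y : ℝ => C * Y ^ (-(1 / 2) : ℝ) + D * (Real.log Y * Y ^ (-(1 / 2) : ℝ))) atTop (𝓝 0) := by
    have := (h1.const_mul C).add (h2.const_mul D)
    simpa using this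
  filter_upwards [h4.eventually (gt_mem_nhds ha), eventually_gt_atTop 0] with Y h5 hY
  have h6 : Y ^ (-3 : ℝ) = Y ^ (-(1 / 2) : ℝ) * Y ^ (-(5 / 2) : ℝ) := by
    rw [← Real.rpow_add hY]
    norm_num
  have h7 : 0 ≤ Y ^ (-(5 / 2) : ℝ) := by positivity
  rw [h6]
  calc (C + D * Real.log Y) * (Y ^ (-(1 / 2) : ℝ) * Y ^ (-(5 / 2) : ℝ)) =
      (C * Y ^ (-(1 / 2) : ℝ) + D * (Real.log Y * Y ^ (-(1 / 2) : ℝ))) * Y ^ (-(5 / 2) : ℝ) := by ring
    _ ≤ _ := mul_le_mul_of_nonneg_right h5.le h7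

lemma log_small (C : ℝ) : ∀ᶠ Y : ℝ in atTop, C * Real.log Y ≤ Y := by
  have h3 := (Real.isLittleO_log_id_atTop).tendsto_div_nhds_zero
  have h4 := h3.const_mul C
  rw [mul_zero] at h4
  filter_upwards [h4.eventually (gt_mem_nhds one_pos), eventually_gt_atTop 0] with Y h5 hY
  simp only [id] at h5
  rw [← mul_div_assoc, div_lt_one hY] at h5
  exact h5.le

section

variable {c lam A : ℝ} {m : ℕ} {α : ℕ → ℝ}

/-- **mass in windows**: every window of length `240 log Y` around `Y` carries mass `≫ Y^(-5/2)` -/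
theorem window_low (h : Bd c lam m α) (hA : 0 < A)
    (hr : ∀ x : ℝ, 3 / 4 ≤ x → x ≤ 4 / 3 → hb c lam α x = rs m A x) {η : ℝ} (hη : |η| < m) :
    ∃ a : ℝ, 0 < a ∧ ∀ᶠ Y : ℝ in atTop, a * Y ^ (-(5 / 2) : ℝ) ≤
      ∫ y in (Y - 120 * Real.log Y)..(Y + 120 * Real.log Y), ‖Mm c lam m α η y‖ := by
  obtain ⟨a, C, ha, hC, hlow⟩ := avg_low h hA hr hη
  obtain ⟨B, hB0, hB⟩ := Mm_le (c := c) (lam := lam) (m := m) (α := α) η
  refine ⟨a / 2, by positivity, ?_⟩
  filter_upwards [err_small (2 * C) (B * 20000) (a / 2) (by positivity), log_small 100,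
    eventually_ge_atTop (Real.exp 1)] with Y herr hlog hY
  have hY0 : 0 < Y := lt_of_lt_of_le (Real.exp_pos 1) hY
  have hY1 : 1 ≤ Y := by
    have := Real.add_one_le_exp (1 : ℝ)
    linarith
  have hl1 : 1 ≤ Real.log Y := by
    have := Real.log_le_log (Real.exp_pos 1) hY
    rwa [Real.log_exp] at this
  obtain ⟨l, hl⟩ : ∃ l : ℝ, l = Real.log Y := ⟨_, rfl⟩
  rw [← hl] at hlog herr hl1 ⊢
  have hY2 : 10000 * l ^ 2 ≤ Y ^ 2 := by nlinarith
  have hL : 1 ≤ 600 * l := by linarith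
  have h1 := hlow (600 * l) Y hL hY1 (by nlinarith)
  have hexp3 : Real.exp (-(3 * l)) = Y ^ (-3 : ℝ) := by
    rw [Real.rpow_def_of_pos hY0, ← hl]
    congr 1
    ring
  have e1 : Real.exp (-(Y ^ 2 / (4 * (600 * l)))) ≤ Y ^ (-3 : ℝ) := by
    rw [← hexp3]
    apply Real.exp_le_exp.2
    have : 3 * l ≤ Y ^ 2 / (4 * (600 * l)) := by
      rw [le_div_iff₀ (by positivity)]
      nlinarith
    linarith
  have e2 : Real.exp (-(600 * l / 200)) = Y ^ (-3 : ℝ) := by
    rw [← hexp3]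
    congr 1
    ring
  rw [e2] at h1
  -- the upper bound of the average
  have hGi : Integrable fun y : ℝ => Real.exp (-((y - Y) ^ 2 / (8 * (600 * l)))) := by
    have h3 := (integrable_exp_neg_mul_sq (b := 1 / (8 * (600 * l))) (by positivity)).comp_sub_right Y
    refine h3.congr (Eventually.of_forall fun y => ?_)
    simp only
    congr 1
    ring
  have hGv : ∫ y : ℝ, Real.exp (-((y - Y) ^ 2 / (8 * (600 * l)))) = Real.sqrt (Real.pi * (8 * (600 * l))) := by
    have h3 := integral_sub_right_eq_self (fun y : ℝ => Real.exp (-(1 / (8 * (600 * l))) * y ^ 2)) Y (μ := volume)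
    rw [integral_gaussian] at h3
    have h4 : (fun y : ℝ => Real.exp (-((y - Y) ^ 2 / (8 * (600 * l))))) =
        fun y : ℝ => Real.exp (-(1 / (8 * (600 * l))) * (y - Y) ^ 2) := by
      funext y
      congr 1
      ring
    rw [h4, h3]
    congr 1
    field_simp
  have hPi : Integrable fun y : ℝ => ‖Mm c lam m α η y‖ * Real.exp (-((y - Y) ^ 2 / (4 * (600 * l)))) := by
    refine (hGi.const_mul B).mono' (((Mm_cont h hη).norm.mul (by fun_prop)).aestronglyMeasurable)
      (Eventually.of_forall fun y => ?_)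
    rw [Real.norm_of_nonneg (by positivity)]
    refine mul_le_mul (hB y) ?_ (Real.exp_pos _).le hB0.le
    apply Real.exp_le_exp.2
    apply neg_le_neg
    have : 4 * (600 * l) ≤ 8 * (600 * l) := by nlinarith
    gcongr
  have hii : Integrable ((Ioc (Y - 120 * l) (Y + 120 * l)).indicator fun y => ‖Mm c lam m α η y‖) := by
    rw [integrable_indicator_iff measurableSet_Ioc]
    exact ((Mm_cont h hη).norm.integrableOn_Icc).mono_set Ioc_subset_Icc_self
  have hmono : ∫ y : ℝ, ‖Mm c lam m α η y‖ * Real.exp (-((y - Y) ^ 2 / (4 * (600 * l)))) ≤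
      ∫ y : ℝ, ((Ioc (Y - 120 * l) (Y + 120 * l)).indicator (fun y => ‖Mm c lam m α η y‖) y +
        B * Y ^ (-3 : ℝ) * Real.exp (-((y - Y) ^ 2 / (8 * (600 * l))))) := by
    refine integral_mono hPi (hii.add (hGi.const_mul _)) fun y => ?_
    simp only
    by_cases hy : y ∈ Ioc (Y - 120 * l) (Y + 120 * l)
    · rw [indicator_of_mem hy]
      have h3 : Real.exp (-((y - Y) ^ 2 / (4 * (600 * l)))) ≤ 1 := Real.exp_le_one_iff.2 (by
        have : 0 ≤ (y - Y) ^ 2 / (4 * (600 * l)) := by positivity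
        linarith)
      have h4 : ‖Mm c lam m α η y‖ * Real.exp (-((y - Y) ^ 2 / (4 * (600 * l)))) ≤ ‖Mm c lam m α η y‖ :=
        mul_le_of_le_one_right (norm_nonneg _) h3
      have h5 : 0 ≤ B * Y ^ (-3 : ℝ) * Real.exp (-((y - Y) ^ 2 / (8 * (600 * l)))) := by positivity
      linarith
    · rw [indicator_of_notMem hy, zero_add]
      have h3 : (120 * l) ^ 2 ≤ (y - Y) ^ 2 := by
        rw [mem_Ioc, not_and_or, not_lt, not_le] at hy
        rcases hy with hy | hy
        · nlinarith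
        · nlinarith
      have h4 : Real.exp (-((y - Y) ^ 2 / (4 * (600 * l)))) ≤ Y ^ (-3 : ℝ) *
          Real.exp (-((y - Y) ^ 2 / (8 * (600 * l)))) := by
        rw [← hexp3, ← Real.exp_add]
        apply Real.exp_le_exp.2
        have h5 : 3 * l ≤ (y - Y) ^ 2 / (8 * (600 * l)) := by
          rw [le_div_iff₀ (by positivity)]
          nlinarith
        have h6 : (y - Y) ^ 2 / (4 * (600 * l)) = 2 * ((y - Y) ^ 2 / (8 * (600 * l))) := by
          field_simp
          ring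
        rw [h6]
        linarith
      calc ‖Mm c lam m α η y‖ * Real.exp (-((y - Y) ^ 2 / (4 * (600 * l)))) ≤
          B * (Y ^ (-3 : ℝ) * Real.exp (-((y - Y) ^ 2 / (8 * (600 * l))))) :=
            mul_le_mul (hB y) h4 (Real.exp_pos _).le hB0.le
        _ = _ := by ring
  rw [integral_add hii (hGi.const_mul _), integral_indicator measurableSet_Ioc, integral_const_mul, hGv,
    ← intervalIntegral.integral_of_le (by linarith)] at hmono
  have e3 : Real.sqrt (Real.pi * (8 * (600 * l))) ≤ 20000 * l := by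
    rw [Real.sqrt_le_left (by positivity)]
    nlinarith [Real.pi_le_four]
  have hYp : 0 < Y ^ (-3 : ℝ) := Real.rpow_pos_of_pos hY0 _
  have e4 : B * Y ^ (-3 : ℝ) * Real.sqrt (Real.pi * (8 * (600 * l))) ≤ B * Y ^ (-3 : ℝ) * (20000 * l) :=
    mul_le_mul_of_nonneg_left e3 (by positivity)
  have e5 : C * Real.exp (-(Y ^ 2 / (4 * (600 * l)))) ≤ C * Y ^ (-3 : ℝ) := mul_le_mul_of_nonneg_left e1 hC.le
  nlinarith

end

end Pool.Agent.Q284.S
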