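import Mathlib
import Pool.Agent.Q284.S.Wp
import Pool.Agent.Q284.S.Gm

/-!
# Transfer to the Dirichlet series
-/

set_option autoImplicit false

namespace Pool.Agent.Q284.S

open Filter Topology MeasureTheory Set Complex
open Pool.Agent.H469R10.HO
open Pool.Agent.H13R3.EM

section

variable {m : ℕ} {e c A : ℝ} {β α : ℕ → ℝ}

lemma bd_of_out (hm : 1 ≤ m) (hO : Out m e c A β α) : Bd c (lamH m) m α where
  hc := hO.hc
  hlam := by linarith [lam_ge m]
  hm := hm
  hα := hO.hsum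
  hrel := by
    intro x hx
    have := hO.hrel x hx
    unfold hb
    rw [this]
    simp only [div_eq_mul_inv]

/-- the Dirichlet series in the variable of the boundary function -/
noncomputable def GG (m : ℕ) (c : ℝ) (F : ℂ → ℂ) (z : ℂ) : ℂ :=
  (c : ℂ) ^ (-z) * F ((kap m : ℂ) + z / (lamH m : ℂ))

lemma GG_diff {F : ℂ → ℂ} (hF : Differentiable ℂ F) (hc : 0 < c) : Differentiable ℂ (GG m c F) := by
  unfold GG
  refine Differentiable.mul ?_ (hF.comp (by fun_prop))
  have hc0 : (c : ℂ) ≠ 0 := by exact_mod_cast hc.ne'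
  exact Differentiable.const_cpow (by fun_prop) (Or.inl hc0)

lemma GG_series (hO : Out m e c A β α) {F : ℂ → ℂ}
    (hs : ∀ s : ℂ, 1 < s.re → F s = LSeries (ff m β) s) {z : ℂ} (hz : lamH m < z.re) :
    HasSum (fun n : ℕ => if n = 0 then 0 else
      ((α n : ℝ) : ℂ) * ((uu c (lamH m) n : ℝ) : ℂ) ^ (-z)) (GG m c F z) := by
  have hl := lam_pos m
  have hc := hO.hc
  have hlc : (lamH m : ℂ) ≠ 0 := by exact_mod_cast hl.ne'
  obtain ⟨s, hsd⟩ : ∃ s : ℂ, s = (kap m : ℂ) + z / (lamH m : ℂ) := ⟨_, rfl⟩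
  have hkap : 0 < kap m := by unfold kap; positivity
  have hre : s.re = kap m + z.re / lamH m := by
    rw [hsd, add_re, ofReal_re, Complex.div_ofReal_re]
  have hs1 : 1 < s.re := by
    rw [hre]
    have : 1 < z.re / lamH m := by rw [lt_div_iff₀ hl]; linarith
    linarith
  have hsum : LSeriesSummable (ff m β) s :=
    LSeriesSummable_of_bounded_of_one_lt_re (m := 1) (fun n _ => by
      unfold ff
      rw [Complex.norm_real, Real.norm_eq_abs]
      exact abs_fr_le hO.hβ n) hs1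
  have h1 : HasSum (fun n : ℕ => LSeries.term (ff m β) s n) (LSeries (ff m β) s) := hsum.hasSum
  have h2 := h1.mul_left ((c : ℂ) ^ (-z))
  unfold GG
  rw [← hsd, hs s hs1]
  refine h2.congr_fun fun n => ?_
  rcases Nat.eq_zero_or_pos n with h0 | h0
  · subst h0
    simp [LSeries.term_zero]
  · rw [if_neg h0.ne', LSeries.term_of_ne_zero h0.ne']
    have hn : (0 : ℝ) < n := by exact_mod_cast h0
    have hnc : ((n : ℕ) : ℂ) ≠ 0 := by exact_mod_cast h0.ne'
    unfold ff
    rw [fr_eq hO.hα h0]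
    have hu := uu_pos (lam := lamH m) hc h0
    have e2 : (n : ℝ) ^ kap m = Real.exp (Real.log n * kap m) := Real.rpow_def_of_pos hn _
    have e3 : ((n : ℕ) : ℂ) ^ s = Complex.exp ((Real.log n : ℂ) * s) := by
      rw [show ((n : ℕ) : ℂ) = ((n : ℝ) : ℂ) by push_cast; rfl]
      exact pow_eq_exp hn s
    have e5 : ∀ a y : ℂ, a / Complex.exp y = a * Complex.exp (-y) := by
      intro a y; rw [Complex.exp_neg, div_eq_mul_inv]
    rw [pow_eq_exp hu, uu_log hc h0, e2, e3, e5, pow_eq_exp hc, hsd]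
    push_cast
    have e4 : ∀ a b c' d : ℂ, Complex.exp a * (b * Complex.exp c' * Complex.exp d) =
        b * Complex.exp (a + c' + d) := by
      intro a b c' d
      rw [Complex.exp_add, Complex.exp_add]
      ring
    rw [e4]
    congr 2
    field_simp
    ring

/-- the Mellin transform in terms of the Dirichlet series -/
lemma Mm_norm (hm : 1 ≤ m) (hO : Out m e c A β α) {F : ℂ → ℂ} (hF : Differentiable ℂ F)
    (hs : ∀ s : ℂ, 1 < s.re → F s = LSeries (ff m β) s) {η : ℝ} (hη : |η| < m) :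
    ∃ C : ℝ, 0 < C ∧ ∀ y : ℝ, 1 ≤ |y| → ‖Mm c (lamH m) m α η y‖ ≤
      C * |y| ^ (-(m - η) - 1 / 2) * ‖F (((1 / 2 + η / lamH m : ℝ) : ℂ) + ((y / lamH m : ℝ) : ℂ) * I)‖ := by
  have hB := bd_of_out hm hO
  have hc := hO.hc
  obtain ⟨C, hC, h⟩ := gam_cos (-(m - η))
  have hl := lam_pos m
  have hlc : (lamH m : ℂ) ≠ 0 := by exact_mod_cast hl.ne'
  rw [abs_lt] at hη
  refine ⟨C * c ^ (m - η), by positivity, fun y hy => ?_⟩
  obtain ⟨w, hw⟩ : ∃ w : ℂ, w = ((-(m - η) : ℝ) : ℂ) + y * I := ⟨_, rfl⟩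
  have hre : w.re = -(m - η) := by rw [hw]; simp
  have him : w.im = y := by rw [hw]; simp
  have hcon := connect hB (GG_diff hF hc) (R := lamH m) (fun z hz => GG_series hO hs hz) (w := w)
    (by rw [hre]; linarith) (by rw [hre]; linarith)
  have hΓ : Gamma w ≠ 0 := by
    apply Complex.Gamma_ne_zero
    intro k hk
    have : w.im = 0 := by rw [hk]; simp
    rw [him] at this
    rw [this, abs_zero] at hy
    linarith
  have h1 : Mm c (lamH m) m α η y = (Gamma w * Complex.cos (Real.pi * w / 2)) * GG m c F w := by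
    unfold Mm
    rw [← hw, mul_assoc, ← hcon]
    field_simp
  have h2 : ‖GG m c F w‖ = c ^ (m - η) * ‖F (((1 / 2 + η / lamH m : ℝ) : ℂ) + ((y / lamH m : ℝ) : ℂ) * I)‖ := by
    unfold GG
    rw [norm_mul, norm_cpow_eq_rpow_re_of_pos hc, neg_re, hre, neg_neg]
    congr 3
    rw [hw]
    unfold kap
    push_cast
    field_simp
    ring
  have h3 := h y hy
  rw [← hw] at h3
  rw [h1, norm_mul, h2]
  calc ‖Gamma w * Complex.cos (Real.pi * w / 2)‖ *
      (c ^ (m - η) * ‖F (((1 / 2 + η / lamH m : ℝ) : ℂ) + ((y / lamH m : ℝ) : ℂ) * I)‖) ≤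
      (C * |y| ^ (-(m - η) - 1 / 2)) *
      (c ^ (m - η) * ‖F (((1 / 2 + η / lamH m : ℝ) : ℂ) + ((y / lamH m : ℝ) : ℂ) * I)‖) :=
        mul_le_mul_of_nonneg_right h3 (by positivity)
    _ = _ := by ring

/-- **mean values in short intervals** -/
theorem mean_low (hm : 1 ≤ m) (hO : Out m e c A β α) {F : ℂ → ℂ} (hF : Differentiable ℂ F)
    (hs : ∀ s : ℂ, 1 < s.re → F s = LSeries (ff m β) s) {η : ℝ} (hη : |η| < m) :
    ∃ a : ℝ, 0 < a ∧ ∀ᶠ T : ℝ in atTop, a * T ^ (m - η - 2) ≤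
      ∫ t in T..(T + 100 * Real.log T), ‖F (((1 / 2 + η / lamH m : ℝ) : ℂ) + (t : ℂ) * I)‖ := by
  obtain ⟨C, hC, hM⟩ := Mm_norm hm hO hF hs hη
  obtain ⟨a, ha, hwin⟩ := window_low (bd_of_out hm hO) hO.hA hO.hr hη
  have hl := lam_pos m
  have hmR : (1 : ℝ) ≤ m := by exact_mod_cast hm
  have hl2 : (7 : ℝ) / 2 ≤ lamH m := by unfold lamH; linarith
  obtain ⟨l, hld⟩ : ∃ l : ℝ, l = lamH m := ⟨_, rfl⟩
  rw [← hld] at hl hl2 hM hwin ⊢
  obtain ⟨p, hp⟩ : ∃ p : ℝ, p = m - η - 2 := ⟨_, rfl⟩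
  obtain ⟨q, hq⟩ : ∃ q : ℝ, q = (m - η) + 1 / 2 := ⟨_, rfl⟩
  rw [abs_lt] at hη
  have hq0 : 0 < q := by rw [hq]; linarith
  obtain ⟨f, hf⟩ : ∃ f : ℝ → ℝ, f = fun t : ℝ => ‖F (((1 / 2 + η / l : ℝ) : ℂ) + (t : ℂ) * I)‖ := ⟨_, rfl⟩
  have hfc : Continuous f := by
    rw [hf]
    exact (hF.continuous.comp (by fun_prop)).norm
  have hf0 : ∀ t, 0 ≤ f t := fun t => by rw [hf]; exact norm_nonneg _
  obtain ⟨r, hr⟩ : ∃ r : ℝ, r = min (l ^ p) ((2 * l) ^ p) := ⟨_, rfl⟩
  have hr0 : 0 < r := by rw [hr]; exact lt_min (by positivity) (by positivity)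
  refine ⟨a * (1 / 2) ^ q / (C * l) * r, by positivity, ?_⟩
  have htend : Tendsto (fun T : ℝ => l * (T + 50 * Real.log T)) atTop atTop := by
    refine Tendsto.const_mul_atTop hl (tendsto_atTop_mono' atTop ?_ tendsto_id)
    filter_upwards [eventually_ge_atTop 1] with T hT
    have := Real.log_nonneg hT
    simp only [id]
    linarith
  filter_upwards [htend.eventually hwin, log_small 500, eventually_ge_atTop (Real.exp 1),
    eventually_ge_atTop ((2 * l) ^ (3 : ℝ)), eventually_ge_atTop 4,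
    htend.eventually (log_small 500), htend.eventually (eventually_ge_atTop 4)] with T hw hlog hTe hTl hT4 hlogY hY4
  have hT0 : 0 < T := by linarith
  obtain ⟨Y, hY⟩ : ∃ Y : ℝ, Y = l * (T + 50 * Real.log T) := ⟨_, rfl⟩
  rw [← hY] at hw hlogY hY4
  have hY0 : 0 < Y := by linarith
  have hlT : 1 ≤ Real.log T := by
    have := Real.log_le_log (Real.exp_pos 1) hTe
    rwa [Real.log_exp] at this
  have hYT1 : l * T ≤ Y := by rw [hY]; nlinarith
  have hYT2 : Y ≤ 2 * l * T := by rw [hY]; nlinarith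
  have hlogYT : Real.log Y ≤ 4 / 3 * Real.log T := by
    have h1 := Real.log_le_log hY0 hYT2
    rw [Real.log_mul (by positivity) hT0.ne'] at h1
    have h2 := Real.log_le_log (by positivity) hTl
    rw [Real.log_rpow (by positivity)] at h2
    linarith
  have hlogY0 : 0 ≤ Real.log Y := Real.log_nonneg (by linarith)
  -- the window
  have hsub1 : T ≤ (Y - 120 * Real.log Y) / l := by
    rw [le_div_iff₀ hl, hY]
    rw [← hY]
    nlinarith
  have hsub2 : (Y + 120 * Real.log Y) / l ≤ T + 100 * Real.log T := by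
    rw [div_le_iff₀ hl]
    nth_rw 1 [hY]
    nlinarith
  have hlow : ∀ y ∈ Icc (Y - 120 * Real.log Y) (Y + 120 * Real.log Y), ‖Mm c l m α η y‖ ≤
      C * (Y / 2) ^ (-q) * f (y / l) := by
    intro y hy
    have hy1 : Y / 2 ≤ y := by
      have := hy.1
      linarith
    have hyp : 0 < y := by linarith
    have h1 := hM y (by rw [abs_of_pos hyp]; linarith)
    rw [abs_of_pos hyp] at h1
    have h2 : y ^ (-(m - η) - 1 / 2 : ℝ) ≤ (Y / 2) ^ (-q) := by
      have : -(m - η) - 1 / 2 = -q := by rw [hq]; ring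
      rw [this]
      exact Real.rpow_le_rpow_of_nonpos (by linarith) hy1 (by linarith)
    refine h1.trans ?_
    rw [hf]
    simp only
    gcongr
  have hle : (Y - 120 * Real.log Y) ≤ (Y + 120 * Real.log Y) := by linarith
  have hMc : Continuous fun y : ℝ => ‖Mm c l m α η y‖ := by
    have := Mm_cont (bd_of_out hm hO) (abs_lt.2 hη)
    rw [← hld] at this
    exact this.norm
  have hcomp : Continuous fun y : ℝ => f (y / l) := hfc.comp (by fun_prop)
  have hint : ∫ y in (Y - 120 * Real.log Y)..(Y + 120 * Real.log Y), ‖Mm c l m α η y‖ ≤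
      C * (Y / 2) ^ (-q) * (l * ∫ t in ((Y - 120 * Real.log Y) / l)..((Y + 120 * Real.log Y) / l), f t) := by
    have h1 : ∫ y in (Y - 120 * Real.log Y)..(Y + 120 * Real.log Y), f (y / l) =
        l * ∫ t in ((Y - 120 * Real.log Y) / l)..((Y + 120 * Real.log Y) / l), f t := by
      rw [intervalIntegral.integral_comp_div _ hl.ne', smul_eq_mul]
    rw [← h1, ← intervalIntegral.integral_const_mul]
    exact intervalIntegral.integral_mono_on hle (hMc.intervalIntegrable _ _)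
      ((hcomp.const_mul _).intervalIntegrable _ _) hlow
  have hmono : ∫ t in ((Y - 120 * Real.log Y) / l)..((Y + 120 * Real.log Y) / l), f t ≤
      ∫ t in T..(T + 100 * Real.log T), f t := by
    refine intervalIntegral.integral_mono_interval hsub1 (by gcongr) hsub2 ?_ (hfc.intervalIntegrable _ _)
    exact Eventually.of_forall fun t => hf0 t
  have hYq : 0 < (Y / 2) ^ (-q) := Real.rpow_pos_of_pos (by linarith) _
  have h3 : a * Y ^ (-(5 / 2) : ℝ) ≤ C * (Y / 2) ^ (-q) * (l * ∫ t in T..(T + 100 * Real.log T), f t) := by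
    refine (hw.trans hint).trans ?_
    gcongr
  have h4 : Y ^ (-(5 / 2) : ℝ) = 2 ^ (-q) * Y ^ p * (Y / 2) ^ (-q) := by
    rw [Real.div_rpow hY0.le (by norm_num)]
    have h5 : Y ^ p * Y ^ (-q) = Y ^ (-(5 / 2) : ℝ) := by
      rw [← Real.rpow_add hY0]
      congr 1
      rw [hp, hq]
      ring
    rw [← h5]
    have h6 : (2 : ℝ) ^ (-q) ≠ 0 := by positivity
    field_simp
  have h7 : (1 / 2 : ℝ) ^ q = 2 ^ (-q) := by
    rw [one_div, Real.inv_rpow (by norm_num), Real.rpow_neg (by norm_num)]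
  have h8 : r * T ^ p ≤ Y ^ p := by
    have h9 : Y ^ p = (Y / T) ^ p * T ^ p := by
      rw [← Real.mul_rpow (by positivity) hT0.le]
      congr 1
      field_simp
    rw [h9]
    refine mul_le_mul_of_nonneg_right ?_ (by positivity)
    have h10 : l ≤ Y / T := by rw [le_div_iff₀ hT0]; exact hYT1
    have h11 : Y / T ≤ 2 * l := by rw [div_le_iff₀ hT0]; exact hYT2
    rw [hr]
    rcases le_total 0 p with h0 | h0
    · exact (min_le_left _ _).trans (Real.rpow_le_rpow hl.le h10 h0)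
    · exact (min_le_right _ _).trans (Real.rpow_le_rpow_of_nonpos (by positivity) h11 h0)
  rw [← hp]
  have h12 : a * (2 ^ (-q) * (r * T ^ p)) ≤ C * (l * ∫ t in T..(T + 100 * Real.log T), f t) := by
    have h13 : a * (2 ^ (-q) * (r * T ^ p)) * (Y / 2) ^ (-q) ≤
        C * (l * ∫ t in T..(T + 100 * Real.log T), f t) * (Y / 2) ^ (-q) := by
      calc a * (2 ^ (-q) * (r * T ^ p)) * (Y / 2) ^ (-q) ≤ a * (2 ^ (-q) * Y ^ p) * (Y / 2) ^ (-q) := by gcongr
        _ = a * Y ^ (-(5 / 2) : ℝ) := by rw [h4]; ring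
        _ ≤ _ := h3
        _ = _ := by ring
    exact le_of_mul_le_mul_right h13 hYq
  rw [h7]
  have h14 : a * 2 ^ (-q) / (C * l) * r * T ^ p = (a * (2 ^ (-q) * (r * T ^ p))) / (C * l) := by
    field_simp
  rw [h14, div_le_iff₀ (by positivity)]
  refine h12.trans (le_of_eq ?_)
  rw [hf]
  ring

end

end Pool.Agent.Q284.S
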