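import Mathlib
import Pool.Agent.Q284.S.Wq

/-!
# The Selberg class

`IsSelberg a F` lists the five axioms of Selberg for the Dirichlet series with coefficients `a`; `FE F Q lam mu ω`
is the functional equation with given data (the degree is `2 ∑ lam j`).
-/

set_option autoImplicit false

open Complex

namespace Pool.Agent.Q284.S

/-- The completed function `Φ(s) = Q^s ∏_{j < k} Γ(λ_j s + μ_j) F(s)`. -/
noncomputable def Phi (F : ℂ → ℂ) (Q : ℝ) {k : ℕ} (lam : Fin k → ℝ) (mu : Fin k → ℂ) (s : ℂ) : ℂ :=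
  (Q : ℂ) ^ s * (∏ j, Gamma ((lam j : ℂ) * s + mu j)) * F s

/-- The functional equation `Φ(s) = ω conj Φ(1 - conj s)` with `Q > 0`, `λ_j > 0`, `Re μ_j ≥ 0`, `|ω| = 1`, at
every `s ≠ 0, 1` at which no gamma factor of `Φ(s)` or of `Φ(1 - conj s)` has a pole. -/
def FE (F : ℂ → ℂ) (Q : ℝ) {k : ℕ} (lam : Fin k → ℝ) (mu : Fin k → ℂ) (ω : ℂ) : Prop :=
  0 < Q ∧ (∀ j, 0 < lam j) ∧ (∀ j, 0 ≤ (mu j).re) ∧ ‖ω‖ = 1 ∧
    ∀ s : ℂ, s ≠ 0 → s ≠ 1 →
      (∀ j, ∀ n : ℕ, (lam j : ℂ) * s + mu j ≠ -(n : ℂ)) →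
      (∀ j, ∀ n : ℕ, (lam j : ℂ) * (1 - starRingEnd ℂ s) + mu j ≠ -(n : ℂ)) →
      Phi F Q lam mu s = ω * starRingEnd ℂ (Phi F Q lam mu (1 - starRingEnd ℂ s))

/-- The Selberg class: `a` is the sequence of coefficients of the Dirichlet series and `F` is its
continuation to `ℂ \ {1}` (the value of `F` at `1` is irrelevant). -/
structure IsSelberg (a : ℕ → ℂ) (F : ℂ → ℂ) : Prop where
  /-- the Dirichlet series converges absolutely for `Re s > 1` -/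
  abs_conv : ∀ s : ℂ, 1 < s.re → LSeriesSummable a s
  /-- `F` is the sum of the Dirichlet series for `Re s > 1` -/
  eq_series : ∀ s : ℂ, 1 < s.re → F s = LSeries a s
  /-- some `(s - 1)^m F(s)` is entire of finite order -/
  continuation : ∃ (m : ℕ) (G : ℂ → ℂ), Differentiable ℂ G ∧
    (∃ A C : ℝ, 0 < A ∧ ∀ s : ℂ, ‖G s‖ ≤ C * Real.exp (‖s‖ ^ A)) ∧
    ∀ s : ℂ, s ≠ 1 → G s = (s - 1) ^ m * F s
  /-- functional equation -/
  functional : ∃ (Q : ℝ) (k : ℕ) (lam : Fin k → ℝ) (mu : Fin k → ℂ) (ω : ℂ), FE F Q lam mu ω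
  /-- Ramanujan hypothesis `a(n) ≪ n^ε` -/
  ramanujan : ∀ ε : ℝ, 0 < ε → ∃ C : ℝ, ∀ n : ℕ, 1 ≤ n → ‖a n‖ ≤ C * (n : ℝ) ^ ε
  /-- Euler product, first part -/
  a_one : a 1 = 1
  /-- Euler product: `log F(s) = ∑ b(n) n^{-s}`, `b` supported on prime powers, `b(n) ≪ n^θ`, `θ < 1/2` -/
  euler : ∃ (b : ℕ → ℂ) (θ : ℝ), θ < 1 / 2 ∧ (∀ n : ℕ, ¬ IsPrimePow n → b n = 0) ∧
    (∃ C : ℝ, ∀ n : ℕ, 1 ≤ n → ‖b n‖ ≤ C * (n : ℝ) ^ θ) ∧
    ∀ s : ℂ, 1 < s.re → LSeriesSummable b s ∧ exp (LSeries b s) = F s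

open Pool.Agent.H13R3.EM in
theorem fe_of_sel (S : Sel) (h0 : S.m0 = 0) : FE S.G S.Q S.lam S.μ S.ω := by
  refine ⟨S.Qpos, S.lampos, S.mu_re, S.norm_omega, fun s h1 h2 h3 h4 => ?_⟩
  have h := S.fe s h1 h2 h3 h4
  rw [h0] at h
  unfold Phi
  simpa only [pow_zero, div_one] using h

open Pool.Agent.H13R3.EM in
theorem isSelberg_of_sel (S : Sel) (h0 : S.m0 = 0) (ha : ∀ n, ‖S.a n‖ ≤ 1) : IsSelberg S.a S.G where
  abs_conv := fun s hs => LSeriesSummable_of_bounded_of_one_lt_re (m := 1) (fun n _ => ha n) hs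
  eq_series := fun s hs => by
    have := S.cont s hs
    rw [h0, pow_zero, one_mul] at this
    exact this
  continuation := by
    refine ⟨0, S.G, S.diff, ?_, fun s _ => by rw [pow_zero, one_mul]⟩
    obtain ⟨ρ, C, hC⟩ := S.order
    obtain ⟨M, hM⟩ := (isCompact_closedBall (0 : ℂ) 1).exists_bound_of_continuousOn S.diff.continuous.continuousOn
    refine ⟨max ρ 1, |C| + |M|, lt_of_lt_of_le one_pos (le_max_right _ _), fun s => ?_⟩
    rcases le_total ‖s‖ 1 with h | h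
    · have h1 := hM s (by simpa using h)
      have h2 : 1 ≤ Real.exp (‖s‖ ^ max ρ 1) := Real.one_le_exp (by positivity)
      have h3 : M ≤ |C| + |M| := by linarith [le_abs_self M, abs_nonneg C]
      have h4 : 0 ≤ |C| + |M| := by positivity
      calc ‖S.G s‖ ≤ (|C| + |M|) * 1 := by linarith
        _ ≤ _ := mul_le_mul_of_nonneg_left h2 h4
    · have h1 : Real.exp (‖s‖ ^ ρ) ≤ Real.exp (‖s‖ ^ max ρ 1) :=
        Real.exp_le_exp.2 (Real.rpow_le_rpow_of_exponent_le h (le_max_left _ _))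
      have h2 := Real.exp_pos (‖s‖ ^ ρ)
      calc ‖S.G s‖ ≤ C * Real.exp (‖s‖ ^ ρ) := hC s
        _ ≤ (|C| + |M|) * Real.exp (‖s‖ ^ ρ) := by
            apply mul_le_mul_of_nonneg_right _ h2.le
            linarith [le_abs_self C, abs_nonneg M]
        _ ≤ _ := mul_le_mul_of_nonneg_left h1 (by positivity)
  functional := ⟨S.Q, S.r, S.lam, S.μ, S.ω, fe_of_sel S h0⟩
  ramanujan := S.ram
  a_one := S.one
  euler := by
    obtain ⟨θ, hθ, hb⟩ := S.b_bound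
    refine ⟨S.b, θ, hθ, S.b_zero, hb, fun s hs => ?_⟩
    obtain ⟨h1, h2⟩ := S.euler s hs
    refine ⟨h1, ?_⟩
    rw [← h2]
    have := S.cont s hs
    rw [h0, pow_zero, one_mul] at this
    exact this.symm

open Pool.Agent.H13R3.EM Filter in
/-- **members of the Selberg class with large mean values in short intervals** -/
theorem members : ∃ m₀ : ℕ, 2 ≤ m₀ ∧ ∀ m : ℕ, m₀ ≤ m → ∃ S : Sel, S.m0 = 0 ∧ S.deg = 4 * m + 3 ∧
    (∀ n : ℕ, (S.a n).im = 0 ∧ ‖S.a n‖ ≤ 1) ∧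
    ∀ σ : ℝ, 3 / (2 * (4 * m + 3)) < σ → σ < 1 - 3 / (2 * (4 * m + 3)) → ∃ c : ℝ, 0 < c ∧ ∀ᶠ T : ℝ in atTop,
      c * T ^ ((4 * m + 3) / 2 * (1 - σ) - 11 / 4) ≤ ∫ t in T..(T + 100 * Real.log T), ‖S.G (σ + t * I)‖ := by
  obtain ⟨m₀, hm₀, hcore⟩ := core_rough
  refine ⟨m₀, hm₀, fun m hm => ?_⟩
  obtain ⟨c, A, β, α, hO⟩ := hcore m hm 1 one_pos
  have hm1 : 1 ≤ m := by omega
  obtain ⟨S, h0, hd, ha⟩ := toSel hm1 hO
  refine ⟨S, h0, by rw [hd]; push_cast; ring, fun n => ?_, fun σ h1 h2 => ?_⟩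
  · rw [ha n]
    refine ⟨Complex.ofReal_im _, ?_⟩
    rw [Complex.norm_real, Real.norm_eq_abs]
    exact abs_fr_le hO.hβ n
  · have hl := lam_pos m
    have hmR : (0 : ℝ) < 4 * m + 3 := by positivity
    have hll : lamH m = (4 * m + 3) / 2 := by unfold lamH; ring
    have hser : ∀ s : ℂ, 1 < s.re → S.G s = LSeries (ff m β) s := by
      intro s hs
      have h3 := S.cont s hs
      rw [h0, pow_zero, one_mul] at h3
      have h4 : S.a = ff m β := funext ha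
      rw [h4] at h3
      exact h3
    obtain ⟨η, hη⟩ : ∃ η : ℝ, η = lamH m * (σ - 1 / 2) := ⟨_, rfl⟩
    have hηm : |η| < m := by
      rw [hη, hll, abs_lt]
      have h5 : (4 * (m : ℝ) + 3) / 2 * (3 / (2 * (4 * m + 3))) = 3 / 4 := by field_simp; norm_num
      constructor <;> nlinarith
    obtain ⟨a, ha0, hT⟩ := mean_low hm1 hO S.diff hser hηm
    refine ⟨a, ha0, ?_⟩
    have e1 : (m : ℝ) - η - 2 = (4 * m + 3) / 2 * (1 - σ) - 11 / 4 := by
      rw [hη, hll]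
      ring
    have e2 : 1 / 2 + η / lamH m = σ := by
      rw [hη]
      field_simp
      ring
    rw [e1, e2] at hT
    exact hT

end Pool.Agent.Q284.S
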