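import Mathlib
import Pool.Agent.Q284.S.Wq

/-!
# Polynomial growth in the half-plane `Re s ≥ 1/2`
-/

set_option autoImplicit false

namespace Pool.Agent.Q284.S

open Filter Topology MeasureTheory Set Complex Asymptotics
open Pool.Agent.H469R10.HO
open Pool.Agent.H13R3.EM

/-- Phragmén–Lindelöf in a strip, polynomial weight -/
theorem strip {G : ℂ → ℂ} (hG : Differentiable ℂ G) {A C₀ : ℝ} (hA : 0 < A)
    (hgr : ∀ s : ℂ, ‖G s‖ ≤ C₀ * Real.exp (‖s‖ ^ A)) {a b : ℝ} (hab : a < b) (ha : 0 ≤ a) (N : ℕ) {C : ℝ}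
    (h1 : ∀ s : ℂ, s.re = a → ‖G s‖ ≤ C * ‖s + 1‖ ^ N)
    (h2 : ∀ s : ℂ, s.re = b → ‖G s‖ ≤ C * ‖s + 1‖ ^ N) {s : ℂ} (hs1 : a ≤ s.re) (hs2 : s.re ≤ b) :
    ‖G s‖ ≤ C * ‖s + 1‖ ^ N := by
  have hne : ∀ z : ℂ, 0 ≤ z.re → z + 1 ≠ 0 := by
    intro z hz h
    have := congrArg Complex.re h
    simp at this
    linarith
  have hn1 : ∀ z : ℂ, 0 ≤ z.re → 1 ≤ ‖z + 1‖ := by
    intro z hz
    refine le_trans ?_ (Complex.abs_re_le_norm _)
    rw [Complex.add_re, Complex.one_re, abs_of_nonneg (by linarith)]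
    linarith
  obtain ⟨f, hf⟩ : ∃ f : ℂ → ℂ, f = fun z => G z / (z + 1) ^ N := ⟨_, rfl⟩
  have hfn : ∀ z : ℂ, ‖f z‖ = ‖G z‖ / ‖z + 1‖ ^ N := by
    intro z
    rw [hf]
    simp only
    rw [norm_div, norm_pow]
  have hd : DiffContOnCl ℂ f (re ⁻¹' Set.Ioo a b) := by
    have hop : ∀ z : ℂ, 0 ≤ z.re → DifferentiableAt ℂ f z := by
      intro z hz
      rw [hf]
      apply DifferentiableAt.div (hG z)
      · fun_prop
      · exact pow_ne_zero _ (hne z hz)
    refine ⟨fun z hz => (hop z (by have := hz.1; linarith)).differentiableWithinAt, fun z hz => ?_⟩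
    have hz' : z ∈ closure (re ⁻¹' Set.Ioo a b) := hz
    have hcl : closure (re ⁻¹' Set.Ioo a b) ⊆ {z : ℂ | a ≤ z.re} :=
      closure_minimal (fun w hw => le_of_lt hw.1) (isClosed_le continuous_const Complex.continuous_re)
    have := hcl hz'
    exact (hop z (by have h3 : a ≤ z.re := this; linarith)).continuousAt.continuousWithinAt
  obtain ⟨c, hc⟩ : ∃ c : ℝ, c = Real.pi / (2 * (b - a)) := ⟨_, rfl⟩
  have hba : 0 < b - a := by linarith
  have hc0 : 0 < c := by rw [hc]; positivity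
  obtain ⟨n, hn⟩ : ∃ n : ℕ, n = ⌈A⌉₊ := ⟨_, rfl⟩
  have hAn : A ≤ n := by rw [hn]; exact Nat.le_ceil A
  have hfac : (0 : ℝ) < (n.factorial : ℝ) := by exact_mod_cast n.factorial_pos
  have hB : ∃ c < Real.pi / (b - a), ∃ B, f =O[comap (_root_.abs ∘ im) atTop ⊓ 𝓟 (re ⁻¹' Set.Ioo a b)]
      fun z ↦ Real.exp (B * Real.exp (c * |z.im|)) := by
    refine ⟨c, ?_, n.factorial * Real.exp (c * (b + 1)) / c ^ n, ?_⟩
    · rw [hc, div_lt_div_iff₀ (by positivity) hba]
      nlinarith [Real.pi_pos]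
    · rw [isBigO_iff]
      refine ⟨|C₀|, ?_⟩
      have : ∀ᶠ z : ℂ in comap (_root_.abs ∘ im) atTop ⊓ 𝓟 (re ⁻¹' Set.Ioo a b), z ∈ re ⁻¹' Set.Ioo a b :=
        mem_inf_of_right (mem_principal_self _)
      filter_upwards [this] with z hz
      have hz1 : a < z.re := hz.1
      have hz2 : z.re < b := hz.2
      rw [hfn, Real.norm_eq_abs, abs_of_pos (Real.exp_pos _)]
      have e1 : ‖G z‖ ≤ |C₀| * Real.exp (‖z‖ ^ A) := (hgr z).trans
        (mul_le_mul_of_nonneg_right (le_abs_self _) (Real.exp_pos _).le)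
      have e3 : 1 ≤ ‖z + 1‖ ^ N := one_le_pow₀ (hn1 z (by linarith))
      have e4 : ‖z‖ ^ A ≤ n.factorial * Real.exp (c * (b + 1)) / c ^ n * Real.exp (c * |z.im|) := by
        have h3 : ‖z‖ + 1 ≤ b + 1 + |z.im| := by
          have := Complex.norm_le_abs_re_add_abs_im z
          rw [abs_of_nonneg (show 0 ≤ z.re by linarith)] at this
          linarith
        have h4 : ‖z‖ ^ A ≤ (‖z‖ + 1) ^ n := by
          calc ‖z‖ ^ A ≤ (‖z‖ + 1) ^ A := Real.rpow_le_rpow (norm_nonneg _) (by linarith) hA.le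
            _ ≤ (‖z‖ + 1) ^ (n : ℝ) := Real.rpow_le_rpow_of_exponent_le (by linarith [norm_nonneg z]) hAn
            _ = _ := Real.rpow_natCast _ _
        have hb0 : 0 < b := by linarith
        have h5 := Real.pow_div_factorial_le_exp (c * (b + 1 + |z.im|)) (by positivity) n
        rw [div_le_iff₀ hfac] at h5
        have h7 : Real.exp (c * (b + 1 + |z.im|)) = Real.exp (c * (b + 1)) * Real.exp (c * |z.im|) := by
          rw [← Real.exp_add]; congr 1; ring
        rw [h7, mul_pow] at h5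
        calc ‖z‖ ^ A ≤ (b + 1 + |z.im|) ^ n :=
              h4.trans (pow_le_pow_left₀ (by positivity) h3 n)
          _ = c ^ n * (b + 1 + |z.im|) ^ n / c ^ n := by field_simp
          _ ≤ Real.exp (c * (b + 1)) * Real.exp (c * |z.im|) * n.factorial / c ^ n := by gcongr
          _ = _ := by ring
      calc ‖G z‖ / ‖z + 1‖ ^ N ≤ ‖G z‖ := div_le_self (norm_nonneg _) e3
        _ ≤ |C₀| * Real.exp (‖z‖ ^ A) := e1
        _ ≤ _ := mul_le_mul_of_nonneg_left (Real.exp_le_exp.2 e4) (abs_nonneg _)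
  have key := PhragmenLindelof.vertical_strip (C := C) hd hB (fun z hz => by
      rw [hfn, div_le_iff₀ (pow_pos (by have := hn1 z (by linarith); linarith) _)]
      exact h1 z hz) (fun z hz => by
      rw [hfn, div_le_iff₀ (pow_pos (by have := hn1 z (by linarith); linarith) _)]
      exact h2 z hz) hs1 hs2
  rw [hfn, div_le_iff₀ (pow_pos (by have := hn1 s (by linarith); linarith) _)] at key
  exact key

lemma norm_sin_le (z : ℂ) : ‖Complex.sin z‖ ≤ Real.exp |z.im| := by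
  have h := norm_cos_le (z - Real.pi / 2)
  rw [Complex.cos_sub_pi_div_two] at h
  have : (z - Real.pi / 2).im = z.im := by
    have : (z - Real.pi / 2 : ℂ) = z - ((Real.pi / 2 : ℝ) : ℂ) := by push_cast; rfl
    rw [this, sub_im, ofReal_im, sub_zero]
  rwa [this] at h

/-- lower bound for the gamma function on the lines `Re w = -k` -/
lemma Gamma_low (k : ℕ) : ∃ C : ℝ, 0 < C ∧ ∀ y : ℝ, 1 ≤ |y| →
    C * |y| ^ (-(k : ℝ) - 1 / 2) * Real.exp (-(Real.pi / 2 * |y|)) ≤ ‖Gamma ((-(k : ℝ) : ℝ) + y * I)‖ := by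
  induction k with
  | zero =>
    refine ⟨1, one_pos, fun y hy => ?_⟩
    have hy0 : 0 < |y| := by linarith
    have hyne : y ≠ 0 := abs_pos.1 hy0
    rw [Nat.cast_zero, neg_zero, ofReal_zero, zero_add, one_mul, zero_sub]
    have h1 := Complex.Gamma_mul_Gamma_one_sub ((y : ℂ) * I)
    have h2 : Gamma (1 - (y : ℂ) * I) = -((y : ℂ) * I) * Gamma (-((y : ℂ) * I)) := by
      rw [← Complex.Gamma_add_one]
      · congr 1
        ring
      · simp [hyne]
    have h3 : Gamma (-((y : ℂ) * I)) = starRingEnd ℂ (Gamma ((y : ℂ) * I)) := by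
      rw [← Complex.Gamma_conj]
      congr 1
      simp
    have h4 := congrArg norm h1
    rw [h2, h3, norm_mul, norm_mul, norm_neg, norm_mul, norm_I, mul_one, norm_real, Real.norm_eq_abs,
      RCLike.norm_conj, norm_div, norm_real, Real.norm_of_nonneg Real.pi_pos.le] at h4
    have h5 : ‖Complex.sin (Real.pi * ((y : ℂ) * I))‖ ≤ Real.exp (Real.pi * |y|) := by
      refine (norm_sin_le _).trans (le_of_eq ?_)
      have : (Real.pi * ((y : ℂ) * I)).im = Real.pi * y := by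
        have : (Real.pi * ((y : ℂ) * I)) = ((Real.pi * y : ℝ) : ℂ) * I := by push_cast; ring
        rw [this]
        simp
      rw [this, abs_mul, abs_of_pos Real.pi_pos]
    have h6 : Complex.sin (Real.pi * ((y : ℂ) * I)) ≠ 0 := by
      intro h0
      rw [h0, norm_zero, div_zero] at h4
      have h7 : Gamma ((y : ℂ) * I) ≠ 0 := by
        apply Complex.Gamma_ne_zero
        intro k hk
        have := congrArg Complex.im hk
        simp at this
        exact hyne this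
      have : ‖Gamma ((y : ℂ) * I)‖ * (|y| * ‖Gamma ((y : ℂ) * I)‖) ≠ 0 :=
        mul_ne_zero (norm_ne_zero_iff.2 h7) (mul_ne_zero hy0.ne' (norm_ne_zero_iff.2 h7))
      exact this h4
    have h7 : 0 < ‖Complex.sin (Real.pi * ((y : ℂ) * I))‖ := norm_pos_iff.2 h6
    -- squares
    refine le_of_sq_le_sq ?_ (norm_nonneg _)
    have h8 : (|y| ^ (-(1 / 2) : ℝ) * Real.exp (-(Real.pi / 2 * |y|))) ^ 2 = |y|⁻¹ * Real.exp (-(Real.pi * |y|)) := by
      rw [mul_pow, ← Real.rpow_natCast, ← Real.rpow_mul hy0.le, ← Real.exp_nat_mul, ← Real.rpow_neg_one]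
      congr 2
      · norm_num
      · push_cast; ring
    rw [h8]
    have h9 : ‖Gamma ((y : ℂ) * I)‖ ^ 2 = |y|⁻¹ * (Real.pi / ‖Complex.sin (Real.pi * ((y : ℂ) * I))‖) := by
      rw [← h4]
      field_simp
    rw [h9, Real.exp_neg]
    refine mul_le_mul_of_nonneg_left ?_ (by positivity)
    rw [le_div_iff₀ h7, inv_mul_le_iff₀ (Real.exp_pos _)]
    nlinarith [Real.pi_gt_three, Real.exp_pos (Real.pi * |y|)]
  | succ k ih =>
    obtain ⟨C, hC, h⟩ := ih
    refine ⟨C / (k + 2), by positivity, fun y hy => ?_⟩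
    have hy0 : 0 < |y| := by linarith
    obtain ⟨s, hs⟩ : ∃ s : ℂ, s = ((-((k + 1 : ℕ) : ℝ) : ℝ) : ℂ) + y * I := ⟨_, rfl⟩
    have him : s.im = y := by rw [hs]; simp
    have hs0 : s ≠ 0 := by
      intro h0
      rw [h0, zero_im] at him
      rw [← him, abs_zero] at hy0
      exact lt_irrefl _ hy0
    have h1 := Complex.Gamma_add_one s hs0
    have h2 := h y hy
    have h3 : ((-(k : ℝ) : ℝ) : ℂ) + y * I = s + 1 := by rw [hs]; push_cast; ring
    rw [h3, h1, norm_mul] at h2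
    rw [← hs]
    have h4 : ‖s‖ ≤ (k + 2) * |y| := by
      rw [hs]
      refine (norm_add_le _ _).trans ?_
      rw [norm_real, norm_mul, norm_I, norm_real, Real.norm_eq_abs, Real.norm_eq_abs, abs_neg, Nat.abs_cast]
      push_cast
      nlinarith
    have h5 : C * |y| ^ (-(k : ℝ) - 1 / 2) * Real.exp (-(Real.pi / 2 * |y|)) ≤ ((k + 2) * |y|) * ‖Gamma s‖ :=
      h2.trans (mul_le_mul_of_nonneg_right h4 (norm_nonneg _))
    have h6 : |y| ^ (-(k : ℝ) - 1 / 2) = |y| * |y| ^ (-((k + 1 : ℕ) : ℝ) - 1 / 2) := by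
      rw [show (-(k : ℝ) - 1 / 2) = 1 + (-((k + 1 : ℕ) : ℝ) - 1 / 2) by push_cast; ring, Real.rpow_add hy0,
        Real.rpow_one]
    rw [h6] at h5
    have h7 : |y| * (C / (k + 2) * |y| ^ (-((k + 1 : ℕ) : ℝ) - 1 / 2) * Real.exp (-(Real.pi / 2 * |y|))) ≤
        |y| * ‖Gamma s‖ := by
      have hk : (0 : ℝ) < k + 2 := by positivity
      rw [← mul_le_mul_iff_right₀ hk]
      calc (k + 2) * (|y| * (C / (k + 2) * |y| ^ (-((k + 1 : ℕ) : ℝ) - 1 / 2) * Real.exp (-(Real.pi / 2 * |y|)))) =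
          C * (|y| * |y| ^ (-((k + 1 : ℕ) : ℝ) - 1 / 2)) * Real.exp (-(Real.pi / 2 * |y|)) := by
            field_simp
        _ ≤ ((k + 2) * |y|) * ‖Gamma s‖ := h5
        _ = _ := by ring
    exact le_of_mul_le_mul_left h7 hy0

/-- lower bound for the gamma factor of the connecting formula on `Re w = -k` -/
lemma gam_cos_low (k : ℕ) : ∃ C : ℝ, 0 < C ∧ ∀ y : ℝ, 1 ≤ |y| → C * |y| ^ (-(k : ℝ) - 1 / 2) ≤
    ‖Gamma (((-(k : ℝ) : ℝ) : ℂ) + y * I) * Complex.cos (Real.pi * (((-(k : ℝ) : ℝ) : ℂ) + y * I) / 2)‖ := by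
  obtain ⟨C, hC, h⟩ := Gamma_low k
  refine ⟨C / 4, by positivity, fun y hy => ?_⟩
  have h1 := h y hy
  obtain ⟨z, hz⟩ : ∃ z : ℂ, z = Real.pi * (((-(k : ℝ) : ℝ) : ℂ) + y * I) / 2 := ⟨_, rfl⟩
  have him : z.im = Real.pi / 2 * y := by
    have : z = ((Real.pi / 2 * (-(k : ℝ)) : ℝ) : ℂ) + ((Real.pi / 2 * y : ℝ) : ℂ) * I := by
      rw [hz]
      push_cast
      ring
    rw [this]
    simp
  have h2 : Real.exp (Real.pi / 2 * |y|) / 4 ≤ ‖Complex.cos z‖ := by
    have e1 : ‖Complex.exp (z * I)‖ = Real.exp (-(Real.pi / 2 * y)) := by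
      rw [Complex.norm_exp, mul_I_re, him]
    have e2 : ‖Complex.exp (-z * I)‖ = Real.exp (Real.pi / 2 * y) := by
      rw [Complex.norm_exp, mul_I_re, neg_im, neg_neg, him]
    have e3 : ‖Complex.cos z‖ = ‖Complex.exp (z * I) + Complex.exp (-z * I)‖ / 2 := by
      rw [Complex.cos, norm_div]
      simp
    rw [e3]
    have hb : (1 : ℝ) ≤ Real.pi / 2 * |y| := by nlinarith [Real.pi_gt_three]
    have e4 : Real.exp (-(Real.pi / 2 * |y|)) ≤ Real.exp (Real.pi / 2 * |y|) / 2 := by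
      rw [Real.exp_neg, inv_le_iff_one_le_mul₀ (Real.exp_pos _)]
      have : 2 ≤ Real.exp (Real.pi / 2 * |y|) := by
        have := Real.add_one_le_exp (Real.pi / 2 * |y|)
        linarith
      nlinarith
    rcases le_total 0 y with h0 | h0
    · have e5 := norm_sub_norm_le (Complex.exp (-z * I)) (-Complex.exp (z * I))
      rw [norm_neg, sub_neg_eq_add, e1, e2, add_comm (Complex.exp (-z * I))] at e5
      rw [abs_of_nonneg h0] at e4 ⊢
      linarith
    · have e5 := norm_sub_norm_le (Complex.exp (z * I)) (-Complex.exp (-z * I))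
      rw [norm_neg, sub_neg_eq_add, e1, e2] at e5
      rw [abs_of_nonpos h0] at e4 ⊢
      have e6 : Real.pi / 2 * -y = -(Real.pi / 2 * y) := by ring
      rw [e6, neg_neg] at e4
      rw [e6]
      linarith
  rw [norm_mul, ← hz]
  calc C / 4 * |y| ^ (-(k : ℝ) - 1 / 2) = (C * |y| ^ (-(k : ℝ) - 1 / 2) * Real.exp (-(Real.pi / 2 * |y|))) *
      (Real.exp (Real.pi / 2 * |y|) / 4) := by
        have : Real.exp (-(Real.pi / 2 * |y|)) * Real.exp (Real.pi / 2 * |y|) = 1 := by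
          rw [← Real.exp_add]; simp
        linear_combination (-(C / 4 * |y| ^ (-(k : ℝ) - 1 / 2))) * this
    _ ≤ _ := mul_le_mul h1 h2 (by positivity) (norm_nonneg _)

end Pool.Agent.Q284.S
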