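import Mathlib
import Pool.Agent.Q284.S.Gr
import Pool.Agent.Q284.S.Cls

/-!
# Growth of the members
-/

set_option autoImplicit false

namespace Pool.Agent.Q284.S

open Filter Topology MeasureTheory Set Complex Asymptotics
open Pool.Agent.H469R10.HO
open Pool.Agent.H13R3.EM

/-- `|log F|` is bounded for `Re s ≥ 3/2` -/
lemma right_bounds (S : Sel) (h0 : S.m0 = 0) : ∃ D : ℝ, 0 ≤ D ∧ ∀ s : ℂ, 3 / 2 ≤ s.re →
    Real.exp (-D) ≤ ‖S.G s‖ ∧ ‖S.G s‖ ≤ Real.exp D := by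
  have hsum := (S.euler (3 / 2 : ℂ) (by norm_num)).1
  refine ⟨∑' n, ‖LSeries.term S.b (3 / 2 : ℂ) n‖, tsum_nonneg fun _ => norm_nonneg _, fun s hs => ?_⟩
  have hs1 : 1 < s.re := by linarith
  have h1 := S.cont s hs1
  rw [h0, pow_zero, one_mul, (S.euler s hs1).2] at h1
  have h2 : ‖LSeries S.b s‖ ≤ ∑' n, ‖LSeries.term S.b (3 / 2 : ℂ) n‖ := by
    unfold LSeries
    refine tsum_of_norm_bounded hsum.norm.hasSum fun n => ?_
    exact LSeries.norm_term_le_of_re_le_re S.b (by norm_num; linarith) n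
  rw [h1, Complex.norm_exp]
  have h3 := Complex.abs_re_le_norm (LSeries S.b s)
  rw [abs_le] at h3
  exact ⟨Real.exp_le_exp.2 (by linarith), Real.exp_le_exp.2 (by linarith)⟩

lemma order_pos (S : Sel) : ∃ A C : ℝ, 0 < A ∧ ∀ s : ℂ, ‖S.G s‖ ≤ C * Real.exp (‖s‖ ^ A) := by
  obtain ⟨ρ, C, hC⟩ := S.order
  obtain ⟨M, hM⟩ := (isCompact_closedBall (0 : ℂ) 1).exists_bound_of_continuousOn S.diff.continuous.continuousOn
  refine ⟨max ρ 1, |C| + |M|, lt_of_lt_of_le one_pos (le_max_right _ _), fun s => ?_⟩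
  rcases le_total ‖s‖ 1 with h | h
  · have h1 := hM s (by simpa using h)
    have h2 : 1 ≤ Real.exp (‖s‖ ^ max ρ 1) := Real.one_le_exp (by positivity)
    have h3 : M ≤ |C| + |M| := by linarith [le_abs_self M, abs_nonneg C]
    have h4 : 0 ≤ |C| + |M| := by positivity
    calc ‖S.G s‖ ≤ (|C| + |M|) * 1 := by linarith
      _ ≤ _ := mul_le_mul_of_nonneg_left h2 h4
  · have h1 : Real.exp (‖s‖ ^ ρ) ≤ Real.exp (‖s‖ ^ max ρ 1) :=
      Real.exp_le_exp.2 (Real.rpow_le_rpow_of_exponent_le h (le_max_left _ _))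
    have h2 := Real.exp_pos (‖s‖ ^ ρ)
    calc ‖S.G s‖ ≤ C * Real.exp (‖s‖ ^ ρ) := hC s
      _ ≤ (|C| + |M|) * Real.exp (‖s‖ ^ ρ) := by
          apply mul_le_mul_of_nonneg_right _ h2.le
          linarith [le_abs_self C, abs_nonneg M]
      _ ≤ _ := mul_le_mul_of_nonneg_left h1 (by positivity)

/-- polynomial growth for `Re s ≥ 1/2` -/
theorem growth {m : ℕ} {e c A : ℝ} {β α : ℕ → ℝ} (hm : 1 ≤ m) (hO : Out m e c A β α) (S : Sel) (h0 : S.m0 = 0)
    (ha : ∀ n, S.a n = ((fr m β n : ℝ) : ℂ)) : ∃ K : ℝ, 0 < K ∧ ∀ s : ℂ, 1 / 2 ≤ s.re →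
      ‖S.G s‖ ≤ K * ‖s + 1‖ ^ (m + 1) := by
  have hc := hO.hc
  have hl := lam_pos m
  have hlc : (lamH m : ℂ) ≠ 0 := by exact_mod_cast hl.ne'
  have hl1 := lam_ge m
  have hmR : (1 : ℝ) ≤ m := by exact_mod_cast hm
  have hser : ∀ s : ℂ, 1 < s.re → S.G s = LSeries (ff m β) s := by
    intro s hs
    have h3 := S.cont s hs
    rw [h0, pow_zero, one_mul] at h3
    have h4 : S.a = ff m β := funext ha
    rw [h4] at h3
    exact h3
  have hn1 : ∀ z : ℂ, 0 ≤ z.re → 1 ≤ ‖z + 1‖ := by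
    intro z hz
    refine le_trans ?_ (Complex.abs_re_le_norm _)
    rw [Complex.add_re, Complex.one_re, abs_of_nonneg (by linarith)]
    linarith
  obtain ⟨D, hD, hR⟩ := right_bounds S h0
  obtain ⟨B, hB0, hB⟩ := Mm_le (c := c) (lam := lamH m) (m := m) (α := α) 0
  obtain ⟨C, hC, hlow⟩ := gam_cos_low m
  obtain ⟨K₁, hK₁⟩ := (isCompact_closedBall (0 : ℂ) 2).exists_bound_of_continuousOn S.diff.continuous.continuousOn
  obtain ⟨K₂, hK₂⟩ : ∃ K₂ : ℝ, K₂ = B / (C * c ^ (m : ℝ)) * lamH m ^ (m + 1) := ⟨_, rfl⟩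
  have hK₂0 : 0 < K₂ := by rw [hK₂]; positivity
  obtain ⟨K, hK⟩ : ∃ K : ℝ, K = |K₁| + K₂ + Real.exp D := ⟨_, rfl⟩
  have hK1 : |K₁| ≤ K := by rw [hK]; linarith [Real.exp_pos D]
  have hK2 : K₂ ≤ K := by rw [hK]; linarith [Real.exp_pos D, abs_nonneg K₁]
  have hK3 : Real.exp D ≤ K := by rw [hK]; linarith [abs_nonneg K₁]
  have hK0 : 0 < K := lt_of_lt_of_le (Real.exp_pos D) hK3
  -- the right half-plane
  have hright : ∀ s : ℂ, 3 / 2 ≤ s.re → ‖S.G s‖ ≤ K * ‖s + 1‖ ^ (m + 1) := by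
    intro s hs
    have h1 : 1 ≤ ‖s + 1‖ ^ (m + 1) := one_le_pow₀ (hn1 s (by linarith))
    calc ‖S.G s‖ ≤ Real.exp D := (hR s hs).2
      _ ≤ K * 1 := by rw [mul_one]; exact hK3
      _ ≤ _ := mul_le_mul_of_nonneg_left h1 hK0.le
  -- the critical line
  have hline : ∀ s : ℂ, s.re = 1 / 2 → ‖S.G s‖ ≤ K * ‖s + 1‖ ^ (m + 1) := by
    intro s hs
    have h1 : 1 ≤ ‖s + 1‖ := hn1 s (by linarith)
    have h1' : 1 ≤ ‖s + 1‖ ^ (m + 1) := one_le_pow₀ h1
    obtain ⟨y, hy⟩ : ∃ y : ℝ, y = lamH m * s.im := ⟨_, rfl⟩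
    have hsy : s = ((1 / 2 + 0 / lamH m : ℝ) : ℂ) + ((y / lamH m : ℝ) : ℂ) * I := by
      have e1 : y / lamH m = s.im := by rw [hy]; field_simp
      rw [e1, zero_div, add_zero]
      apply Complex.ext
      · simp [hs]
      · simp
    rcases le_total |y| 1 with hy1 | hy1
    · have hs2 : s ∈ Metric.closedBall (0 : ℂ) 2 := by
        rw [mem_closedBall_zero_iff]
        have h2 := Complex.norm_le_abs_re_add_abs_im s
        have h3 : |s.im| ≤ 1 := by
          rw [hy, abs_mul, abs_of_pos hl] at hy1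
          nlinarith [abs_nonneg s.im]
        rw [hs, abs_of_pos (by norm_num : (0 : ℝ) < 1 / 2)] at h2
        linarith
      calc ‖S.G s‖ ≤ K₁ := hK₁ s hs2
        _ ≤ K * 1 := by rw [mul_one]; exact (le_abs_self _).trans hK1
        _ ≤ _ := mul_le_mul_of_nonneg_left h1' hK0.le
    · have hy0 : 0 < |y| := by linarith
      obtain ⟨w, hw⟩ : ∃ w : ℂ, w = ((-(m : ℝ) : ℝ) : ℂ) + y * I := ⟨_, rfl⟩
      have hre : w.re = -(m : ℝ) := by rw [hw]; simp
      have him : w.im = y := by rw [hw]; simp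
      have hcon := connect (bd_of_out hm hO) (GG_diff S.diff hc) (R := lamH m) (fun z hz => GG_series hO hser hz)
        (w := w) (by rw [hre]; linarith) (by rw [hre]; linarith)
      have hΓ : Gamma w ≠ 0 := by
        apply Complex.Gamma_ne_zero
        intro k hk
        have : w.im = 0 := by rw [hk]; simp
        rw [him] at this
        rw [this, abs_zero] at hy0
        exact lt_irrefl _ hy0
      have h2 : Mm c (lamH m) m α 0 y = (Gamma w * Complex.cos (Real.pi * w / 2)) * GG m c S.G w := by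
        have e1 : ((-((m : ℝ) - 0) : ℝ) : ℂ) + y * I = w := by rw [hw, sub_zero]
        unfold Mm
        rw [e1, mul_assoc, ← hcon]
        field_simp
      have h3 : ‖GG m c S.G w‖ = c ^ (m : ℝ) * ‖S.G s‖ := by
        unfold GG
        rw [norm_mul, norm_cpow_eq_rpow_re_of_pos hc, neg_re, hre, neg_neg]
        congr 3
        rw [hsy, hw]
        unfold kap
        push_cast
        field_simp
        ring
      have h4 := hlow y hy1
      rw [← hw] at h4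
      have h5 := hB y
      rw [h2, norm_mul, h3] at h5
      have h6 : C * |y| ^ (-(m : ℝ) - 1 / 2) * (c ^ (m : ℝ) * ‖S.G s‖) ≤ B :=
        (mul_le_mul_of_nonneg_right h4 (by positivity)).trans h5
      have h7 : |y| ^ (-(m : ℝ) - 1 / 2) = (|y| ^ ((m : ℝ) + 1 / 2))⁻¹ := by
        rw [← Real.rpow_neg hy0.le]
        congr 1
        ring
      have h8 : |y| ^ ((m : ℝ) + 1 / 2) ≤ (lamH m * ‖s + 1‖) ^ (m + 1) := by
        have e1 : |y| ≤ lamH m * ‖s + 1‖ := by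
          rw [hy, abs_mul, abs_of_pos hl]
          refine mul_le_mul_of_nonneg_left ?_ hl.le
          have := Complex.abs_im_le_norm (s + 1)
          rwa [add_im, one_im, add_zero] at this
        calc |y| ^ ((m : ℝ) + 1 / 2) ≤ |y| ^ ((m + 1 : ℕ) : ℝ) :=
              Real.rpow_le_rpow_of_exponent_le hy1 (by push_cast; linarith)
          _ = |y| ^ (m + 1) := Real.rpow_natCast _ _
          _ ≤ _ := pow_le_pow_left₀ hy0.le e1 _
      have h9 : ‖S.G s‖ ≤ B / (C * c ^ (m : ℝ)) * |y| ^ ((m : ℝ) + 1 / 2) := by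
        rw [h7] at h6
        have hp : 0 < |y| ^ ((m : ℝ) + 1 / 2) := Real.rpow_pos_of_pos hy0 _
        have hcm : 0 < c ^ (m : ℝ) := Real.rpow_pos_of_pos hc _
        rw [div_mul_eq_mul_div, le_div_iff₀ (by positivity)]
        have h10 := mul_le_mul_of_nonneg_right h6 hp.le
        calc ‖S.G s‖ * (C * c ^ (m : ℝ)) =
            C * (|y| ^ ((m : ℝ) + 1 / 2))⁻¹ * (c ^ (m : ℝ) * ‖S.G s‖) * |y| ^ ((m : ℝ) + 1 / 2) := by
              field_simp
          _ ≤ _ := h10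
      calc ‖S.G s‖ ≤ B / (C * c ^ (m : ℝ)) * |y| ^ ((m : ℝ) + 1 / 2) := h9
        _ ≤ B / (C * c ^ (m : ℝ)) * (lamH m * ‖s + 1‖) ^ (m + 1) := mul_le_mul_of_nonneg_left h8 (by positivity)
        _ = K₂ * ‖s + 1‖ ^ (m + 1) := by rw [hK₂, mul_pow]; ring
        _ ≤ _ := mul_le_mul_of_nonneg_right hK2 (by positivity)
  refine ⟨K, hK0, fun s hs => ?_⟩
  rcases le_total (3 / 2) s.re with h | h
  · exact hright s h
  · obtain ⟨A', C', hA', hgr⟩ := order_pos S
    exact strip S.diff hA' hgr (a := 1 / 2) (b := 3 / 2) (by norm_num) (by norm_num) (m + 1) hline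
      (fun z hz => hright z (by rw [hz])) hs h

end Pool.Agent.Q284.S
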