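import Mathlib
import Pool.Agent.W186.LH.Sab
import Pool.Agent.Q284.S.Wp

/-!
# Large mean values force many zeros
-/

set_option autoImplicit false

namespace Pool.Agent.Q284.S

open Filter Topology MeasureTheory Set Complex

lemma ord_shift (G : ℂ → ℂ) (b u : ℂ) :
    analyticOrderNatAt (fun z => G (z + b)) u = analyticOrderNatAt G (u + b) := by
  have h1 : AnalyticAt ℂ (fun z : ℂ => z + b) u := by fun_prop
  have h2 : deriv (fun z : ℂ => z + b) u ≠ 0 := by
    have : HasDerivAt (fun z : ℂ => z + b) 1 u := (hasDerivAt_id u).add_const b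
    rw [this.deriv]
    exact one_ne_zero
  have h3 := analyticOrderAt_comp_of_deriv_ne_zero (f := G) h1 h2
  unfold analyticOrderNatAt
  rw [← h3]
  rfl

lemma pow_small (K : ℝ) (N : ℕ) : ∀ᶠ T : ℝ in atTop, K * (4 * T) ^ N ≤ T ^ (N + 1) := by
  filter_upwards [eventually_ge_atTop (|K| * 4 ^ N), eventually_ge_atTop 0] with T hT hT0
  have h1 : 0 ≤ T ^ N := by positivity
  calc K * (4 * T) ^ N ≤ |K| * (4 * T) ^ N := mul_le_mul_of_nonneg_right (le_abs_self K) (by positivity)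
    _ = (|K| * 4 ^ N) * T ^ N := by rw [mul_pow]; ring
    _ ≤ T * T ^ N := mul_le_mul_of_nonneg_right hT h1
    _ = _ := by ring

/-- large mean values in short intervals force many zeros -/
theorem zeros_window {F : ℂ → ℂ} (hF : Differentiable ℂ F) {K D : ℝ} {N : ℕ} (hK : 0 < K)
    (hgr : ∀ s : ℂ, 1 / 2 ≤ s.re → ‖F s‖ ≤ K * ‖s + 1‖ ^ N)
    (hR : ∀ s : ℂ, 3 / 2 ≤ s.re → Real.exp (-D) ≤ ‖F s‖ ∧ ‖F s‖ ≤ Real.exp D)
    {σ₀ σ₁ : ℝ} (h0 : 1 / 2 < σ₀) (h01 : σ₀ < σ₁) (h1 : σ₁ < 1) {p c : ℝ} (hp : 0 < p) (hc : 0 < c)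
    (hmean : ∀ᶠ T : ℝ in atTop, c * T ^ p ≤ ∫ t in T..(T + 100 * Real.log T), ‖F (σ₁ + t * I)‖) :
    ∃ ε : ℝ, 0 < ε ∧ ∀ᶠ T : ℝ in atTop, ∃ Z : Finset ℂ,
      (∀ ρ ∈ Z, F ρ = 0 ∧ σ₀ < ρ.re ∧ T ≤ ρ.im ∧ ρ.im ≤ T + 101 * Real.log T) ∧
      ε * Real.log T ≤ ∑ ρ ∈ Z, (analyticOrderNatAt F ρ : ℝ) := by
  obtain ⟨η0, hη0⟩ : ∃ η0 : ℝ, η0 = min (1 / 4) (σ₁ - σ₀) := ⟨_, rfl⟩
  have hη00 : 0 < η0 := by rw [hη0]; exact lt_min (by norm_num) (by linarith)
  have hη04 : η0 ≤ 1 / 4 := by rw [hη0]; exact min_le_left _ _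
  have hησ : η0 ≤ σ₁ - σ₀ := by rw [hη0]; exact min_le_right _ _
  obtain ⟨ε, hε, hsab⟩ := Pool.Agent.W186.LH.sabZ η0 (p / 4) (N + 1) hη00 hη04 (by linarith) (by positivity)
  refine ⟨ε / 2, by linarith, ?_⟩
  -- eventual facts at `U = T + 5`
  have hlogt : Tendsto Real.log atTop atTop := Real.tendsto_log_atTop
  have hpow : ∀ᶠ U : ℝ in atTop, 100 * Real.log U * U ^ (p / 4) < c * U ^ p := by
    have h2 : Tendsto (fun U : ℝ => Real.log U * U ^ (-(3 / 4 * p))) atTop (𝓝 0) := by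
      have h3 := (isLittleO_log_rpow_atTop (r := 3 / 4 * p) (by positivity)).tendsto_div_nhds_zero
      refine h3.congr' ?_
      filter_upwards [eventually_gt_atTop 0] with Y hY
      rw [Real.rpow_neg hY.le, div_eq_mul_inv]
    have h4 := h2.const_mul 100
    rw [mul_zero] at h4
    filter_upwards [h4.eventually (gt_mem_nhds hc), eventually_gt_atTop 0] with U h5 hU
    have h6 : U ^ (p / 4) = U ^ (-(3 / 4 * p)) * U ^ p := by
      rw [← Real.rpow_add hU]
      congr 1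
      ring
    have h7 : 0 < U ^ p := Real.rpow_pos_of_pos hU _
    rw [h6]
    calc 100 * Real.log U * (U ^ (-(3 / 4 * p)) * U ^ p) = (100 * (Real.log U * U ^ (-(3 / 4 * p)))) * U ^ p := by ring
      _ < c * U ^ p := mul_lt_mul_of_pos_right h5 h7
  have hall : ∀ᶠ U : ℝ in atTop, ∃ Z : Finset ℂ,
      (∀ ρ ∈ Z, F ρ = 0 ∧ σ₀ < ρ.re ∧ U - 5 ≤ ρ.im ∧ ρ.im ≤ U + 100 * Real.log U + 5) ∧
      ε * Real.log U ≤ ∑ ρ ∈ Z, (analyticOrderNatAt F ρ : ℝ) := by
    filter_upwards [hmean, hpow, log_small 100, eventually_ge_atTop 20, pow_small K N,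
      hlogt.eventually (eventually_ge_atTop 1), hlogt.eventually (eventually_ge_atTop (D / ε))] with
      U hm hpw hlog hU hgrow hl1 hlD
    have hU0 : 0 < U := by linarith
    obtain ⟨L, hL⟩ : ∃ L : ℝ, L = Real.log U := ⟨_, rfl⟩
    rw [← hL] at hm hpw hlog hl1 hlD ⊢
    have hL0 : 0 < L := by linarith
    have hUL : ∀ r : ℝ, Real.exp (r * L) = U ^ r := by
      intro r
      rw [Real.rpow_def_of_pos hU0, hL, mul_comm]
    -- a large value
    obtain ⟨t₀, ht1, ht2, ht3⟩ : ∃ t₀ : ℝ, U ≤ t₀ ∧ t₀ ≤ U + 100 * L ∧ U ^ (p / 4) < ‖F (σ₁ + t₀ * I)‖ := by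
      by_contra hcon
      push Not at hcon
      have h6 : ∫ t in U..(U + 100 * L), ‖F (σ₁ + t * I)‖ ≤ ∫ t in U..(U + 100 * L), U ^ (p / 4) := by
        refine intervalIntegral.integral_mono_on (by linarith) ?_ ?_ fun t ht => hcon t ht.1 ht.2
        · exact (hF.continuous.comp (by fun_prop)).norm.intervalIntegrable _ _
        · exact continuous_const.intervalIntegrable _ _
      rw [intervalIntegral.integral_const, smul_eq_mul] at h6
      have : U + 100 * L - U = 100 * L := by ring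
      rw [this] at h6
      linarith
    obtain ⟨b, hb⟩ : ∃ b : ℂ, b = ((σ₁ - η0 : ℝ) : ℂ) + t₀ * I := ⟨_, rfl⟩
    have hbre : b.re = σ₁ - η0 := by rw [hb]; simp
    have hbim : b.im = t₀ := by rw [hb]; simp
    by_contra hcon
    push Not at hcon
    have hmem : ∀ (z : ℂ) (r : ℝ), z ∈ Metric.closedBall (5 : ℂ) r → 5 - r ≤ z.re ∧ z.re ≤ 5 + r ∧ |z.im| ≤ r := by
      intro z r hz
      rw [Metric.mem_closedBall, dist_eq_norm] at hz
      have h2 := (Complex.abs_re_le_norm (z - 5)).trans hz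
      have h3 := (Complex.abs_im_le_norm (z - 5)).trans hz
      rw [sub_re, abs_le] at h2
      rw [sub_im] at h3
      have e1 : (5 : ℂ).re = 5 := rfl
      have e2 : (5 : ℂ).im = 0 := rfl
      rw [e1] at h2
      rw [e2, sub_zero] at h3
      exact ⟨by linarith [h2.1], by linarith [h2.2], h3⟩
    have key := hsab L (fun z => F (z + b)) hL0 (hF.comp (by fun_prop)) ?_ ?_ ?_ ((η0 : ℝ) : ℂ) ?_
    · have e1 : ((η0 : ℝ) : ℂ) + b = σ₁ + t₀ * I := by rw [hb]; push_cast; ring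
      simp only [e1] at key
      rw [hUL] at key
      exact absurd key (not_le.2 ht3)
    · intro z hz
      obtain ⟨z1, z2, z3⟩ := hmem z 5 hz
      have hre : 1 / 2 ≤ (z + b).re := by rw [add_re, hbre]; linarith
      refine (hgr _ hre).trans ?_
      have hn : ‖z + b + 1‖ ≤ 4 * U := by
        refine (Complex.norm_le_abs_re_add_abs_im _).trans ?_
        have e1 : (z + b + 1).re = z.re + (σ₁ - η0) + 1 := by simp [hbre]
        have e2 : (z + b + 1).im = z.im + t₀ := by simp [hbim]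
        rw [e1, e2]
        have e3 : |z.re + (σ₁ - η0) + 1| ≤ 12 := by
          rw [abs_le]
          constructor <;> linarith
        have e4 : |z.im + t₀| ≤ 5 + 2 * U := by
          refine (abs_add_le _ _).trans ?_
          rw [abs_of_nonneg (by linarith : 0 ≤ t₀)]
          linarith
        linarith
      have h3 : K * ‖z + b + 1‖ ^ N ≤ K * (4 * U) ^ N :=
        mul_le_mul_of_nonneg_left (pow_le_pow_left₀ (norm_nonneg _) hn N) hK.le
      rw [hUL]
      have h4 : U ^ ((N : ℝ) + 1) = U ^ (N + 1) := by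
        rw [← Real.rpow_natCast]
        push_cast
        rfl
      rw [h4]
      exact h3.trans hgrow
    · intro z hz
      obtain ⟨z1, z2, z3⟩ := hmem z (7 / 2) hz
      have hre : 3 / 2 ≤ (z + b).re := by rw [add_re, hbre]; linarith
      have hDL : D ≤ ε * L := by
        rw [div_le_iff₀ hε] at hlD
        linarith
      obtain ⟨r1, r2⟩ := hR _ hre
      exact ⟨(Real.exp_le_exp.2 (by linarith)).trans r1, r2.trans (Real.exp_le_exp.2 hDL)⟩
    · intro Z hZ
      -- translate the zeros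
      have hinj : Set.InjOn (fun z : ℂ => z + b) Z := fun x _ y _ h => add_right_cancel h
      have h2 := hcon (Z.image fun z => z + b) (fun ρ hρ => by
        rw [Finset.mem_image] at hρ
        obtain ⟨z, hz, rfl⟩ := hρ
        obtain ⟨hz0, hzb⟩ := hZ z hz
        obtain ⟨z1, z2, z3⟩ := hmem z (5 - η0 / 4) hzb
        rw [abs_le] at z3
        refine ⟨hz0, ?_, ?_, ?_⟩
        · rw [add_re, hbre]; linarith
        · rw [add_im, hbim]; linarith
        · rw [add_im, hbim]; linarith)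
      rw [Finset.sum_image hinj] at h2
      have h3 : ∑ z ∈ Z, (analyticOrderNatAt (fun z => F (z + b)) z : ℝ) =
          ∑ z ∈ Z, (analyticOrderNatAt F (z + b) : ℝ) := Finset.sum_congr rfl fun z _ => by rw [ord_shift]
      rw [h3]
      exact h2.le
    · rw [Metric.mem_closedBall, dist_eq_norm]
      have : ((η0 : ℝ) : ℂ) - 5 = ((η0 - 5 : ℝ) : ℂ) := by push_cast; rfl
      rw [this, Complex.norm_real, Real.norm_eq_abs, abs_of_neg (by linarith)]
      linarith
  -- shift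
  have hsh : Tendsto (fun T : ℝ => T + 5) atTop atTop := tendsto_atTop_add_const_right _ _ tendsto_id
  filter_upwards [hsh.eventually hall, eventually_ge_atTop (Real.exp 1000), eventually_ge_atTop 10] with T hT hTe hT10
  obtain ⟨Z, hZ, hsum⟩ := hT
  have hT0 : 0 < T := by linarith
  have hlT : 1000 ≤ Real.log T := by
    have := Real.log_le_log (Real.exp_pos _) hTe
    rwa [Real.log_exp] at this
  have hl5 : Real.log T ≤ Real.log (T + 5) := Real.log_le_log hT0 (by linarith)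
  have hl6 : Real.log (T + 5) ≤ Real.log T + 1 := by
    have e1 : T + 5 ≤ T * Real.exp 1 := by
      have := Real.add_one_le_exp (1 : ℝ)
      nlinarith
    have := Real.log_le_log (by linarith) e1
    rw [Real.log_mul hT0.ne' (Real.exp_pos 1).ne', Real.log_exp] at this
    exact this
  refine ⟨Z, fun ρ hρ => ?_, ?_⟩
  · obtain ⟨z1, z2, z3, z4⟩ := hZ ρ hρ
    exact ⟨z1, z2, by linarith, by linarith⟩
  · refine le_trans ?_ hsum
    nlinarith

/-- counting over disjoint windows -/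
theorem zeros_total {F : ℂ → ℂ} {σ₀ ε : ℝ} (hε : 0 < ε)
    (hwin : ∀ᶠ T : ℝ in atTop, ∃ Z : Finset ℂ,
      (∀ ρ ∈ Z, F ρ = 0 ∧ σ₀ < ρ.re ∧ T ≤ ρ.im ∧ ρ.im ≤ T + 101 * Real.log T) ∧
      ε * Real.log T ≤ ∑ ρ ∈ Z, (analyticOrderNatAt F ρ : ℝ)) :
    ∃ δ : ℝ, 0 < δ ∧ ∀ᶠ T : ℝ in atTop, ∃ Z : Finset ℂ,
      (∀ ρ ∈ Z, F ρ = 0 ∧ σ₀ < ρ.re ∧ 0 < ρ.im ∧ ρ.im ≤ T) ∧
      δ * T ≤ ∑ ρ ∈ Z, (analyticOrderNatAt F ρ : ℝ) := by
  classical
  obtain ⟨T₀, hT₀⟩ := eventually_atTop.1 hwin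
  refine ⟨ε / 816, by positivity, ?_⟩
  filter_upwards [eventually_ge_atTop (2 * T₀), log_small 408, eventually_ge_atTop (Real.exp 1000),
    eventually_ge_atTop 4] with T hT1 hlog hTe hT4
  have hT0 : 0 < T := by linarith
  have hlT : 1000 ≤ Real.log T := by
    have := Real.log_le_log (Real.exp_pos _) hTe
    rwa [Real.log_exp] at this
  obtain ⟨w, hw⟩ : ∃ w : ℝ, w = 102 * Real.log T := ⟨_, rfl⟩
  have hw0 : 0 < w := by rw [hw]; linarith
  obtain ⟨n, hn⟩ : ∃ n : ℕ, n = ⌊T / (2 * w)⌋₊ := ⟨_, rfl⟩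
  have hn1 : (n : ℝ) ≤ T / (2 * w) := by rw [hn]; exact Nat.floor_le (by positivity)
  have hn2 : T / (2 * w) < n + 1 := by rw [hn]; exact Nat.lt_floor_add_one _
  obtain ⟨τ, hτ⟩ : ∃ τ : ℕ → ℝ, τ = fun k : ℕ => T / 2 + k * w := ⟨_, rfl⟩
  have hτ0 : ∀ k, T / 2 ≤ τ k := fun k => by rw [hτ]; simp only; nlinarith [(Nat.cast_nonneg k : (0 : ℝ) ≤ k)]
  have hτ1 : ∀ k < n, τ k + w ≤ T := by
    intro k hk
    rw [hτ]
    simp only
    have h1 : (k : ℝ) + 1 ≤ n := by exact_mod_cast hk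
    rw [le_div_iff₀ (by positivity)] at hn1
    nlinarith
  have hch : ∀ k : ℕ, ∃ Z : Finset ℂ,
      (∀ ρ ∈ Z, F ρ = 0 ∧ σ₀ < ρ.re ∧ τ k ≤ ρ.im ∧ ρ.im ≤ τ k + 101 * Real.log (τ k)) ∧
      ε * Real.log (τ k) ≤ ∑ ρ ∈ Z, (analyticOrderNatAt F ρ : ℝ) := fun k => hT₀ (τ k) (by linarith [hτ0 k])
  choose Z hZ hs using hch
  have hlogk : ∀ k < n, Real.log (τ k) ≤ Real.log T := fun k hk =>
    Real.log_le_log (by linarith [hτ0 k]) (by linarith [hτ1 k hk])
  have him : ∀ k < n, ∀ ρ ∈ Z k, τ k ≤ ρ.im ∧ ρ.im < τ k + w := by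
    intro k hk ρ hρ
    obtain ⟨-, -, z3, z4⟩ := hZ k ρ hρ
    refine ⟨z3, lt_of_le_of_lt z4 ?_⟩
    have := hlogk k hk
    rw [hw]
    linarith
  have hdis : Set.PairwiseDisjoint (Finset.range n : Set ℕ) Z := by
    intro i hi j hj hij
    rw [Function.onFun, Finset.disjoint_left]
    intro ρ hρi hρj
    have hi' : i < n := by simpa using hi
    have hj' : j < n := by simpa using hj
    have a := him i hi' ρ hρi
    have b := him j hj' ρ hρj
    rw [hτ] at a b
    simp only at a b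
    rcases lt_or_gt_of_ne hij with h | h
    · have : (i : ℝ) + 1 ≤ j := by exact_mod_cast h
      nlinarith [a.2, b.1]
    · have : (j : ℝ) + 1 ≤ i := by exact_mod_cast h
      nlinarith [a.1, b.2]
  refine ⟨(Finset.range n).biUnion Z, fun ρ hρ => ?_, ?_⟩
  · rw [Finset.mem_biUnion] at hρ
    obtain ⟨k, hk, hρk⟩ := hρ
    have hk' : k < n := by simpa using hk
    obtain ⟨z1, z2, -, -⟩ := hZ k ρ hρk
    obtain ⟨z3, z4⟩ := him k hk' ρ hρk
    exact ⟨z1, z2, by linarith [hτ0 k], by linarith [hτ1 k hk']⟩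
  · rw [Finset.sum_biUnion hdis]
    have h1 : ∀ k ∈ Finset.range n, ε * (Real.log T / 2) ≤ ∑ ρ ∈ Z k, (analyticOrderNatAt F ρ : ℝ) := by
      intro k _
      refine le_trans ?_ (hs k)
      refine mul_le_mul_of_nonneg_left ?_ hε.le
      have h2 : Real.log (T / 2) ≤ Real.log (τ k) := Real.log_le_log (by linarith) (hτ0 k)
      rw [Real.log_div hT0.ne' (by norm_num)] at h2
      have h3 : Real.log 2 ≤ 1 := by
        have := Real.log_two_lt_d9
        linarith
      linarith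
    have h2 := Finset.sum_le_sum h1
    rw [Finset.sum_const, Finset.card_range, nsmul_eq_mul] at h2
    refine le_trans ?_ h2
    have h3 : T / (408 * Real.log T) ≤ n := by
      have h4 : T / (2 * w) = T / (408 * Real.log T) * 2 := by
        rw [hw]
        field_simp
        norm_num
      have h5 : 1 ≤ T / (408 * Real.log T) := by
        rw [le_div_iff₀ (by positivity)]
        linarith
      linarith
    calc ε / 816 * T = T / (408 * Real.log T) * (ε * (Real.log T / 2)) := by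
          have : Real.log T ≠ 0 := by linarith
          field_simp
          norm_num
      _ ≤ _ := mul_le_mul_of_nonneg_right h3 (by positivity)

end Pool.Agent.Q284.S
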